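import Mathlib
import Pool.Agent.H627.LP.Orb

/-!
The local gain for clusters of points of different sizes, with ranks measured by the Hilbert
function, and the resulting global inequality.
-/

set_option autoImplicit false
set_option linter.unusedSectionVars false

namespace Pool.Agent.NH29.QL

open NumberField Module MvPolynomial
open Pool.Agent.W238.Leh
open Pool.Agent.H627.LP

noncomputable section

section Expand

variable {M : Type} [Field M] [NumberField M] {v : FinitePlace M} {N : ℕ}

/-- the exponents of degree less than `s`, zero in the variable `i₀` -/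
def sbox (s : ℕ) (i₀ : Fin (N + 1)) : Finset (Fin (N + 1) →₀ ℕ) :=
  (box s i₀).filter fun α => ∑ t, α t < s

/-- expansion in a small polydisc -/
lemma expand2 {ψ : MvPolynomial (Fin (N + 1)) M} (hψ : IntP v ψ) {i₀ : Fin (N + 1)}
    {δ : Fin (N + 1) → M} {η : ℝ} (hη : 0 ≤ η) (hη1 : η ≤ 1) (h0 : δ i₀ = 0)
    (hδ : ∀ t, v (δ t) ≤ η) (s : ℕ) :
    v (eval δ ψ - ∑ α ∈ sbox s i₀, ψ.coeff α * ∏ t, δ t ^ α t) ≤ η ^ s := by
  classical
  set f : (Fin (N + 1) →₀ ℕ) → M := fun α => ψ.coeff α * ∏ t, δ t ^ α t with hf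
  have h1 : eval δ ψ = ∑ α ∈ ψ.support ∪ sbox s i₀, f α := by
    rw [eval_eq']
    refine Finset.sum_subset Finset.subset_union_left fun α _ hα => ?_
    rw [notMem_support_iff.mp hα, zero_mul]
  rw [h1, ← Finset.sum_sdiff (Finset.subset_union_right : sbox s i₀ ⊆ ψ.support ∪ sbox s i₀),
    add_sub_cancel_right]
  refine v_sum_le v _ _ (pow_nonneg hη s) fun α hα => ?_
  have hα' := (Finset.mem_sdiff.mp hα).2
  unfold sbox at hα'
  rw [Finset.mem_filter, mem_box] at hα'
  by_cases hi : α i₀ = 0
  · have hs : s ≤ ∑ t, α t := by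
      by_contra hcon
      push Not at hcon
      refine hα' ⟨⟨hi, fun t _ => ?_⟩, hcon⟩
      exact lt_of_le_of_lt (Finset.single_le_sum (f := fun t => α t) (fun _ _ => Nat.zero_le _)
        (Finset.mem_univ t)) hcon
    simp only [hf]
    rw [map_mul, map_prod]
    have h2 : ∏ t, v (δ t ^ α t) ≤ η ^ s := by
      calc ∏ t, v (δ t ^ α t) ≤ ∏ t, η ^ α t := by
            refine Finset.prod_le_prod (fun i _ => v_nonneg v _) fun t _ => ?_
            rw [map_pow]
            exact pow_le_pow_left₀ (v_nonneg v _) (hδ t) _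
        _ = η ^ ∑ t, α t := Finset.prod_pow_eq_pow_sum _ _ _
        _ ≤ η ^ s := pow_le_pow_of_le_one hη hη1 hs
    calc v (ψ.coeff α) * ∏ t, v (δ t ^ α t) ≤ 1 * η ^ s :=
          mul_le_mul (hψ α) h2 (Finset.prod_nonneg fun i _ => v_nonneg v _) zero_le_one
      _ = η ^ s := one_mul _
  · simp only [hf]
    have h2 : ∏ t, δ t ^ α t = 0 := by
      apply Finset.prod_eq_zero (Finset.mem_univ i₀)
      rw [h0, zero_pow hi]
    rw [h2, mul_zero, map_zero]
    exact pow_nonneg hη s

end Expand

section Aff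

variable {K : Type} [Field K] [NumberField K] {M : Type} [Field M] [NumberField M] [Algebra K M]
  {N : ℕ} {κ : Type} [Fintype κ]

/-- the functions on a set of points given by polynomials of degree at most `m` in the affine
coordinates -/
def AL (K : Type) [Field K] [NumberField K] [Algebra K M] (p : κ → Fin (N + 1) → M)
    (a : Fin (N + 1)) (m : ℕ) : Submodule M (κ → M) where
  carrier := {w | (fun i => p i a ^ m * w i) ∈ EL K p m}
  zero_mem' := by
    have : (fun i => p i a ^ m * (0 : κ → M) i) = 0 := by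
      funext i
      simp
    rw [Set.mem_ofPred_eq, this]
    exact Submodule.zero_mem _
  add_mem' := by
    intro x y hx hy
    have : (fun i => p i a ^ m * (x + y) i) =
        (fun i => p i a ^ m * x i) + fun i => p i a ^ m * y i := by
      funext i
      simp only [Pi.add_apply]
      ring
    rw [Set.mem_ofPred_eq, this]
    exact Submodule.add_mem _ hx hy
  smul_mem' := by
    intro c x hx
    have : (fun i => p i a ^ m * (c • x) i) = c • fun i => p i a ^ m * x i := by
      funext i
      simp only [Pi.smul_apply, smul_eq_mul]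
      ring
    rw [Set.mem_ofPred_eq, this]
    exact Submodule.smul_mem _ _ hx

lemma mem_AL {p : κ → Fin (N + 1) → M} {a : Fin (N + 1)} {m : ℕ} {w : κ → M} :
    w ∈ AL K p a m ↔ (fun i => p i a ^ m * w i) ∈ EL K p m := Iff.rfl

lemma one_mem_AL (p : κ → Fin (N + 1) → M) (a : Fin (N + 1)) (m : ℕ) :
    (fun _ => (1 : M)) ∈ AL K p a m := by
  rw [mem_AL]
  induction m with
  | zero =>
    simp only [pow_zero, one_mul]
    exact one_mem_EL p
  | succ m ih =>
    have h1 := mul_mem_EL ih a
    convert! h1 using 1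
    funext i
    rw [pow_succ']
    ring

lemma mul_mem_AL {p : κ → Fin (N + 1) → M} {a : Fin (N + 1)} (hpa : ∀ i, p i a ≠ 0) {m : ℕ}
    {w : κ → M} (hw : w ∈ AL K p a m) (t : Fin (N + 1)) (b : M) :
    (fun i => ((p i a)⁻¹ * p i t - b) * w i) ∈ AL K p a (m + 1) := by
  rw [mem_AL] at hw ⊢
  have h1 := mul_mem_EL hw t
  have h2 := mul_mem_EL hw a
  have h3 := Submodule.sub_mem _ h1 (Submodule.smul_mem _ b h2)
  convert! h3 using 1
  funext i
  simp only [Pi.sub_apply, Pi.smul_apply, smul_eq_mul]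
  have := hpa i
  rw [pow_succ]
  field_simp

lemma mono_AL {p : κ → Fin (N + 1) → M} {a : Fin (N + 1)} {m : ℕ}
    {w : κ → M} (hw : w ∈ AL K p a m) (k : ℕ) : w ∈ AL K p a (m + k) := by
  induction k with
  | zero => exact hw
  | succ k ih =>
    rw [mem_AL] at ih ⊢
    have h2 := mul_mem_EL ih a
    convert! h2 using 1
    funext i
    rw [← add_assoc, pow_succ']
    ring

lemma pow_mem_AL {p : κ → Fin (N + 1) → M} {a : Fin (N + 1)} (hpa : ∀ i, p i a ≠ 0) {m : ℕ}
    {w : κ → M} (hw : w ∈ AL K p a m) (t : Fin (N + 1)) (b : M) (k : ℕ) :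
    (fun i => ((p i a)⁻¹ * p i t - b) ^ k * w i) ∈ AL K p a (m + k) := by
  induction k with
  | zero => simpa using hw
  | succ k ih =>
    have h1 := mul_mem_AL hpa ih t b
    convert! h1 using 1
    funext i
    rw [pow_succ']
    ring

lemma prod_mem_AL {p : κ → Fin (N + 1) → M} {a : Fin (N + 1)} (hpa : ∀ i, p i a ≠ 0)
    (u : Fin (N + 1) → M) (α : Fin (N + 1) →₀ ℕ) (s : Finset (Fin (N + 1))) :
    (fun i => ∏ t ∈ s, ((p i a)⁻¹ * p i t - u t) ^ α t) ∈ AL K p a (∑ t ∈ s, α t) := by
  classical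
  induction s using Finset.induction_on with
  | empty =>
    simp only [Finset.prod_empty, Finset.sum_empty]
    exact one_mem_AL p a 0
  | insert x s hx ih =>
    have h1 := pow_mem_AL hpa ih x (u x) (α x)
    rw [Finset.sum_insert hx, add_comm]
    convert! h1 using 1
    funext i
    rw [Finset.prod_insert hx]

lemma finrank_AL_le {p : κ → Fin (N + 1) → M} {a : Fin (N + 1)}
    (hpa : ∀ i, p i a ≠ 0) (m : ℕ) :
    finrank M (AL K p a m) ≤ finrank M (EL K p m) := by
  let f : AL K p a m →ₗ[M] EL K p m :=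
    { toFun := fun w => ⟨fun i => p i a ^ m * (w : κ → M) i, w.2⟩
      map_add' := by
        intro x y
        apply Subtype.ext
        funext i
        change p i a ^ m * ((x : κ → M) + (y : κ → M)) i = _
        simp only [Pi.add_apply]
        rw [mul_add]
        rfl
      map_smul' := by
        intro c x
        apply Subtype.ext
        funext i
        change p i a ^ m * (c • (x : κ → M)) i = c * (p i a ^ m * (x : κ → M) i)
        simp only [Pi.smul_apply, smul_eq_mul]
        ring }
  apply LinearMap.finrank_le_finrank_of_injective (f := f)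
  intro x y hxy
  apply Subtype.ext
  funext i
  have h1 : p i a ^ m * (x : κ → M) i = p i a ^ m * (y : κ → M) i :=
    congrFun (congrArg Subtype.val hxy) i
  exact mul_left_cancel₀ (pow_ne_zero _ (hpa i)) h1

/-- the dimension of the space of forms of degree `m` -/
lemma finrank_EL_le (p : κ → Fin (N + 1) → M) (m : ℕ) :
    finrank M (EL K p m) ≤ (m + 1) ^ N := by
  classical
  set S : Finset (Fin (N + 1) →₀ ℕ) := Finset.finsuppAntidiag Finset.univ m with hS
  set W : Finset (κ → M) := S.image fun α i => ∏ t, p i t ^ α t with hW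
  have h1 : EL K p m ≤ Submodule.span M (W : Set (κ → M)) := by
    unfold EL
    rw [Submodule.span_le]
    rintro _ ⟨φ, hφ, rfl⟩
    have h2 : (fun i => aeval (p i) φ) = ∑ α ∈ φ.support, algebraMap K M (φ.coeff α) •
        fun i => ∏ t, p i t ^ α t := by
      funext i
      rw [Finset.sum_apply, aeval_def, eval₂_eq']
      rfl
    rw [h2, SetLike.mem_coe]
    refine Submodule.sum_mem _ fun α hα => Submodule.smul_mem _ _ (Submodule.subset_span ?_)
    rw [hW, Finset.coe_image]
    refine ⟨α, ?_, rfl⟩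
    rw [Finset.mem_coe, hS, Finset.mem_finsuppAntidiag]
    refine ⟨?_, Finset.subset_univ _⟩
    have h3 := hφ (mem_support_iff.mp hα)
    have h4 : (Finsupp.weight 1) α = ∑ t, α t := by
      rw [Finsupp.weight_apply, Finsupp.sum_fintype _ _ (fun _ => by simp)]
      simp
    rw [← h4]
    exact h3
  refine (Submodule.finrank_mono h1).trans ((finrank_span_finset_le_card _).trans ?_)
  refine Finset.card_image_le.trans ?_
  rw [← card_box (m + 1) (0 : Fin (N + 1))]
  refine Finset.card_le_card_of_injOn (fun α => α.erase 0) ?_ ?_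
  · intro α hα
    rw [Finset.mem_coe, hS, Finset.mem_finsuppAntidiag] at hα
    rw [Finset.mem_coe, mem_box]
    refine ⟨Finsupp.erase_same, fun t ht => ?_⟩
    rw [Finsupp.erase_ne ht, Nat.lt_succ_iff, ← hα.1]
    exact Finset.single_le_sum (f := fun t => α t) (fun _ _ => Nat.zero_le _)
      (Finset.mem_univ t)
  · intro α hα β hβ hab
    rw [Finset.mem_coe, hS, Finset.mem_finsuppAntidiag] at hα hβ
    have h2 : ∀ t, t ≠ 0 → α t = β t := by
      intro t ht
      have := DFunLike.congr_fun hab t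
      simp only [Finsupp.erase_ne ht] at this
      exact this
    ext t
    by_cases ht : t = 0
    · subst ht
      have h3 := hα.1
      have h4 := hβ.1
      rw [← Finset.add_sum_erase _ _ (Finset.mem_univ (0 : Fin (N + 1)))] at h3 h4
      have h5 : ∑ x ∈ Finset.univ.erase (0 : Fin (N + 1)), α x =
          ∑ x ∈ Finset.univ.erase (0 : Fin (N + 1)), β x :=
        Finset.sum_congr rfl fun t ht => h2 t (Finset.ne_of_mem_erase ht)
      omega
    · exact h2 t ht

/-- restriction to a subset -/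
lemma finrank_EL_comp_le {κ' : Type} [Fintype κ'] (p : κ → Fin (N + 1) → M)
    (f : κ' → κ) (m : ℕ) :
    finrank M (EL K (fun i => p (f i)) m) ≤ finrank M (EL K p m) := by
  have h1 : EL K (fun i => p (f i)) m ≤ (EL K p m).map (LinearMap.funLeft M M f) := by
    conv_lhs => unfold EL
    rw [Submodule.span_le]
    rintro _ ⟨φ, hφ, rfl⟩
    exact ⟨fun i => aeval (p i) φ, Submodule.subset_span ⟨φ, hφ, rfl⟩, rfl⟩
  exact (Submodule.finrank_mono h1).trans (Submodule.finrank_map_le _ _)

end Aff

section Local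

variable {K : Type} [Field K] [NumberField K] {M : Type} [Field M] [NumberField M] [Algebra K M]
  {N : ℕ} {F : Fin (N + 1) → MvPolynomial (Fin (N + 1)) K} {q : ℕ} {ρ : ℝ}
  {v : FinitePlace M} {ι : Type} [Fintype ι] [DecidableEq ι]

/-- the dimension of a sum of subspaces -/
lemma finrank_sup_le {V : Type} [AddCommGroup V] [Module M V] [FiniteDimensional M V]
    {β : Type} [DecidableEq β] (s : Finset β) (f : β → Submodule M V) (R : β → ℕ)
    (h : ∀ b ∈ s, finrank M (f b) ≤ R b) : finrank M (s.sup f : Submodule M V) ≤ ∑ b ∈ s, R b := by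
  induction s using Finset.induction_on with
  | empty => simp
  | insert a s ha ih =>
    rw [Finset.sup_insert, Finset.sum_insert ha]
    refine (Submodule.finrank_add_le_finrank_add_finrank _ _).trans ?_
    exact Nat.add_le_add (h a (Finset.mem_insert_self _ _))
      (ih fun b hb => h b (Finset.mem_insert_of_mem hb))

/-- row rank and column rank -/
lemma finrank_rows_le {κ : Type} [Fintype κ] [DecidableEq κ] (X : Matrix κ ι M)
    (V : Submodule M (κ → M)) (h : ∀ j, X.col j ∈ V) :
    finrank M (Submodule.span M (Set.range X.row)) ≤ finrank M V := by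
  rw [← Matrix.rank_eq_finrank_span_row, Matrix.rank_eq_finrank_span_cols]
  apply Submodule.finrank_mono
  rw [Submodule.span_le]
  rintro _ ⟨j, rfl⟩
  exact h j

/-- **the local gain** -/
theorem local_gain2 (hR : RedN v F q ρ) (hF : ∀ i, (F i).IsHomogeneous q) (l : List ℕ)
    (Φ : ι → MvPolynomial (Fin (N + 1)) K) (hΦ : ∀ j, Φ j ∈ GG F l) (p : ι → Fin (N + 1) → M)
    (hp : ∀ i, p i ≠ 0) (good : Finset ι) (c : ι → ι) (η : ι → ℝ) (hη : ∀ i, 0 < η i)
    (hη1 : ∀ i, η i < 1) (hnear : ∀ i ∈ good, Near v (η (c i)) (p i) (p (c i))) (s : ι → ℕ)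
    {θ : ℝ} (hθ0 : 0 ≤ θ) (hθ1 : θ ≤ 1)
    (hθ : ∀ i ∈ good, η (c i) ^ s (c i) ≤ θ) (R : ι → ℕ)
    (hRk : ∀ b ∈ good.image c,
      finrank M (EL K (fun i : {i // i ∈ good ∧ c i = b} => p i) (s b - 1)) ≤ R b) :
    v (Matrix.of fun i j => aeval (p i) (Φ j)).det ≤
      (∏ i, nmf v (p i) ^ ldeg q l) *
        θ ^ (Fintype.card ι - (goodᶜ.card + ∑ b ∈ good.image c, R b)) := by
  classical
  set m := ldeg q l with hm
  choose a ha using fun i => exists_nmf (v := v) (p i)
  -- a pivot coordinate for every point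
  set π : ι → Fin (N + 1) := fun i => if i ∈ good then a (c i) else a i with hπ
  have hpa : ∀ i, v (p i (π i)) = nmf v (p i) := by
    intro i
    by_cases hi : i ∈ good
    · simp only [hπ, if_pos hi]
      exact (hnear i hi).coord (hη1 _) (hp i) (hp (c i)) (ha (c i))
    · simp only [hπ, if_neg hi]
      exact ha i
  have hpa0 : ∀ i, p i (π i) ≠ 0 := by
    intro i h0
    have h1 := hpa i
    rw [h0, map_zero] at h1
    have := nmf_pos v (hp i)
    linarith
  have hca0 : ∀ i, p i (a i) ≠ 0 := by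
    intro i h0
    have h1 := ha i
    rw [h0, map_zero] at h1
    have := nmf_pos v (hp i)
    linarith
  set u : ι → Fin (N + 1) → M := fun i => (p i (a i))⁻¹ • p i with hu
  set z : ι → Fin (N + 1) → M := fun i => (p i (π i))⁻¹ • p i with hz
  have hui : ∀ i t, v (u i t) ≤ 1 := by
    intro i t
    simp only [hu, Pi.smul_apply, smul_eq_mul, map_mul, map_inv₀, ha]
    have := nmf_pos v (hp i)
    rw [inv_mul_le_iff₀ this, mul_one]
    exact le_nmf v _ _
  have hzi : ∀ i t, v (z i t) ≤ 1 := by
    intro i t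
    simp only [hz, Pi.smul_apply, smul_eq_mul, map_mul, map_inv₀, hpa]
    have := nmf_pos v (hp i)
    rw [inv_mul_le_iff₀ this, mul_one]
    exact le_nmf v _ _
  set δ : ι → Fin (N + 1) → M := fun i => z i - u (c i) with hδ
  have hδ0 : ∀ i ∈ good, δ i (a (c i)) = 0 := by
    intro i hi
    have h1 := hpa0 i
    simp only [hπ, if_pos hi] at h1
    simp only [hδ, hz, hu, hπ, if_pos hi, Pi.sub_apply, Pi.smul_apply, smul_eq_mul]
    rw [inv_mul_cancel₀ h1, inv_mul_cancel₀ (hca0 (c i)), sub_self]
  have hδv : ∀ i ∈ good, ∀ t, v (δ i t) ≤ η (c i) := by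
    intro i hi t
    have h2 := hpa0 i
    have h2' := hpa i
    simp only [hπ, if_pos hi] at h2 h2'
    have h3 := hca0 (c i)
    have h1 : δ i t = (p i t * p (c i) (a (c i)) - p i (a (c i)) * p (c i) t) *
        ((p i (a (c i)))⁻¹ * (p (c i) (a (c i)))⁻¹) := by
      simp only [hδ, hz, hu, hπ, if_pos hi, Pi.sub_apply, Pi.smul_apply, smul_eq_mul]
      field_simp
    rw [h1, map_mul, map_mul, map_inv₀, map_inv₀, h2', ha]
    have h4 := nmf_pos v (hp i)
    have h5 := nmf_pos v (hp (c i))
    have h6 := hnear i hi t (a (c i))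
    rw [← mul_inv, ← div_eq_mul_inv, div_le_iff₀ (mul_pos h4 h5)]
    exact h6
  -- the expansions
  set ψ : ι → ι → MvPolynomial (Fin (N + 1)) M := fun b j =>
    bind₁ (fun t => C (u b t) + X t) (map (algebraMap K M) (Φ j)) with hψ
  have hψint : ∀ b j, IntP v (ψ b j) := by
    intro b j
    refine IntP.bind (fun t => (IntP.const (hui b t)).add (IntP.var t)) ?_
    exact GG_intP hR.intP l (hΦ j)
  have hψev : ∀ i j, eval (δ i) (ψ (c i) j) = aeval (z i) (Φ j) := by
    intro i j
    have h1 : eval (δ i) (ψ (c i) j) =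
        eval (fun t => eval (δ i) (C (u (c i) t) + X t)) (map (algebraMap K M) (Φ j)) := by
      simp only [hψ]
      exact eval₂Hom_bind₁ _ _ _ _
    rw [h1, eval_map, aeval_def]
    congr 1
    funext t
    rw [map_add, eval_C, eval_X]
    simp only [hδ, Pi.sub_apply]
    ring
  set W' : Matrix ι ι M := Matrix.of fun i j => aeval (z i) (Φ j) with hW'
  set X' : Matrix ι ι M := Matrix.of fun i j => if i ∈ good then
    ∑ α ∈ sbox (s (c i)) (a (c i)), (ψ (c i) j).coeff α * ∏ t, δ i t ^ α t
      else W' i j with hX'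
  have hW1 : ∀ i j, v (W' i j) ≤ 1 := by
    intro i j
    simp only [hW', Matrix.of_apply]
    rw [aeval_def, ← eval_map, eval_eq']
    refine v_sum_le v _ _ zero_le_one fun α _ => ?_
    rw [map_mul, map_prod]
    refine mul_le_one₀ (GG_intP hR.intP l (hΦ j) _)
      (Finset.prod_nonneg fun i _ => v_nonneg v _) ?_
    refine Finset.prod_le_one (fun i _ => v_nonneg v _) fun t _ => ?_
    rw [map_pow]
    exact pow_le_one₀ (v_nonneg v _) (hzi i t)
  have hY : ∀ i j, v ((W' - X') i j) ≤ θ := by
    intro i j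
    by_cases hi : i ∈ good
    · have h1 : (W' - X') i j = eval (δ i) (ψ (c i) j) -
          ∑ α ∈ sbox (s (c i)) (a (c i)), (ψ (c i) j).coeff α * ∏ t, δ i t ^ α t := by
        rw [hψev]
        simp only [hX', Matrix.sub_apply, Matrix.of_apply, if_pos hi]
        rfl
      rw [h1]
      exact (expand2 (hψint _ _) (hη _).le (hη1 _).le (hδ0 i hi) (hδv i hi) _).trans (hθ i hi)
    · have h1 : (W' - X') i j = 0 := by
        simp only [hX', Matrix.sub_apply, Matrix.of_apply, if_neg hi, sub_self]
      rw [h1, map_zero]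
      exact hθ0
  have hX1 : ∀ i j, v (X' i j) ≤ 1 := by
    intro i j
    by_cases hi : i ∈ good
    · simp only [hX', Matrix.of_apply, if_pos hi]
      refine v_sum_le v _ _ zero_le_one fun α _ => ?_
      rw [map_mul, map_prod]
      refine mul_le_one₀ (hψint _ _ _) (Finset.prod_nonneg fun i _ => v_nonneg v _) ?_
      refine Finset.prod_le_one (fun i _ => v_nonneg v _) fun t _ => ?_
      rw [map_pow]
      exact pow_le_one₀ (v_nonneg v _) ((hδv i hi t).trans (hη1 _).le)
    · simp only [hX', Matrix.of_apply, if_neg hi]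
      exact hW1 i j
  -- the rank
  set Sg : ι → Submodule M (ι → M) := fun b => Submodule.span M
    (Set.range fun i : {i // i ∈ good ∧ c i = b} => X' i) with hSg
  set Sb : Submodule M (ι → M) := Submodule.span M
    ((goodᶜ.image fun i => X' i : Finset (ι → M)) : Set (ι → M)) with hSb
  have hSgr : ∀ b ∈ good.image c, finrank M (Sg b) ≤ R b := by
    intro b hb
    refine le_trans ?_ (hRk b hb)
    set κ := {i // i ∈ good ∧ c i = b} with hκ
    have hκa : ∀ i : κ, p i (a b) ≠ 0 := by
      intro i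
      have h1 := hpa0 i
      simp only [hπ, if_pos i.2.1, i.2.2] at h1
      exact h1
    refine le_trans ?_ (finrank_AL_le (K := K) hκa (s b - 1))
    refine finrank_rows_le (Matrix.of fun (i : κ) j => X' i j) _ fun j => ?_
    have h1 : (Matrix.of fun (i : κ) j => X' i j).col j =
        ∑ α ∈ sbox (s b) (a b), (ψ b j).coeff α •
          fun i : κ => ∏ t, ((p i (a b))⁻¹ * p i t - u b t) ^ α t := by
      funext i
      rw [Finset.sum_apply]
      simp only [Matrix.col_apply, Matrix.of_apply, hX', if_pos i.2.1, i.2.2, Pi.smul_apply,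
        smul_eq_mul]
      refine Finset.sum_congr rfl fun α _ => ?_
      congr 1
      refine Finset.prod_congr rfl fun t _ => ?_
      simp only [hδ, hz, hπ, if_pos i.2.1, i.2.2, Pi.sub_apply, Pi.smul_apply, smul_eq_mul]
    rw [h1]
    refine Submodule.sum_mem _ fun α hα => Submodule.smul_mem _ _ ?_
    have h2 := prod_mem_AL (K := K) (p := fun i : κ => p i) hκa (u b) α Finset.univ
    have h3 : ∑ t, α t < s b := (Finset.mem_filter.mp hα).2
    obtain ⟨k, hk⟩ : ∃ k, s b - 1 = ∑ t, α t + k := ⟨s b - 1 - ∑ t, α t, by omega⟩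
    rw [hk]
    exact mono_AL h2 k
  have hSbr : finrank M Sb ≤ goodᶜ.card :=
    (finrank_span_finset_le_card _).trans Finset.card_image_le
  set S : Submodule M (ι → M) := Sb ⊔ (good.image c).sup Sg with hS
  have hSr : finrank M S ≤ goodᶜ.card + ∑ b ∈ good.image c, R b :=
    (Submodule.finrank_add_le_finrank_add_finrank _ _).trans
      (Nat.add_le_add hSbr (finrank_sup_le _ _ _ hSgr))
  have hXS : ∀ i, X' i ∈ S := by
    intro i
    by_cases hi : i ∈ good
    · refine Submodule.mem_sup_right ?_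
      have h1 : Sg (c i) ≤ (good.image c).sup Sg :=
        Finset.le_sup (f := Sg) (Finset.mem_image_of_mem _ hi)
      exact h1 (Submodule.subset_span ⟨⟨i, hi, rfl⟩, rfl⟩)
    · refine Submodule.mem_sup_left (Submodule.subset_span ?_)
      rw [Finset.mem_coe]
      exact Finset.mem_image_of_mem _ (Finset.mem_compl.mpr hi)
  have h1 := det_rank_le v X' (W' - X') hθ0 hθ1 hX1 hY S hSr hXS
  rw [add_sub_cancel] at h1
  -- scaling
  have h2 : (Matrix.of fun i j => aeval (p i) (Φ j)) =
      Matrix.diagonal (fun i => p i (π i) ^ m) * W' := by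
    ext i j
    rw [Matrix.diagonal_mul]
    simp only [Matrix.of_apply, hW']
    have h3 : p i = p i (π i) • z i := by
      simp only [hz]
      rw [smul_smul, mul_inv_cancel₀ (hpa0 i), one_smul]
    conv_lhs => rw [h3]
    exact aeval_smul_hom (GG_hom hF l (hΦ j)) _ _
  rw [h2, Matrix.det_mul, Matrix.det_diagonal, map_mul, map_prod]
  have h3 : ∏ i, v (p i (π i) ^ m) = ∏ i, nmf v (p i) ^ m :=
    Finset.prod_congr rfl fun i _ => by rw [map_pow, hpa]
  rw [h3]
  refine mul_le_mul_of_nonneg_left h1 (Finset.prod_nonneg fun i _ => ?_)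
  exact pow_nonneg (nmf_nonneg v _) _

end Local

section Global

variable {K : Type} [Field K] [NumberField K] {M : Type} [Field M] [NumberField M] [Algebra K M]
  {N : ℕ} {ι : Type} [Fintype ι] [DecidableEq ι]
variable {F : Fin (N + 1) → MvPolynomial (Fin (N + 1)) K} {q c a : ℕ} {A : ℝ}

/-- products of monomials of the iterates with nonvanishing determinant -/
lemma exists_forms2 (hF : ∀ i, (F i).IsHomogeneous q)
    (hc : ∀ m, c + q ≤ m → ∀ p : MvPolynomial (Fin (N + 1)) K, p.IsHomogeneous m →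
      p ∈ Ideal.span (Set.range F)) {p : ι → Fin (N + 1) → M} (l : List ℕ) (hl : LOK c l)
    (hlc : Fintype.card ι ≤ finrank M (EL K p (ldeg q l))) :
    ∃ Φ : ι → MvPolynomial (Fin (N + 1)) K, (∀ j, Φ j ∈ GG F l) ∧
      (Matrix.of fun i j => aeval (p i) (Φ j)).det ≠ 0 := by
  have h1 := hlc.trans (Submodule.finrank_mono (EL_le_span hF hc p l hl))
  obtain ⟨φv, hφt, hφli⟩ := exists_indep (L := M)
    {v : ι → M | ∃ φ ∈ GG F l, v = fun i => aeval (p i) φ} h1
  choose φ hφG hφe using hφt
  let e : ι ≃ Fin (Fintype.card ι) := Fintype.equivFin ι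
  refine ⟨fun j => φ (e j), fun j => hφG _, ?_⟩
  have h2 : LinearIndependent M (Matrix.of fun j i => aeval (p i) (φ (e j))).row := by
    have h3 : (Matrix.of fun j i => aeval (p i) (φ (e j))).row = fun j => φv (e j) := by
      funext j
      rw [hφe]
      rfl
    rw [h3]
    exact hφli.comp e e.injective
  rw [Matrix.linearIndependent_rows_iff_isUnit, Matrix.isUnit_iff_isUnit_det] at h2
  have h3 : (Matrix.of fun i j => aeval (p i) (φ (e j))) =
      (Matrix.of fun j i => aeval (p i) (φ (e j))).transpose := by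
    ext i j
    rfl
  rw [h3, Matrix.det_transpose]
  exact h2.ne_zero

/-- **the inequality** -/
theorem det_ineq2 (hB : Bds F q A a) (hq : 2 ≤ q) (hF : ∀ i, (F i).IsHomogeneous q)
    (hc : ∀ m, c + q ≤ m → ∀ p : MvPolynomial (Fin (N + 1)) K, p.IsHomogeneous m →
      p ∈ Ideal.span (Set.range F)) {p : ι → Fin (N + 1) → M} (hp : ∀ i, p i ≠ 0)
    (hι : 1 ≤ Fintype.card ι) {m : ℕ} (hm : Fintype.card ι ≤ finrank M (EL K p m))
    (T : Finset (FinitePlace M)) (hT : ∀ v ∈ T, ∃ ρ, RedN v F q ρ) (g : FinitePlace M → ℝ)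
    (hgain : ∀ v ∈ T, ∀ l : List ℕ, ∀ Φ : ι → MvPolynomial (Fin (N + 1)) K,
      (∀ j, Φ j ∈ GG F l) → v (Matrix.of fun i j => aeval (p i) (Φ j)).det ≤
        (∏ i, nmf v (p i) ^ ldeg q l) * Real.exp (-g v)) {H : ℝ} (hH : ∀ i, canH F q (p i) ≤ H) :
    ∑ v ∈ T, g v ≤
      finrank ℚ M * (Fintype.card ι * (m * H +
        hC A a * ((c + q : ℕ) * (1 + Nat.log 2 m : ℕ)) +
        Real.log (Fintype.card ι))) := by
  set r := Fintype.card ι with hr
  obtain ⟨l, hl1, hl2, hl3, hl4⟩ := exists_list (c := c) hq m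
  obtain ⟨Φ, hΦ, hdet⟩ := exists_forms2 hF hc l hl2 (by rw [hl1]; exact hm)
  set W := (Matrix.of fun i j => aeval (p i) (Φ j)) with hW
  have hiter : ∀ i j, (act F)^[j] (p i) ≠ 0 := fun i j => hB.iter_ne_zero (hp i) j
  have hwtpos : ∀ (w : InfinitePlace M) i, 0 < wt (nmi w) (act F) l (p i) :=
    fun w i => wt_pos l fun j => nmi_pos w (hiter _ j)
  have hwtposf : ∀ (v : FinitePlace M) i, 0 < wt (nmf v) (act F) l (p i) :=
    fun v i => wt_pos l fun j => nmf_pos v (hiter _ j)
  have hinf : ∀ w : InfinitePlace M, Real.log (w W.det) ≤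
      ∑ i, Real.log (wt (nmi w) (act F) l (p i)) + Real.log r.factorial := by
    intro w
    have h1 : w W.det ≤ (Fintype.card ι).factorial * ∏ i, wt (nmi w) (act F) l (p i) := by
      apply det_rows_le_inf
      intro i j
      exact abs_le_wt (w.1.toMonoidWithZeroHom) (fun x => w.1.nonneg x)
        (fun x j => le_nmi w x j) (fun x => nmi_nonneg w x) l (hΦ j) (p i)
    have h2 : 0 < w W.det := InfinitePlace.pos_iff.mpr hdet
    have h3 := Real.log_le_log h2 h1
    have h4 : (0 : ℝ) < ((Fintype.card ι).factorial : ℝ) := by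
      exact_mod_cast Nat.factorial_pos _
    rw [Real.log_mul h4.ne' (Finset.prod_pos fun k _ => hwtpos w k).ne',
      Real.log_prod (fun k _ => (hwtpos w k).ne')] at h3
    linarith
  have hfin : ∀ v : FinitePlace M, Real.log (v W.det) ≤
      ∑ i, Real.log (wt (nmf v) (act F) l (p i)) := by
    intro v
    have h1 : v W.det ≤ ∏ i, wt (nmf v) (act F) l (p i) := by
      apply det_rows_le v _ _ (fun k => (hwtposf v k).le)
      intro i j
      exact abs_le_wt (v.1.toMonoidWithZeroHom) (fun x => v.1.nonneg x)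
        (fun x j => le_nmf v x j) (fun x => nmf_nonneg v x) l (hΦ j) (p i)
    have h2 : 0 < v W.det := FinitePlace.pos_iff.mpr hdet
    have h3 := Real.log_le_log h2 h1
    rwa [Real.log_prod (fun k _ => (hwtposf v k).ne')] at h3
  have hfinT : ∀ v ∈ T, Real.log (v W.det) ≤
      ∑ i, Real.log (wt (nmf v) (act F) l (p i)) - g v := by
    intro v hv
    obtain ⟨ρ, hR⟩ := hT v hv
    have h1 := hgain v hv l Φ hΦ
    rw [← hW] at h1
    have h2 : 0 < v W.det := FinitePlace.pos_iff.mpr hdet
    have h3 := Real.log_le_log h2 h1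
    have h4 : ∏ i, nmf v (p i) ^ ldeg q l = ∏ i, wt (nmf v) (act F) l (p i) :=
      Finset.prod_congr rfl fun i _ => (hR.wt_eq hF l (hp i)).symm
    rw [h4, Real.log_mul (Finset.prod_pos fun i _ => hwtposf v i).ne'
      (Real.exp_pos _).ne', Real.log_prod (fun k _ => (hwtposf v k).ne'), Real.log_exp] at h3
    linarith
  have hgs1 : HasGS (fun w => ∑ i, Real.log (wt (nmi w) (act F) l (p i)))
      (fun v => ∑ i, Real.log (wt (nmf v) (act F) l (p i))) (∑ i, HL F l (p i)) :=
    HasGS.sum Finset.univ fun k _ => HasGS.wt l (hiter k)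
  have hmain := HasGS_le_gain (HasGS.prod hdet) hgs1
    (c := Real.log (Fintype.card ι).factorial) hinf T g (fun v _ => hfin v) hfinT
  have h1 : ∑ v ∈ T, g v ≤ ∑ i, HL F l (p i) + finrank ℚ M * Real.log r.factorial := by
    linarith
  refine h1.trans ?_
  have hD := finrank_pos' (L := M)
  have hr' : (1 : ℝ) ≤ r := by exact_mod_cast hι
  have hHL : ∀ i, HL F l (p i) ≤ finrank ℚ M * (m * H +
      hC A a * ((c + q : ℕ) * (1 + Nat.log 2 m : ℕ))) := by
    intro i
    refine (hB.HL_le hq l (hp i)).trans ?_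
    rw [hl1]
    have h2 : (l.sum : ℝ) ≤ (c + q : ℕ) * (1 + Nat.log 2 m : ℕ) := by
      have h3 : l.sum ≤ l.length * (c + q) := by
        have := List.sum_le_card_nsmul l (c + q) hl3
        simpa using this
      have h4 : l.length * (c + q) ≤ (c + q) * (1 + Nat.log 2 m) := by
        rw [mul_comm]
        exact Nat.mul_le_mul_left _ hl4
      exact_mod_cast h3.trans h4
    have h3 : (m : ℝ) * canH F q (p i) ≤ m * H :=
      mul_le_mul_of_nonneg_left (hH i) (Nat.cast_nonneg _)
    have h4 : hC A a * l.sum ≤ hC A a * ((c + q : ℕ) * (1 + Nat.log 2 m : ℕ)) :=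
      mul_le_mul_of_nonneg_left h2 hB.hC_nonneg
    exact mul_le_mul_of_nonneg_left (by linarith) hD.le
  have hsum : ∑ i, HL F l (p i) ≤ r * (finrank ℚ M * (m * H +
      hC A a * ((c + q : ℕ) * (1 + Nat.log 2 m : ℕ)))) := by
    have h7 := Finset.sum_le_sum (fun k (_ : k ∈ (Finset.univ : Finset ι)) => hHL k)
    rwa [Finset.sum_const, Finset.card_univ, nsmul_eq_mul] at h7
  have hfac : Real.log r.factorial ≤ r * Real.log r := by
    have h2 : (r.factorial : ℝ) ≤ (r : ℝ) ^ r := by exact_mod_cast Nat.factorial_le_pow r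
    have h3 := Real.log_le_log (by exact_mod_cast Nat.factorial_pos r) h2
    rwa [Real.log_pow] at h3
  have h5 := mul_le_mul_of_nonneg_left hfac hD.le
  calc ∑ i, HL F l (p i) + finrank ℚ M * Real.log r.factorial ≤
      r * (finrank ℚ M * (m * H + hC A a * ((c + q : ℕ) * (1 + Nat.log 2 m : ℕ)))) +
        finrank ℚ M * (r * Real.log r) := by linarith
    _ = _ := by ring

end Global

end

end Pool.Agent.NH29.QL
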