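import Mathlib

/-!
Finite sets with a group action: orbits of subgroups, images under equivariant maps, medians.
-/

set_option autoImplicit false
set_option linter.unusedSectionVars false

namespace Pool.Agent.NH29.QL

noncomputable section

open Classical in
/-- a median of a function -/
lemma exists_median {X : Type} [Fintype X] [Nonempty X] (f : X → ℕ) :
    ∃ E : ℕ, (∃ x, f x = E) ∧
      Fintype.card X ≤ 2 * (Finset.univ.filter fun x => f x ≤ E).card ∧
      Fintype.card X ≤ 2 * (Finset.univ.filter fun x => E ≤ f x).card := by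
  have hex : ∃ E : ℕ, Fintype.card X ≤ 2 * (Finset.univ.filter fun x => f x ≤ E).card := by
    refine ⟨Finset.univ.sup f, ?_⟩
    have h1 : (Finset.univ.filter fun x => f x ≤ Finset.univ.sup f) = Finset.univ := by
      ext x
      simp [Finset.le_sup (f := f) (Finset.mem_univ x)]
    rw [h1, Finset.card_univ]
    omega
  set E := Nat.find hex with hE
  have h1 : Fintype.card X ≤ 2 * (Finset.univ.filter fun x => f x ≤ E).card := Nat.find_spec hex
  have h2 : Fintype.card X ≤ 2 * (Finset.univ.filter fun x => E ≤ f x).card := by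
    rcases Nat.eq_zero_or_pos E with h0 | h0
    · have h3 : (Finset.univ.filter fun x => E ≤ f x) = Finset.univ := by
        ext x
        simp [h0]
      rw [h3, Finset.card_univ]
      omega
    · have h3 := Nat.find_min hex (m := E - 1) (by omega)
      push Not at h3
      have h4 : (Finset.univ.filter fun x => E ≤ f x) =
          (Finset.univ.filter fun x => f x ≤ E - 1)ᶜ := by
        ext x
        simp only [Finset.mem_filter, Finset.mem_univ, true_and, Finset.mem_compl]
        omega
      rw [h4, Finset.card_compl]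
      omega
  refine ⟨E, ?_, h1, h2⟩
  by_contra hcon
  push Not at hcon
  have hX : 0 < Fintype.card X := Fintype.card_pos
  rcases Nat.eq_zero_or_pos E with h0 | h0
  · have h3 : (Finset.univ.filter fun x => f x ≤ E) = ∅ := by
      ext x
      have := hcon x
      simp only [Finset.mem_filter, Finset.mem_univ, true_and, Finset.notMem_empty, iff_false]
      omega
    rw [h3, Finset.card_empty] at h1
    omega
  · refine Nat.find_min hex (m := E - 1) (by omega) ?_
    have h3 : (Finset.univ.filter fun x => f x ≤ E - 1) =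
        (Finset.univ.filter fun x => f x ≤ E) := by
      ext x
      have := hcon x
      simp only [Finset.mem_filter, Finset.mem_univ, true_and]
      omega
    rw [h3]
    exact h1

section GSet

variable {G : Type} [Group G] [Finite G] {X Y : Type} [Fintype X] [Fintype Y] [MulAction G X]
  [MulAction G Y]

open Classical in
/-- the orbit of `x` under a subgroup -/
def oI (I : Subgroup G) (x : X) : Finset X := Finset.univ.filter fun y => ∃ h ∈ I, h • x = y

lemma mem_oI {I : Subgroup G} {x y : X} : y ∈ oI I x ↔ ∃ h ∈ I, h • x = y := by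
  unfold oI
  simp

lemma self_mem_oI (I : Subgroup G) (x : X) : x ∈ oI I x :=
  mem_oI.mpr ⟨1, I.one_mem, one_smul _ _⟩

lemma oI_pos (I : Subgroup G) (x : X) : 0 < (oI I x).card :=
  Finset.card_pos.mpr ⟨x, self_mem_oI I x⟩

lemma oI_eq {I : Subgroup G} {x y : X} (h : y ∈ oI I x) : oI I y = oI I x := by
  obtain ⟨g, hg, rfl⟩ := mem_oI.mp h
  ext z
  rw [mem_oI, mem_oI]
  constructor
  · rintro ⟨k, hk, rfl⟩
    exact ⟨k * g, I.mul_mem hk hg, by rw [mul_smul]⟩
  · rintro ⟨k, hk, rfl⟩
    exact ⟨k * g⁻¹, I.mul_mem hk (I.inv_mem hg), by rw [mul_smul, inv_smul_smul]⟩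

/-- the stabiliser in a subgroup -/
def sI (I : Subgroup G) (x : X) : Subgroup G := I ⊓ MulAction.stabilizer G x

lemma card_oI (I : Subgroup G) (x : X) :
    Nat.card I = (oI I x).card * Nat.card (sI I x) := by
  classical
  have h1 := Nat.card_congr (MulAction.orbitProdStabilizerEquivGroup I x)
  rw [Nat.card_prod] at h1
  rw [← h1]
  congr 1
  · rw [Nat.card_coe_set_eq, ← Set.ncard_coe_finset]
    congr 1
    ext y
    rw [Finset.mem_coe, mem_oI, MulAction.mem_orbit_iff]
    constructor
    · rintro ⟨h, rfl⟩
      exact ⟨h, h.2, rfl⟩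
    · rintro ⟨h, hh, rfl⟩
      exact ⟨⟨h, hh⟩, rfl⟩
  · refine Nat.card_congr ⟨fun h => ⟨h.1.1, h.1.2, ?_⟩, fun h => ⟨⟨h.1, h.2.1⟩, ?_⟩, ?_, ?_⟩
    · exact MulAction.mem_stabilizer_iff.mp h.2
    · exact MulAction.mem_stabilizer_iff.mp h.2.2
    · intro h
      rfl
    · intro h
      rfl

/-- conjugation -/
lemma card_oI_conj {I J : Subgroup G} {g : G} (h : ∀ k, k ∈ J ↔ g⁻¹ * k * g ∈ I) (x : X) :
    (oI J (g • x)).card = (oI I x).card := by
  classical
  have h1 : oI J (g • x) = (oI I x).image fun y => g • y := by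
    ext z
    rw [mem_oI, Finset.mem_image]
    constructor
    · rintro ⟨k, hk, rfl⟩
      refine ⟨(g⁻¹ * k * g) • x, mem_oI.mpr ⟨_, (h k).mp hk, rfl⟩, ?_⟩
      rw [← mul_smul, ← mul_smul]
      congr 1
      group
    · rintro ⟨y, hy, rfl⟩
      obtain ⟨k, hk, rfl⟩ := mem_oI.mp hy
      refine ⟨g * k * g⁻¹, (h _).mpr ?_, ?_⟩
      · have : g⁻¹ * (g * k * g⁻¹) * g = k := by group
        rw [this]
        exact hk
      · rw [← mul_smul, ← mul_smul]
        congr 1
        group
  rw [h1, Finset.card_image_of_injective _ (MulAction.injective g)]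

variable [MulAction.IsPretransitive G Y] (π : X → Y)

/-- all fibres have the same size -/
lemma card_fibre [DecidableEq Y] (hπ : ∀ (g : G) (x : X), π (g • x) = g • π x) (y y' : Y) :
    (Finset.univ.filter fun x => π x = y).card = (Finset.univ.filter fun x => π x = y').card := by
  have key : ∀ y y' : Y, (Finset.univ.filter fun x => π x = y).card ≤
      (Finset.univ.filter fun x => π x = y').card := by
    intro y y'
    obtain ⟨g, hg⟩ := MulAction.exists_smul_eq G y y'
    refine Finset.card_le_card_of_injOn (fun x => g • x) ?_ ((MulAction.injective g).injOn)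
    intro x hx
    rw [Finset.mem_coe, Finset.mem_filter] at hx ⊢
    exact ⟨Finset.mem_univ _, by rw [hπ, hx.2, hg]⟩
  exact le_antisymm (key y y') (key y' y)

/-- the image of a set is not too small -/
lemma card_image_ge [DecidableEq Y] (hπ : ∀ (g : G) (x : X), π (g • x) = g • π x)
    (A : Finset X) : A.card * Fintype.card Y ≤ (A.image π).card * Fintype.card X := by
  rcases isEmpty_or_nonempty Y with hY | ⟨⟨y₀⟩⟩
  · have : Fintype.card Y = 0 := Fintype.card_eq_zero
    rw [this, mul_zero]
    exact Nat.zero_le _
  set f := (Finset.univ.filter fun x => π x = y₀).card with hf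
  have h1 : Fintype.card X = f * Fintype.card Y := by
    rw [← Finset.card_univ, Finset.card_eq_sum_card_fiberwise (f := π) (t := Finset.univ)
      (fun _ _ => Finset.mem_coe.mpr (Finset.mem_univ _)),
      Finset.sum_congr rfl fun y _ => card_fibre π hπ y y₀, Finset.sum_const, Finset.card_univ,
      smul_eq_mul, mul_comm]
  have h2 : A.card ≤ f * (A.image π).card := by
    refine Finset.card_le_mul_card_image _ _ fun b _ => ?_
    rw [hf, ← card_fibre π hπ b y₀]
    exact Finset.card_le_card (Finset.filter_subset_filter _ (Finset.subset_univ _))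
  calc A.card * Fintype.card Y ≤ (f * (A.image π).card) * Fintype.card Y :=
        Nat.mul_le_mul_right _ h2
    _ = (A.image π).card * Fintype.card X := by rw [h1]; ring

lemma card_oI_ge (hπ : ∀ (g : G) (x : X), π (g • x) = g • π x) (I : Subgroup G) (x : X) :
    (oI I x).card * Fintype.card Y ≤ (oI I (π x)).card * Fintype.card X := by
  classical
  have h1 : (oI I x).image π = oI I (π x) := by
    ext y
    rw [Finset.mem_image, mem_oI]
    constructor
    · rintro ⟨z, hz, rfl⟩
      obtain ⟨k, hk, rfl⟩ := mem_oI.mp hz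
      exact ⟨k, hk, (hπ _ _).symm⟩
    · rintro ⟨k, hk, rfl⟩
      exact ⟨k • x, mem_oI.mpr ⟨k, hk, rfl⟩, hπ _ _⟩
  rw [← h1]
  exact card_image_ge π hπ _

end GSet

end

end Pool.Agent.NH29.QL
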