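import Mathlib
import Pool.Agent.NH29.QL.Ga
import Pool.Agent.NH29.QL.Gs

/-!
The Galois action on the conjugates of the iterates, and closeness of conjugates under inertia and
Frobenius.
-/

set_option autoImplicit false
set_option linter.unusedSectionVars false

namespace Pool.Agent.NH29.QL

open NumberField Module MvPolynomial
open Pool.Agent.W238.Leh
open Pool.Agent.H627.LP
open Pool.Agent.H420R3 (mi nv TP ew lP lP_pos sum_ew gq TP_nonempty mem_TP)
open scoped Pointwise

noncomputable section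

variable {K : Type} [Field K] [NumberField K] {N : ℕ}
variable {F : Fin (N + 1) → MvPolynomial (Fin (N + 1)) K} {q : ℕ}
variable {M : Type} [Field M] [NumberField M] [Algebra K M]

lemma pt_mul (z : Fin (N + 1) → M) (n : ℕ) (σ σ' : Gal(M/K)) :
    pt F z n (σ * σ') = fun i => σ (pt F z n σ' i) := by
  unfold pt
  rw [← act_gal_iter]
  rfl

lemma ptS_mul {z : Fin (N + 1) → M} {n : ℕ} (g : Gal(M/K)) {σ σ' : Gal(M/K)}
    (h : (ptS F z n) σ σ') : (ptS F z n) (g * σ) (g * σ') := by
  obtain ⟨c, hc, h⟩ := h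
  refine ⟨g c, (map_ne_zero g).mpr hc, ?_⟩
  rw [pt_mul, pt_mul, h]
  funext i
  simp only [Pi.smul_apply, smul_eq_mul, map_mul]

instance actQ (z : Fin (N + 1) → M) (n : ℕ) : MulAction Gal(M/K) (QQ F z n) where
  smul g := Quotient.map (fun σ => g * σ) fun _ _ h => ptS_mul g h
  one_smul y := by
    induction y using Quotient.inductionOn with
    | _ σ => exact congrArg _ (one_mul σ)
  mul_smul g g' y := by
    induction y using Quotient.inductionOn with
    | _ σ => exact congrArg _ (mul_assoc g g' σ)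

/-- the class of an automorphism -/
def cls (F : Fin (N + 1) → MvPolynomial (Fin (N + 1)) K) (z : Fin (N + 1) → M) (n : ℕ)
    (σ : Gal(M/K)) : QQ F z n := Quotient.mk (ptS F z n) σ

lemma smul_cls (z : Fin (N + 1) → M) (n : ℕ) (g σ : Gal(M/K)) :
    g • cls F z n σ = cls F z n (g * σ) := rfl

lemma exists_cls (z : Fin (N + 1) → M) (n : ℕ) (y : QQ F z n) : ∃ σ, y = cls F z n σ := by
  induction y using Quotient.inductionOn with
  | _ σ => exact ⟨σ, rfl⟩

lemma cls_eq {z : Fin (N + 1) → M} {n : ℕ} {σ σ' : Gal(M/K)} :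
    cls F z n σ = cls F z n σ' ↔ ∃ c : M, c ≠ 0 ∧ pt F z n σ = c • pt F z n σ' :=
  Quotient.eq (r := ptS F z n)

instance transQ (z : Fin (N + 1) → M) (n : ℕ) :
    MulAction.IsPretransitive Gal(M/K) (QQ F z n) where
  exists_smul_eq x y := by
    obtain ⟨σ, rfl⟩ := exists_cls z n x
    obtain ⟨σ', rfl⟩ := exists_cls z n y
    refine ⟨σ' * σ⁻¹, ?_⟩
    rw [smul_cls, inv_mul_cancel_right]

instance (z : Fin (N + 1) → M) (n : ℕ) : Nonempty (QQ F z n) := ⟨cls F z n 1⟩

/-- the map from the conjugates of the point to those of the iterate -/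
def prj (hF : ∀ i, (F i).IsHomogeneous q) (z : Fin (N + 1) → M) (n : ℕ) :
    QQ F z 0 → QQ F z n :=
  Quotient.map (sa := ptS F z 0) (sb := ptS F z n) id (by
    rintro σ σ' ⟨c, hc, h⟩
    refine ⟨c ^ q ^ n, pow_ne_zero _ hc, ?_⟩
    have h1 : (fun i => σ (z i)) = c • fun i => σ' (z i) := h
    simp only [id_eq, pt]
    rw [h1, act_iter_smul hF])

lemma prj_cls (hF : ∀ i, (F i).IsHomogeneous q) (z : Fin (N + 1) → M) (n : ℕ) (σ : Gal(M/K)) :
    prj hF z n (cls F z 0 σ) = cls F z n σ := rfl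

lemma prj_smul (hF : ∀ i, (F i).IsHomogeneous q) (z : Fin (N + 1) → M) (n : ℕ) (g : Gal(M/K))
    (y : QQ F z 0) : prj hF z n (g • y) = g • prj hF z n y := by
  obtain ⟨σ, rfl⟩ := exists_cls z 0 y
  rfl

/-- the vector of a normalised point is fixed by its stabiliser -/
lemma fix_of_cls {z : Fin (N + 1) → M} {i₀ : Fin (N + 1)} (hz : z i₀ = 1) {h σ : Gal(M/K)}
    (hh : h • cls F z 0 σ = cls F z 0 σ) (i : Fin (N + 1)) : h (σ (z i)) = σ (z i) := by
  rw [smul_cls, cls_eq] at hh
  obtain ⟨c, _, hc⟩ := hh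
  have h1 : ∀ i, h (σ (z i)) = c * σ (z i) := fun i => congrFun hc i
  have h2 := h1 i₀
  rw [hz, map_one, map_one, mul_one] at h2
  rw [h1 i, ← h2, one_mul]

variable [IsGalois K M] {P : Ideal (𝓞 K)} [hP : P.IsMaximal]

variable (K) in
/-- the inertia group -/
abbrev inr (v : FinitePlace M) : Subgroup Gal(M/K) := (mi v).inertia Gal(M/K)

lemma inr_frob {v : FinitePlace M} {h : Gal(M/K)} (hh : h ∈ inr K v) : FrobAt v h (q ^ 0) := by
  have h1 : ∀ x : 𝓞 M, h • x - x ∈ mi v := fun x => AddSubgroup.mem_inertia.mp hh x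
  refine ⟨?_, fun x => by rw [pow_zero, pow_one]; exact h1 x⟩
  have hmax : (mi v).IsMaximal := inferInstance
  have h2 : mi v ≤ h⁻¹ • mi v := by
    intro a ha
    rw [Ideal.mem_inv_pointwise_smul_iff]
    have h3 := (mi v).add_mem (h1 a) ha
    rwa [sub_add_cancel] at h3
  have h4 : (h⁻¹ • mi v).IsPrime := inferInstance
  have h3 := hmax.eq_of_le h4.ne_top h2
  conv_lhs => rw [h3]
  rw [smul_inv_smul]

/-- **closeness of the conjugates** -/
theorem near_gen (hP0 : P ≠ ⊥) {v : FinitePlace M} (hv : v ∈ TP M P) (h : GoodN P F q)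
    {z : Fin (N + 1) → M} {i₀ : Fin (N + 1)} (hz : z i₀ = 1) {d : ℕ} {τ : Gal(M/K)}
    (hfr : FrobAt v τ (q ^ d)) (σ : Gal(M/K)) {e : ℕ}
    (he : (oI (inr K v) (cls F z 0 σ)).card ≤ e) (n : ℕ) :
    Near v (Real.exp (-(ew K v * (gq q)^[n] (1 / (e : ℝ))))) (pt F z (n + d) σ)
      (pt F z n (τ * σ)) := by
  have hR := h.red_at hP0 hv
  have hz0 : (fun i => σ (z i)) ≠ 0 := by
    intro h0
    have := congrFun h0 i₀
    simp only [hz, map_one, Pi.zero_apply, one_ne_zero] at this
  set H := sI (inr K v) (cls F z 0 σ) with hH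
  have hH1 : H ≤ inr K v := inf_le_left
  have hH2 : ∀ g ∈ H, ∀ i, g (σ (z i)) = σ (z i) := fun g hg i =>
    fix_of_cls hz (MulAction.mem_stabilizer_iff.mp hg.2) i
  have hH3 : Nat.card (inr K v) ≤ e * Nat.card H := by
    rw [card_oI (inr K v) (cls F z 0 σ)]
    exact Nat.mul_le_mul_right _ he
  obtain ⟨c₁, c₂, hcl⟩ := init_near hP0 hv h.hom hR hfr hH1 hz0 hH2 hH3
  have h1 := hR.iter (by positivity) hcl n
  rw [act_iter_smul h.hom, act_iter_smul h.hom] at h1
  have h2 : (act F)^[n] ((act F)^[d] fun i => σ (z i)) = pt F z (n + d) σ := by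
    unfold pt
    rw [← Function.iterate_add_apply]
  rw [h2] at h1
  exact h1.near

/-- the sizes of the orbits of the inertia groups of different places -/
lemma exists_conj_place (hP0 : P ≠ ⊥) {v w : FinitePlace M} (hv : v ∈ TP M P)
    (hw : w ∈ TP M P) : ∃ g : Gal(M/K), ∀ k, k ∈ inr K w ↔ g⁻¹ * k * g ∈ inr K v := by
  have hlo := H420R3.liesOver_of_mem hP0 hv
  have hlo' := H420R3.liesOver_of_mem hP0 hw
  obtain ⟨g, hg⟩ := Ideal.exists_smul_eq_of_isGaloisGroup P (mi v) (mi w) Gal(M/K)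
  refine ⟨g, fun k => ?_⟩
  have h0 : g⁻¹ • mi w = mi v := by rw [← hg, inv_smul_smul]
  constructor
  · intro hk
    rw [AddSubgroup.mem_inertia]
    intro x
    have h1 := AddSubgroup.mem_inertia.mp hk (g • x)
    have h2 : g⁻¹ • (k • g • x - g • x) ∈ g⁻¹ • mi w :=
      Ideal.smul_mem_pointwise_smul_iff.mpr h1
    rw [h0, smul_sub, inv_smul_smul] at h2
    have h4 : (g⁻¹ * k * g) • x = g⁻¹ • k • g • x := by
      rw [mul_smul, mul_smul]
    change (g⁻¹ * k * g) • x - x ∈ mi v
    rw [h4]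
    exact h2
  · intro hk
    rw [AddSubgroup.mem_inertia]
    intro x
    have h1 := AddSubgroup.mem_inertia.mp hk (g⁻¹ • x)
    have h2 : g • ((g⁻¹ * k * g) • g⁻¹ • x - g⁻¹ • x) ∈ g • mi v :=
      Ideal.smul_mem_pointwise_smul_iff.mpr h1
    rw [hg, smul_sub, smul_inv_smul] at h2
    have h4 : g • (g⁻¹ * k * g) • g⁻¹ • x = k • x := by
      rw [← mul_smul, ← mul_smul]
      congr 1
      group
    rw [h4] at h2
    exact h2

open Classical in
/-- the distribution of the orbit sizes does not depend on the place -/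
lemma card_filter_place (hP0 : P ≠ ⊥) {v w : FinitePlace M} (hv : v ∈ TP M P)
    (hw : w ∈ TP M P) {X : Type} [Fintype X] [MulAction Gal(M/K) X] (p : ℕ → Prop) :
    (Finset.univ.filter fun y : X => p (oI (inr K w) y).card).card =
      (Finset.univ.filter fun y : X => p (oI (inr K v) y).card).card := by
  obtain ⟨g, hg⟩ := exists_conj_place (K := K) hP0 hv hw
  have h1 : (Finset.univ.filter fun y : X => p (oI (inr K w) y).card) =
      (Finset.univ.filter fun y : X => p (oI (inr K v) y).card).image fun y => g • y := by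
    ext y
    rw [Finset.mem_image]
    constructor
    · intro hy
      refine ⟨g⁻¹ • y, ?_, smul_inv_smul g y⟩
      rw [Finset.mem_filter] at hy ⊢
      refine ⟨Finset.mem_univ _, ?_⟩
      have := card_oI_conj hg (g⁻¹ • y)
      rw [smul_inv_smul] at this
      rw [← this]
      exact hy.2
    · rintro ⟨x, hx, rfl⟩
      rw [Finset.mem_filter] at hx ⊢
      refine ⟨Finset.mem_univ _, ?_⟩
      rw [card_oI_conj hg x]
      exact hx.2
  rw [h1, Finset.card_image_of_injective _ (MulAction.injective g)]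

end

end Pool.Agent.NH29.QL
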