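import Mathlib
import Pool.Agent.NH29.QL.Ob

/-!
Inequality A: one level, clusters are the orbits of the inertia groups.
-/

set_option autoImplicit false
set_option linter.unusedSectionVars false

namespace Pool.Agent.NH29.QL

open NumberField Module MvPolynomial
open Pool.Agent.W238.Leh
open Pool.Agent.H627.LP
open Pool.Agent.H420R3 (mi nv TP ew lP lP_pos sum_ew gq TP_nonempty mem_TP)
open scoped Pointwise

noncomputable section

variable {K : Type} [Field K] [NumberField K] {N : ℕ}
variable {F : Fin (N + 1) → MvPolynomial (Fin (N + 1)) K} {q : ℕ}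
variable {M : Type} [Field M] [NumberField M] [Algebra K M] [IsGalois K M]
variable {P : Ideal (𝓞 K)} [hP : P.IsMaximal]

lemma pt_ne_zero {A : ℝ} {a : ℕ} (hB : Bds F q A a) {z : Fin (N + 1) → M} {i₀ : Fin (N + 1)}
    (hz : z i₀ = 1) (n : ℕ) (σ : Gal(M/K)) : pt F z n σ ≠ 0 := by
  apply hB.iter_ne_zero
  intro h0
  have := congrFun h0 i₀
  simp only [hz, map_one, Pi.zero_apply, one_ne_zero] at this

lemma near_cls {v : FinitePlace M} {z : Fin (N + 1) → M} {n n' : ℕ} {σ σ' τ τ' : Gal(M/K)}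
    {η : ℝ} (h : Near v η (pt F z n σ) (pt F z n' σ')) (h1 : cls F z n τ = cls F z n σ)
    (h2 : cls F z n' τ' = cls F z n' σ') : Near v η (pt F z n τ) (pt F z n' τ') := by
  obtain ⟨c, _, hc⟩ := cls_eq.mp h1
  obtain ⟨d, _, hd⟩ := cls_eq.mp h2
  rw [hc, hd]
  exact ((h.smul_right d).symm.smul_right c).symm

lemma cls_out (z : Fin (N + 1) → M) (n : ℕ) (y : QQ F z n) : cls F z n y.out = y :=
  Quotient.out_eq y

lemma sum_ew_eq (hP0 : P ≠ ⊥) : ∑ v ∈ TP M P, ew K v = finrank ℚ M * lP P := by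
  have hDM := finrank_pos' (L := M)
  have hDK := finrank_pos' (L := K)
  rw [sum_ew hP0]
  have hdeg : (finrank ℚ M : ℝ) = finrank ℚ K * finrank K M := by
    exact_mod_cast (finrank_mul_finrank ℚ K M).symm
  unfold lP
  rw [hdeg]
  field_simp

/-- the local gain at one level -/
theorem gainA (h : GoodN P F q) (hP0 : P ≠ ⊥) {A : ℝ} {a : ℕ} (hB : Bds F q A a)
    {z : Fin (N + 1) → M} {i₀ : Fin (N + 1)} (hz : z i₀ = 1) (n : ℕ) {E m : ℕ}
    {v : FinitePlace M} (hv : v ∈ TP M P)
    (hE : Fintype.card (QQ F z 0) ≤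
      2 * (Finset.univ.filter fun y : QQ F z 0 => E ≤ (oI (inr K v) y).card).card)
    (hgr : ∀ s, 1 ≤ s → finrank M (EL K (fun y : QQ F z n => pt F z n y.out) s) * m ≤
      8 * s * Fintype.card (QQ F z n))
    (hmD : m ≤ Fintype.card (QQ F z n))
    (h16 : 16 * Fintype.card (QQ F z 0) ≤ min (q ^ n) E * m) (l : List ℕ)
    (Φ : QQ F z n → MvPolynomial (Fin (N + 1)) K) (hΦ : ∀ j, Φ j ∈ GG F l) [DecidableEq (QQ F z n)] :
    v (Matrix.of fun (y : QQ F z n) j => aeval (pt F z n y.out) (Φ j)).det ≤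
      (∏ y : QQ F z n, nmf v (pt F z n y.out) ^ ldeg q l) *
      Real.exp (-(ew K v * ((min (q ^ n) E * m : ℕ) / (32 * Fintype.card (QQ F z 0))) *
        (Fintype.card (QQ F z n) / 4))) := by
  classical
  have hR := h.red_at hP0 hv
  have hq : 2 ≤ q := hR.two_le
  have hew := H420R3.ew_pos (K := K) v
  set I := inr K v with hI
  set D := Fintype.card (QQ F z n) with hD
  set D₀ := Fintype.card (QQ F z 0) with hD₀
  set μ := min (q ^ n) E with hμ
  have hD1 : 1 ≤ D := Fintype.card_pos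
  have hD₀1 : 1 ≤ D₀ := Fintype.card_pos
  have hm1 : 1 ≤ m := by
    rcases Nat.eq_zero_or_pos m with h0 | h0
    · rw [h0, mul_zero] at h16
      omega
    · exact h0
  set A0 := Finset.univ.filter fun y : QQ F z 0 => E ≤ (oI I y).card with hA0
  set good : Finset (QQ F z n) := A0.image (prj h.hom z n) with hgood
  have hstab : ∀ y ∈ good, ∀ k ∈ I, k • y ∈ good := by
    intro y hy k hk
    obtain ⟨x, hx, rfl⟩ := Finset.mem_image.mp hy
    rw [← prj_smul]
    apply Finset.mem_image_of_mem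
    rw [hA0, Finset.mem_filter] at hx ⊢
    refine ⟨Finset.mem_univ _, ?_⟩
    rw [oI_eq (mem_oI.mpr ⟨k, hk, rfl⟩)]
    exact hx.2
  -- the lift
  have hlift : ∀ b : QQ F z n, ∃ x : QQ F z 0, prj h.hom z n x = b ∧ (b ∈ good → x ∈ A0) := by
    intro b
    by_cases hb : b ∈ good
    · obtain ⟨x, hx, hxb⟩ := Finset.mem_image.mp hb
      exact ⟨x, hxb, fun _ => hx⟩
    · obtain ⟨σ, rfl⟩ := exists_cls z n b
      exact ⟨cls F z 0 σ, rfl, fun h => absurd h hb⟩
  choose y₀ hy₀ hy₀A using hlift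
  -- the centres
  set rep : Finset (QQ F z n) → QQ F z n := fun O =>
    if hO : O.Nonempty then hO.choose else cls F z n 1 with hrep
  have hrepm : ∀ y, rep (oI I y) ∈ oI I y := by
    intro y
    have hO : (oI I y).Nonempty := ⟨y, self_mem_oI I y⟩
    simp only [hrep, dif_pos hO]
    exact hO.choose_spec
  set c : QQ F z n → QQ F z n := fun y => rep (oI I y) with hc
  have hcI : ∀ y, oI I (c y) = oI I y := fun y => oI_eq (hrepm y)
  have hcc : ∀ y, c (c y) = c y := fun y => by
    change rep (oI I (c y)) = rep (oI I y)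
    rw [hcI]
  have hcgood : ∀ y ∈ good, c y ∈ good := by
    intro y hy
    obtain ⟨k, hk, hk'⟩ := mem_oI.mp (hrepm y)
    change rep (oI I y) ∈ good
    rw [← hk']
    exact hstab y hy k hk
  -- sizes
  set e : QQ F z n → ℕ := fun b => (oI I (y₀ b)).card with he
  have he1 : ∀ b, 1 ≤ e b := fun b => oI_pos I _
  have heE : ∀ b ∈ good, E ≤ e b := fun b hb => (Finset.mem_filter.mp (hy₀A b hb)).2
  have hsize : ∀ b, e b * D ≤ (oI I b).card * D₀ := by
    intro b
    have := card_oI_ge (prj h.hom z n) (prj_smul h.hom z n) I (y₀ b)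
    rwa [hy₀ b] at this
  set s : QQ F z n → ℕ := fun b => (oI I b).card * m / (16 * D) with hs
  have h16D : 0 < 16 * D := by omega
  have hs0 : ∀ b ∈ good, 16 * D ≤ (oI I b).card * m := by
    intro b hb
    have h1 := hsize b
    have h2 := heE b hb
    have h3 : 16 * D * D₀ ≤ (oI I b).card * m * D₀ := by
      calc 16 * D * D₀ = (16 * D₀) * D := by ring
        _ ≤ (μ * m) * D := Nat.mul_le_mul_right _ h16
        _ ≤ (E * m) * D := Nat.mul_le_mul_right _ (Nat.mul_le_mul_right _ (min_le_right _ _))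
        _ ≤ (e b * m) * D := Nat.mul_le_mul_right _ (Nat.mul_le_mul_right _ h2)
        _ = (e b * D) * m := by ring
        _ ≤ ((oI I b).card * D₀) * m := Nat.mul_le_mul_right _ h1
        _ = _ := by ring
    exact Nat.le_of_mul_le_mul_right h3 hD₀1
  have hs1 : ∀ b ∈ good, 1 ≤ s b := by
    intro b hb
    rw [hs]
    exact (Nat.one_le_div_iff h16D).mpr (hs0 b hb)
  have hs2 : ∀ b ∈ good, (oI I b).card * m ≤ 32 * D * s b := by
    intro b hb
    have h1 := Nat.lt_div_mul_add (a := (oI I b).card * m) h16D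
    have h2 := hs1 b hb
    have h3 : (oI I b).card * m / (16 * D) = s b := rfl
    rw [h3] at h1
    have h4 : 16 * D ≤ s b * (16 * D) := Nat.le_mul_of_pos_left _ h2
    have h5 : 32 * D * s b = s b * (16 * D) + s b * (16 * D) := by ring
    omega
  have hs3 : ∀ b, 16 * D * s b ≤ (oI I b).card * m := fun b => Nat.mul_div_le _ _
  have hs4 : ∀ b ∈ good, e b * m ≤ 32 * D₀ * s b := by
    intro b hb
    have h1 := hsize b
    have h2 := hs2 b hb
    have h3 : e b * m * D ≤ 32 * D₀ * s b * D := by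
      calc e b * m * D = (e b * D) * m := by ring
        _ ≤ ((oI I b).card * D₀) * m := Nat.mul_le_mul_right _ h1
        _ = ((oI I b).card * m) * D₀ := by ring
        _ ≤ (32 * D * s b) * D₀ := Nat.mul_le_mul_right _ h2
        _ = _ := by ring
    exact Nat.le_of_mul_le_mul_right h3 hD1
  -- closeness
  set cl : QQ F z n → ℝ := fun b => (gq q)^[n] (1 / (e b : ℝ)) with hcl
  have hclmin : ∀ b, min ((q : ℝ) ^ n * (1 / (e b : ℝ))) 1 ≤ cl b := fun b =>
    H420R3.gq_iter_min hq (by positivity) n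
  have hq' : (2 : ℝ) ≤ q := by exact_mod_cast hq
  have he1' : ∀ b, (1 : ℝ) ≤ e b := fun b => by exact_mod_cast he1 b
  have hcl0 : ∀ b, 0 < cl b := by
    intro b
    refine lt_of_lt_of_le ?_ (hclmin b)
    have := he1' b
    refine lt_min (by positivity) one_pos
  set γ : ℝ := (μ * m : ℕ) / (32 * D₀) with hγ
  have hD₀' : (0 : ℝ) < D₀ := by exact_mod_cast hD₀1
  have hγ0 : 0 ≤ γ := by positivity
  have hclγ : ∀ b ∈ good, γ ≤ cl b * s b := by
    intro b hb
    have h1 : (e b : ℝ) * m ≤ 32 * D₀ * s b := by exact_mod_cast hs4 b hb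
    have h2 : (E : ℝ) ≤ e b := by exact_mod_cast heE b hb
    have h3 := he1' b
    have h4 : (μ : ℝ) ≤ cl b * e b := by
      refine le_trans ?_ (mul_le_mul_of_nonneg_right (hclmin b) (by linarith))
      rw [min_mul_of_nonneg _ _ (by linarith : (0 : ℝ) ≤ e b)]
      refine le_min ?_ ?_
      · have h5 : (q : ℝ) ^ n * (1 / (e b : ℝ)) * e b = (q : ℝ) ^ n := by
          field_simp
        rw [h5]
        have h6 : μ ≤ q ^ n := min_le_left _ _
        exact_mod_cast h6
      · rw [one_mul]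
        refine le_trans ?_ h2
        have h6 : μ ≤ E := min_le_right _ _
        exact_mod_cast h6
    rw [hγ, div_le_iff₀ (by positivity)]
    push_cast
    calc (μ : ℝ) * m ≤ (cl b * e b) * m := mul_le_mul_of_nonneg_right h4 (Nat.cast_nonneg _)
      _ = cl b * (e b * m) := by ring
      _ ≤ cl b * (32 * D₀ * s b) := mul_le_mul_of_nonneg_left h1 (hcl0 b).le
      _ = _ := by ring
  set η : QQ F z n → ℝ := fun b => Real.exp (-(ew K v * cl b)) with hη
  have hη0 : ∀ b, 0 < η b := fun b => Real.exp_pos _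
  have hη1 : ∀ b, η b < 1 := by
    intro b
    rw [hη, Real.exp_lt_one_iff]
    have := mul_pos hew (hcl0 b)
    linarith
  have hnear : ∀ y ∈ good, Near v (η (c y)) (pt F z n y.out) (pt F z n (c y).out) := by
    intro y hy
    set b := c y with hb
    obtain ⟨σ, hσ⟩ := exists_cls z 0 (y₀ b)
    have hyb : y ∈ oI I b := by
      rw [hcI y]
      exact self_mem_oI I y
    obtain ⟨k, hk, hky⟩ := mem_oI.mp hyb
    have h1 := near_gen hP0 hv h hz (inr_frob hk) σ (e := e b)
      (by rw [← hσ]) n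
    have hbσ : b = cls F z n σ := by
      have := hy₀ b
      rw [hσ, prj_cls] at this
      exact this.symm
    have hyσ : y = cls F z n (k * σ) := by
      rw [← hky, hbσ, smul_cls]
    rw [add_zero] at h1
    refine near_cls h1.symm ?_ ?_
    · rw [cls_out]
      exact hyσ
    · rw [cls_out]
      exact hbσ
  set θ : ℝ := Real.exp (-(ew K v * γ)) with hθ
  have hθ1 : θ ≤ 1 := by
    rw [hθ, Real.exp_le_one_iff]
    have := mul_nonneg hew.le hγ0
    linarith
  have hηθ : ∀ y ∈ good, η (c y) ^ s (c y) ≤ θ := by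
    intro y hy
    have h1 := hclγ _ (hcgood y hy)
    rw [hη, hθ, ← Real.exp_nat_mul, Real.exp_le_exp]
    have h2 := mul_le_mul_of_nonneg_left h1 hew.le
    linarith
  -- ranks
  set R : QQ F z n → ℕ := fun b => (oI I b).card / 2 with hRdef
  have hfin : ∀ s', 1 ≤ s' → finrank M (EL K (fun y : QQ F z n => pt F z n y.out) (s' - 1)) * m ≤
      8 * s' * D := by
    intro s' hs'
    rcases Nat.eq_or_lt_of_le hs' with h1 | h1
    · rw [← h1]
      have h2 := finrank_EL_le (K := K) (fun y : QQ F z n => pt F z n y.out) 0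
      simp only [zero_add, one_pow] at h2
      calc finrank M (EL K (fun y : QQ F z n => pt F z n y.out) (1 - 1)) * m ≤ 1 * m :=
            Nat.mul_le_mul_right _ h2
        _ ≤ 8 * 1 * D := by omega
    · refine (hgr (s' - 1) (by omega)).trans ?_
      exact Nat.mul_le_mul_right _ (by omega)
  have hRk : ∀ b ∈ good.image c,
      finrank M (EL K (fun i : {i // i ∈ good ∧ c i = b} => pt F z n (i : QQ F z n).out)
        (s b - 1)) ≤ R b := by
    intro b hb
    obtain ⟨y, hy, rfl⟩ := Finset.mem_image.mp hb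
    have hbg := hcgood y hy
    set b := c y
    refine (finrank_EL_comp_le (fun y : QQ F z n => pt F z n y.out)
      (fun i : {i // i ∈ good ∧ c i = b} => (i : QQ F z n)) (s b - 1)).trans ?_
    have h1 := hfin (s b) (hs1 b hbg)
    have h2 := hs3 b
    set f := finrank M (EL K (fun y : QQ F z n => pt F z n y.out) (s b - 1))
    have h3 : 2 * f * m ≤ (oI I b).card * m := by
      calc 2 * f * m = 2 * (f * m) := by ring
        _ ≤ 2 * (8 * s b * D) := Nat.mul_le_mul_left _ h1
        _ = 16 * D * s b := by ring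
        _ ≤ _ := h2
    have h4 : 2 * f ≤ (oI I b).card := Nat.le_of_mul_le_mul_right h3 hm1
    exact (Nat.le_div_iff_mul_le (by norm_num)).mpr (by omega)
  have h1 := local_gain2 hR h.hom l Φ hΦ (fun y : QQ F z n => pt F z n y.out)
    (fun y => pt_ne_zero hB hz n _) good c η hη0 hη1 hnear s (Real.exp_pos _).le hθ1 hηθ R hRk
  refine h1.trans (mul_le_mul_of_nonneg_left ?_ (Finset.prod_nonneg fun i _ =>
    pow_nonneg (nmf_nonneg v _) _))
  -- the number of gains
  set X := Fintype.card (QQ F z n) - (goodᶜ.card + ∑ b ∈ good.image c, R b) with hX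
  have hsumR : 2 * ∑ b ∈ good.image c, R b ≤ good.card := by
    rw [Finset.mul_sum, Finset.card_eq_sum_card_image c good]
    refine Finset.sum_le_sum fun b hb => ?_
    obtain ⟨y, hy, rfl⟩ := Finset.mem_image.mp hb
    have hbg := hcgood y hy
    refine (Nat.mul_div_le _ 2).trans ?_
    apply Finset.card_le_card
    intro x hx
    rw [Finset.mem_filter]
    refine ⟨?_, ?_⟩
    · obtain ⟨k, hk, rfl⟩ := mem_oI.mp hx
      exact hstab _ hbg k hk
    · change rep (oI I x) = _
      rw [oI_eq hx]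
      exact hcc y
  have hgc : D ≤ 2 * good.card := by
    have h2 := card_image_ge (prj h.hom z n) (prj_smul h.hom z n) A0
    have h3 : D₀ * D ≤ (2 * good.card) * D₀ := by
      calc D₀ * D ≤ (2 * A0.card) * D := Nat.mul_le_mul_right _ hE
        _ = 2 * (A0.card * D) := by ring
        _ ≤ 2 * (good.card * D₀) := Nat.mul_le_mul_left _ h2
        _ = _ := by ring
    rw [mul_comm D₀ D] at h3
    exact Nat.le_of_mul_le_mul_right h3 hD₀1
  have hX4 : D ≤ 4 * X := by
    have h2 := Finset.card_compl good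
    have h3 : good.card ≤ Fintype.card (QQ F z n) := Finset.card_le_univ good
    omega
  have hX4' : (D : ℝ) / 4 ≤ X := by
    have : (D : ℝ) ≤ 4 * X := by exact_mod_cast hX4
    linarith
  rw [← Real.exp_nat_mul, Real.exp_le_exp]
  have h5 : 0 ≤ ew K v * γ := mul_nonneg hew.le hγ0
  have h6 := mul_le_mul_of_nonneg_left hX4' h5
  linarith

/-- **inequality A** -/
theorem caseA (h : GoodN P F q) (hP0 : P ≠ ⊥) {A : ℝ} {a c : ℕ} (hB : Bds F q A a)
    (hc : ∀ m, c + q ≤ m → ∀ p : MvPolynomial (Fin (N + 1)) K, p.IsHomogeneous m →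
      p ∈ Ideal.span (Set.range F))
    {z : Fin (N + 1) → M} {i₀ : Fin (N + 1)} (hz : z i₀ = 1) (n : ℕ) {E m : ℕ}
    (hE : ∀ v ∈ TP M P, Fintype.card (QQ F z 0) ≤
      2 * (Finset.univ.filter fun y : QQ F z 0 => E ≤ (oI (inr K v) y).card).card)
    (hm : Fintype.card (QQ F z n) ≤ finrank M (EL K (fun y : QQ F z n => pt F z n y.out) m))
    (hgr : ∀ s, 1 ≤ s → finrank M (EL K (fun y : QQ F z n => pt F z n y.out) s) * m ≤
      8 * s * Fintype.card (QQ F z n))
    (hmD : m ≤ Fintype.card (QQ F z n))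
    (h16 : 16 * Fintype.card (QQ F z 0) ≤ min (q ^ n) E * m) :
    lP P * (min (q ^ n) E * m : ℕ) / (128 * Fintype.card (QQ F z 0)) ≤
      m * ((q : ℝ) ^ n * canH F q z) +
        (hC A a * ((c + q : ℕ) * (1 + Nat.log 2 m : ℕ)) +
          Real.log (Fintype.card (QQ F z n))) := by
  classical
  obtain ⟨v₀, hv₀⟩ := TP_nonempty (M := M) (P := P) hP0
  have hq : 2 ≤ q := (h.red_at hP0 hv₀).two_le
  set D := Fintype.card (QQ F z n) with hD
  set D₀ := Fintype.card (QQ F z 0) with hD₀
  set μ := min (q ^ n) E with hμ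
  have hD1 : 1 ≤ D := Fintype.card_pos
  have hD₀1 : 1 ≤ D₀ := Fintype.card_pos
  have hzσ : ∀ σ : Gal(M/K), (fun i => σ (z i)) ≠ 0 := by
    intro σ h0
    have := congrFun h0 i₀
    simp only [hz, map_one, Pi.zero_apply, one_ne_zero] at this
  have hHp : ∀ y : QQ F z n, canH F q (pt F z n y.out) ≤ (q : ℝ) ^ n * canH F q z := by
    intro y
    change canH F q ((act F)^[n] fun i => y.out (z i)) ≤ _
    rw [hB.canH_iter hq (hzσ _), canH_gal]
  have hmain := det_ineq2 hB hq h.hom hc (fun y : QQ F z n => pt_ne_zero hB hz n y.out) hD1 hm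
    (TP M P) (fun v hv => ⟨_, h.red_at hP0 hv⟩)
    (fun v => ew K v * ((μ * m : ℕ) / (32 * D₀)) * (D / 4))
    (fun v hv l Φ hΦ => gainA h hP0 hB hz n hv (hE v hv) hgr hmD h16 l Φ hΦ) hHp
  rw [← Finset.sum_mul, ← Finset.sum_mul, sum_ew_eq hP0] at hmain
  have hDM := finrank_pos' (L := M)
  have hD' : (0 : ℝ) < D := by exact_mod_cast hD1
  have hD₀' : (0 : ℝ) < D₀ := by exact_mod_cast hD₀1
  have h1 : (finrank ℚ M : ℝ) * D * (lP P * (μ * m : ℕ) / (128 * D₀)) ≤
      (finrank ℚ M : ℝ) * D * (m * ((q : ℝ) ^ n * canH F q z) +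
        (hC A a * ((c + q : ℕ) * (1 + Nat.log 2 m : ℕ)) + Real.log D)) := by
    refine le_trans (le_of_eq ?_) (hmain.trans (le_of_eq ?_))
    · field_simp
      ring
    · ring
  exact le_of_mul_le_mul_left h1 (by positivity)

end

end Pool.Agent.NH29.QL
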