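import Mathlib
import Pool.Agent.NH29.QL.Ca

/-!
Inequality B: several consecutive levels, clusters from Frobenius.
-/

set_option autoImplicit false
set_option linter.unusedSectionVars false

namespace Pool.Agent.NH29.QL

open NumberField Module MvPolynomial
open Pool.Agent.W238.Leh
open Pool.Agent.H627.LP
open Pool.Agent.H420R3 (mi nv TP ew lP lP_pos sum_ew gq TP_nonempty mem_TP)
open scoped Pointwise

noncomputable section

variable {K : Type} [Field K] [NumberField K] {N : ℕ}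
variable {F : Fin (N + 1) → MvPolynomial (Fin (N + 1)) K} {q : ℕ}
variable {M : Type} [Field M] [NumberField M] [Algebra K M] 

/-- conjugates of consecutive iterates -/
abbrev IX (F : Fin (N + 1) → MvPolynomial (Fin (N + 1)) K) (z : Fin (N + 1) → M) (n₀ k : ℕ) :
    Type := Σ j : Fin k, QQ F z (n₀ + j)

/-- their coordinate vectors -/
def pp (F : Fin (N + 1) → MvPolynomial (Fin (N + 1)) K) (z : Fin (N + 1) → M) (n₀ k : ℕ)
    (i : IX F z n₀ k) : Fin (N + 1) → M := pt F z (n₀ + i.1) i.2.out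

variable [IsGalois K M] {P : Ideal (𝓞 K)} [hP : P.IsMaximal]

lemma card_top_le (h : GoodN P F q) (z : Fin (N + 1) → M) (n₀ : ℕ) {k : ℕ} (hk : 1 ≤ k) :
    k * Fintype.card (QQ F z (n₀ + (k - 1))) ≤ Fintype.card (IX F z n₀ k) := by
  have hrsum : Fintype.card (IX F z n₀ k) = ∑ j : Fin k, Fintype.card (QQ F z (n₀ + j)) :=
    Fintype.card_sigma
  rw [hrsum]
  calc k * Fintype.card (QQ F z (n₀ + (k - 1))) =
      ∑ _j : Fin k, Fintype.card (QQ F z (n₀ + (k - 1))) := by simp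
    _ ≤ _ := by
      refine Finset.sum_le_sum fun j _ => QQ_anti h.hom z ?_
      have := j.2
      omega

lemma conj_inr {v : FinitePlace M} {τ : Gal(M/K)} (hτ : τ • mi v = mi v) (g : Gal(M/K)) :
    g ∈ inr K v ↔ (τ⁻¹)⁻¹ * g * τ⁻¹ ∈ inr K v := by
  have hτ' : τ⁻¹ • mi v = mi v := by rw [inv_smul_eq_iff, hτ]
  constructor
  · intro hg
    exact inertia_conj hτ' hg
  · intro hg
    have := inertia_conj hτ hg
    have e : τ⁻¹ * ((τ⁻¹)⁻¹ * g * τ⁻¹) * τ = g := by group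
    rwa [e] at this

/-- the local gain at several levels -/
theorem gainB (h : GoodN P F q) (hP0 : P ≠ ⊥) {A : ℝ} {a : ℕ} (hB : Bds F q A a)
    {z : Fin (N + 1) → M} {i₀ : Fin (N + 1)} (hz : z i₀ = 1) {n₀ n' k s E : ℕ}
    (hE1 : 1 ≤ E) (hn₀ : n₀ = Nat.clog q E + n') (hk : 1 ≤ k) (hks : 4 * s ^ N ≤ k) (hs : 1 ≤ s)
    {v : FinitePlace M} (hv : v ∈ TP M P)
    (hE : Fintype.card (QQ F z 0) ≤
      2 * (Finset.univ.filter fun y : QQ F z 0 => (oI (inr K v) y).card ≤ E).card)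
    (l : List ℕ) (Φ : IX F z n₀ k → MvPolynomial (Fin (N + 1)) K) (hΦ : ∀ j, Φ j ∈ GG F l)
    [DecidableEq (IX F z n₀ k)] :
    v (Matrix.of fun (y : IX F z n₀ k) j => aeval (pp F z n₀ k y) (Φ j)).det ≤
      (∏ y : IX F z n₀ k, nmf v (pp F z n₀ k y) ^ ldeg q l) *
      Real.exp (-(ew K v * ((1 + (n' : ℝ)) * s) * (Fintype.card (IX F z n₀ k) / 4))) := by
  classical
  have hR := h.red_at hP0 hv
  have hq : 2 ≤ q := hR.two_le
  have hew := H420R3.ew_pos (K := K) v
  set I := inr K v with hI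
  set D₀ := Fintype.card (QQ F z 0) with hD₀
  have hD₀1 : 1 ≤ D₀ := Fintype.card_pos
  set A0 := Finset.univ.filter fun y : QQ F z 0 => (oI I y).card ≤ E with hA0
  set good : Finset (IX F z n₀ k) :=
    Finset.univ.sigma fun j : Fin k => A0.image (prj h.hom z (n₀ + j)) with hgood
  -- the lift
  have hlift : ∀ i : IX F z n₀ k, ∃ σ : Gal(M/K), cls F z (n₀ + i.1) σ = i.2 ∧
      (i ∈ good → cls F z 0 σ ∈ A0) := by
    rintro ⟨j, b⟩
    by_cases hb : (⟨j, b⟩ : IX F z n₀ k) ∈ good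
    · have hb' := (Finset.mem_sigma.mp hb).2
      obtain ⟨x, hx, hxb⟩ := Finset.mem_image.mp hb'
      obtain ⟨σ, rfl⟩ := exists_cls z 0 x
      exact ⟨σ, hxb, fun _ => hx⟩
    · obtain ⟨σ, hσ⟩ := exists_cls z (n₀ + j) b
      exact ⟨σ, hσ.symm, fun h => absurd h hb⟩
  choose σ hσ hσA using hlift
  obtain ⟨κ, hκ, hqκ⟩ := h.pow
  obtain ⟨τ, hτ1, hτ2⟩ := H420R3.exists_frob (K := K) hP0 hv κ
  rw [← hqκ] at hτ2
  have hfr : FrobAt v τ q := ⟨hτ1, hτ2⟩
  set σ' : IX F z n₀ k → Gal(M/K) := fun i => (τ ^ (k - 1 - (i.1 : ℕ)))⁻¹ * σ i with hσ'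
  set top : Gal(M/K) → IX F z n₀ k := fun σ =>
    ⟨⟨k - 1, by omega⟩, cls F z (n₀ + (k - 1)) σ⟩ with htop
  set c : IX F z n₀ k → IX F z n₀ k := fun i => top (σ' i) with hc
  set η : IX F z n₀ k → ℝ := fun _ => Real.exp (-(ew K v * (1 + (n' : ℝ)))) with hη
  have hn'0 : (0 : ℝ) < 1 + (n' : ℝ) := by positivity
  have hη0 : ∀ b, 0 < η b := fun b => Real.exp_pos _
  have hη1 : ∀ b, η b < 1 := by
    intro b
    rw [hη, Real.exp_lt_one_iff]
    have := mul_pos hew hn'0
    linarith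
  have hnear : ∀ y ∈ good, Near v (η (c y)) (pp F z n₀ k y) (pp F z n₀ k (c y)) := by
    intro y hy
    set d := k - 1 - (y.1 : ℕ) with hd
    have h0 := Finset.mem_filter.mp (hσA y hy)
    have hcard : (oI I (cls F z 0 (σ' y))).card ≤ E := by
      have h1 := card_oI_conj (conj_inr (K := K) (hfr.pow d).1) (cls F z 0 (σ y))
      rw [smul_cls] at h1
      exact h1.le.trans h0.2
    have h1 := near_gen hP0 hv h hz (hfr.pow d) (σ' y) hcard (n₀ + y.1)
    have hj := y.1.2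
    have h2 : n₀ + (y.1 : ℕ) + d = n₀ + (k - 1) := by omega
    have h3 : τ ^ d * σ' y = σ y := by
      rw [hσ', mul_inv_cancel_left]
    rw [h2, h3] at h1
    have h4 : Near v (η (c y)) (pt F z (n₀ + (k - 1)) (σ' y)) (pt F z (n₀ + y.1) (σ y)) := by
      refine h1.mono ?_
      rw [hη, Real.exp_le_exp, neg_le_neg_iff]
      have h5 := gq_mono hq hE1 n' y.1
      rw [← hn₀] at h5
      exact mul_le_mul_of_nonneg_left h5 hew.le
    refine near_cls h4.symm ?_ ?_
    · rw [cls_out]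
      exact (hσ y).symm
    · rw [cls_out]
  set θ : ℝ := Real.exp (-(ew K v * ((1 + (n' : ℝ)) * s))) with hθ
  have hs' : (0 : ℝ) ≤ s := Nat.cast_nonneg _
  have hθ1 : θ ≤ 1 := by
    rw [hθ, Real.exp_le_one_iff]
    have := mul_nonneg hew.le (mul_nonneg hn'0.le hs')
    linarith
  have hηθ : ∀ y ∈ good, η (c y) ^ s ≤ θ := by
    intro y hy
    rw [hη, hθ, ← Real.exp_nat_mul, Real.exp_le_exp]
    apply le_of_eq
    ring
  have hRk : ∀ b ∈ good.image c,
      finrank M (EL K (fun i : {i // i ∈ good ∧ c i = b} => pp F z n₀ k i) (s - 1)) ≤ s ^ N := by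
    intro b _
    refine (finrank_EL_le _ _).trans ?_
    rw [Nat.sub_add_cancel hs]
  have h1 := local_gain2 hR h.hom l Φ hΦ (pp F z n₀ k)
    (fun y => pt_ne_zero hB hz _ _) good c η hη0 hη1 hnear (fun _ => s) (Real.exp_pos _).le hθ1
    hηθ (fun _ => s ^ N) hRk
  refine h1.trans (mul_le_mul_of_nonneg_left ?_ (Finset.prod_nonneg fun i _ =>
    pow_nonneg (nmf_nonneg v _) _))
  -- the number of gains
  rw [Finset.sum_const, smul_eq_mul]
  set r := Fintype.card (IX F z n₀ k) with hr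
  set X := r - (goodᶜ.card + (good.image c).card * s ^ N) with hX
  set t := Fintype.card (QQ F z (n₀ + (k - 1))) with ht
  have hkt : k * t ≤ r := card_top_le h z n₀ hk
  have himg : (good.image c).card ≤ t := by
    have h2 : good.image c ⊆ (Finset.univ : Finset (QQ F z (n₀ + (k - 1)))).image fun y =>
        (⟨⟨k - 1, by omega⟩, y⟩ : IX F z n₀ k) := by
      intro y hy
      obtain ⟨i, _, rfl⟩ := Finset.mem_image.mp hy
      exact Finset.mem_image_of_mem _ (Finset.mem_univ _)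
    refine (Finset.card_le_card h2).trans (Finset.card_image_le.trans ?_)
    rw [Finset.card_univ]
  have hgc : r ≤ 2 * good.card := by
    have h2 : r = ∑ j : Fin k, Fintype.card (QQ F z (n₀ + j)) := Fintype.card_sigma
    rw [h2, hgood, Finset.card_sigma, Finset.mul_sum]
    refine Finset.sum_le_sum fun j _ => ?_
    have h3 := card_image_ge (prj h.hom z (n₀ + j)) (prj_smul h.hom z (n₀ + j)) A0
    set Dj := Fintype.card (QQ F z (n₀ + j))
    set gj := (A0.image (prj h.hom z (n₀ + j))).card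
    have h4 : Dj * D₀ ≤ (2 * gj) * D₀ := by
      calc Dj * D₀ = D₀ * Dj := mul_comm _ _
        _ ≤ (2 * A0.card) * Dj := Nat.mul_le_mul_right _ hE
        _ = 2 * (A0.card * Dj) := by ring
        _ ≤ 2 * (gj * D₀) := Nat.mul_le_mul_left _ h3
        _ = _ := by ring
    exact Nat.le_of_mul_le_mul_right h4 hD₀1
  have hX4 : r ≤ 4 * X := by
    have h2 := Finset.card_compl good
    have h3 : good.card ≤ r := Finset.card_le_univ good
    have h4 : 4 * ((good.image c).card * s ^ N) ≤ r := by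
      calc 4 * ((good.image c).card * s ^ N) = (4 * s ^ N) * (good.image c).card := by ring
        _ ≤ k * t := Nat.mul_le_mul hks himg
        _ ≤ r := hkt
    omega
  have hX4' : (r : ℝ) / 4 ≤ X := by
    have : (r : ℝ) ≤ 4 * X := by exact_mod_cast hX4
    linarith
  rw [← Real.exp_nat_mul, Real.exp_le_exp]
  have h5 : 0 ≤ ew K v * ((1 + (n' : ℝ)) * s) := mul_nonneg hew.le (mul_nonneg hn'0.le hs')
  have h6 := mul_le_mul_of_nonneg_left hX4' h5
  linarith

/-- **inequality B** -/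
theorem caseB (h : GoodN P F q) (hP0 : P ≠ ⊥) {A : ℝ} {a c : ℕ} (hB : Bds F q A a)
    (hc : ∀ m, c + q ≤ m → ∀ p : MvPolynomial (Fin (N + 1)) K, p.IsHomogeneous m →
      p ∈ Ideal.span (Set.range F))
    {z : Fin (N + 1) → M} {i₀ : Fin (N + 1)} (hz : z i₀ = 1) {n' k s E m : ℕ}
    (hE1 : 1 ≤ E) (hk : 1 ≤ k) (hks : 4 * s ^ N ≤ k) (hs : 1 ≤ s)
    (hE : ∀ v ∈ TP M P, Fintype.card (QQ F z 0) ≤
      2 * (Finset.univ.filter fun y : QQ F z 0 => (oI (inr K v) y).card ≤ E).card)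
    (hm : Fintype.card (IX F z (Nat.clog q E + n') k) ≤
      finrank M (EL K (pp F z (Nat.clog q E + n') k) m)) :
    lP P * (1 + (n' : ℝ)) * s / 4 ≤
      m * ((q : ℝ) ^ (Nat.clog q E + n' + k) * canH F q z) +
        (hC A a * ((c + q : ℕ) * (1 + Nat.log 2 m : ℕ)) +
          Real.log (Fintype.card (IX F z (Nat.clog q E + n') k))) := by
  classical
  obtain ⟨v₀, hv₀⟩ := TP_nonempty (M := M) (P := P) hP0
  have hq : 2 ≤ q := (h.red_at hP0 hv₀).two_le
  have hq' : (2 : ℝ) ≤ q := by exact_mod_cast hq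
  set n₀ := Nat.clog q E + n' with hn₀
  set r := Fintype.card (IX F z n₀ k) with hr
  have hr1 : 1 ≤ r := by
    have h1 := card_top_le h z n₀ hk
    have h2 : 1 ≤ Fintype.card (QQ F z (n₀ + (k - 1))) := Fintype.card_pos
    exact le_trans (Nat.mul_pos hk h2) h1
  have hzσ : ∀ σ : Gal(M/K), (fun i => σ (z i)) ≠ 0 := by
    intro σ h0
    have := congrFun h0 i₀
    simp only [hz, map_one, Pi.zero_apply, one_ne_zero] at this
  have hz0 : z ≠ 0 := by
    intro h0
    rw [h0] at hz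
    exact zero_ne_one hz
  have hcan0 : 0 ≤ canH F q z := hB.canH_nonneg hq hz0
  have hHp : ∀ y : IX F z n₀ k,
      canH F q (pp F z n₀ k y) ≤ (q : ℝ) ^ (n₀ + k) * canH F q z := by
    rintro ⟨j, y⟩
    change canH F q ((act F)^[n₀ + j] fun i => y.out (z i)) ≤ _
    rw [hB.canH_iter hq (hzσ _), canH_gal]
    refine mul_le_mul_of_nonneg_right ?_ hcan0
    apply pow_le_pow_right₀ (by linarith)
    have := j.2
    omega
  have hmain := det_ineq2 hB hq h.hom hc (fun y : IX F z n₀ k => pt_ne_zero hB hz _ _) hr1 hm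
    (TP M P) (fun v hv => ⟨_, h.red_at hP0 hv⟩)
    (fun v => ew K v * ((1 + (n' : ℝ)) * s) * (r / 4))
    (fun v hv l Φ hΦ => gainB h hP0 hB hz hE1 hn₀ hk hks hs hv (hE v hv) l Φ hΦ) hHp
  rw [← Finset.sum_mul, ← Finset.sum_mul, sum_ew_eq hP0] at hmain
  have hDM := finrank_pos' (L := M)
  have hr' : (0 : ℝ) < r := by exact_mod_cast hr1
  have h1 : (finrank ℚ M : ℝ) * r * (lP P * (1 + (n' : ℝ)) * s / 4) ≤
      (finrank ℚ M : ℝ) * r * (m * ((q : ℝ) ^ (n₀ + k) * canH F q z) +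
        (hC A a * ((c + q : ℕ) * (1 + Nat.log 2 m : ℕ)) + Real.log r)) := by
    refine le_trans (le_of_eq ?_) (hmain.trans (le_of_eq ?_))
    · ring
    · ring
  exact le_of_mul_le_mul_left h1 (by positivity)

end

end Pool.Agent.NH29.QL
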