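import Mathlib
import Pool.Agent.W238.Leh.Hilb

/-!
Statements for the project QL (quasi-Lehmer bound in all dimensions).
-/

set_option autoImplicit false

namespace Pool.Agent.NH29.QL

open NumberField Module MvPolynomial
open Pool.Agent.W238.Leh

/-- QL-1: linear Kneser theorem -/
def KneserStm : Prop :=
  ∀ (K M : Type) [Field K] [Field M] [Algebra K M] [Infinite K] [FiniteDimensional K M]
    [Algebra.IsSeparable K M] (A B : Submodule K M), A ≠ ⊥ → B ≠ ⊥ →
    ∃ H : IntermediateField K M, (∀ h ∈ H, ∀ v ∈ A * B, h * v ∈ A * B) ∧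
      finrank K A + finrank K B ≤ finrank K (A * B : Submodule K M) + finrank K H

/-- QL-2: growth of the powers of a subspace containing `1` -/
def GrowthStm : Prop :=
  ∀ (K M : Type) [Field K] [Field M] [Algebra K M] [Infinite K] [FiniteDimensional K M]
    [Algebra.IsSeparable K M] (U : Submodule K M), (1 : M) ∈ U → ∀ m : ℕ,
    (∀ j < m, U ^ j ≠ Subalgebra.toSubmodule (Algebra.adjoin K (U : Set M))) →
    ∀ s : ℕ, 1 ≤ s → finrank K (U ^ s : Submodule K M) * m ≤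
      8 * s * finrank K (Algebra.adjoin K (U : Set M))

/-- QL-3: the Hilbert function of a Galois orbit of a point of projective space -/
def OrbitStm : Prop :=
  ∀ (K M : Type) [Field K] [NumberField K] [Field M] [NumberField M] [Algebra K M]
    [IsGalois K M] (N : ℕ) (z : Fin (N + 1) → M), z ≠ 0 → ∀ (ι : Type) [Fintype ι]
    (g : ι → Gal(M/K)),
    (∀ i j : ι, ∀ c : M, c ≠ 0 → (fun t => g i (z t)) = c • (fun t => g j (z t)) → i = j) →
    (∀ σ : Gal(M/K), ∃ i : ι, ∃ c : M, c ≠ 0 ∧ (fun t => σ (z t)) = c • fun t => g i (z t)) →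
    ∃ m : ℕ, m ≤ Fintype.card ι ∧
      Fintype.card ι ≤ finrank M (EL K (fun i t => g i (z t)) m) ∧
      ∀ s : ℕ, 1 ≤ s → finrank M (EL K (fun i t => g i (z t)) s) * m ≤ 8 * s * Fintype.card ι

/-- QL-4: unions of finite sets of points which impose independent conditions on forms -/
def UnionStm : Prop :=
  ∀ (K M : Type) [Field K] [NumberField K] [Field M] [NumberField M] [Algebra K M] (N k : ℕ)
    (κ : Fin k → Type) [∀ j, Fintype (κ j)] (p : (Σ j, κ j) → Fin (N + 1) → M),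
    (∀ i, p i ≠ 0) → (∀ i j, i ≠ j → ∀ b : M, p i ≠ b • p j) → ∀ m : Fin k → ℕ,
    (∀ j, Fintype.card (κ j) ≤ finrank M (EL K (fun y : κ j => p ⟨j, y⟩) (m j))) →
    Fintype.card (Σ j, κ j) ≤ finrank M (EL K p (∑ j, (m j + 1)))

/-- QL-5: the choice of the parameters `s`, `k` as functions of `D` -/
def ParamStm : Prop :=
  ∀ (lp E₀ : ℝ), 0 < lp → 0 ≤ E₀ → ∀ (N q : ℕ), 1 ≤ N → 2 ≤ q →
    ∃ C : ℝ, 0 < C ∧ ∀ D : ℕ, 1 ≤ D → ∃ s k : ℕ, 1 ≤ k ∧ 4 * s ^ N ≤ k ∧
      E₀ * (1 + Nat.log 2 (2 * k * D) : ℕ) + Real.log (k * D : ℕ) + 1 ≤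
        lp * (1 + (k : ℝ)) * s / 4 ∧
      (1 + Real.log D) * k * (q : ℝ) ^ (2 * k) ≤
        Real.exp (C * (1 + Real.log D) ^ ((N : ℝ) / (N + 1)))

end Pool.Agent.NH29.QL
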