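import Mathlib
import Pool.Agent.NH29.QL.Stm

/-! Growth of the powers of a subspace which contains `1` (from the linear Kneser theorem). -/

set_option autoImplicit false

namespace Pool.Agent.NH29.QL.Gr

open Module

variable {K M : Type} [Field K] [Field M] [Algebra K M]

/-- The stabiliser of a subspace. -/
def st (W : Submodule K M) : Subalgebra K M where
  carrier := {x | ∀ v ∈ W, x * v ∈ W}
  mul_mem' := by
    intro a b ha hb v hv
    rw [mul_assoc]
    exact ha _ (hb v hv)
  add_mem' := by
    intro a b ha hb v hv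
    rw [add_mul]
    exact W.add_mem (ha v hv) (hb v hv)
  algebraMap_mem' := by
    intro r v hv
    rw [← Algebra.smul_def]
    exact W.smul_mem r hv

theorem mem_st {W : Submodule K M} {x : M} : x ∈ st W ↔ ∀ v ∈ W, x * v ∈ W := Iff.rfl

theorem one_mem_pow {U : Submodule K M} (h1 : (1 : M) ∈ U) (j : ℕ) : (1 : M) ∈ U ^ j := by
  induction j with
  | zero => rw [pow_zero]; exact Submodule.mem_one.2 ⟨1, map_one _⟩
  | succ j ih =>
    rw [pow_succ]
    have := Submodule.mul_mem_mul ih h1
    rwa [mul_one] at this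

theorem le_mul_right {A B : Submodule K M} (h1 : (1 : M) ∈ B) : A ≤ A * B := by
  intro a ha
  have := Submodule.mul_mem_mul ha h1
  rwa [mul_one] at this

theorem le_mul_left {A B : Submodule K M} (h1 : (1 : M) ∈ A) : B ≤ A * B := by
  intro a ha
  have := Submodule.mul_mem_mul h1 ha
  rwa [one_mul] at this

/-- if `x` stabilises `A` then it stabilises `A * B` -/
theorem st_mul {A B : Submodule K M} {x : M} (hx : x ∈ st A) : x ∈ st (A * B) := by
  intro v hv
  induction hv using Submodule.mul_induction_on' with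
  | mem_mul_mem a ha b hb =>
    rw [← mul_assoc]
    exact Submodule.mul_mem_mul (hx a ha) hb
  | add a ha b hb h1 h2 =>
    rw [mul_add]
    exact Submodule.add_mem _ h1 h2

theorem st_toSubmodule_mul (W : Submodule K M) : Subalgebra.toSubmodule (st W) * W = W := by
  apply le_antisymm
  · rw [Submodule.mul_le]
    intro a ha b hb
    exact ha b hb
  · exact le_mul_left (st W).one_mem

theorem pow_le_sub {U : Submodule K M} {R : Subalgebra K M} (h : U ≤ Subalgebra.toSubmodule R)
    (j : ℕ) : U ^ j ≤ Subalgebra.toSubmodule R := by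
  induction j with
  | zero =>
    rw [pow_zero]
    intro x hx
    rw [Submodule.mem_one] at hx
    obtain ⟨y, rfl⟩ := hx
    exact R.algebraMap_mem y
  | succ j ih =>
    rw [pow_succ]
    rw [Submodule.mul_le]
    intro a ha b hb
    exact R.mul_mem (ih ha) (h hb)

section
variable [FiniteDimensional K M]

/-- doubling: if `u ∈ V` is not in the field `H ≤ V`, and `V` is stable under `H`, then
`2 dim H ≤ dim V` -/
theorem two_mul_finrank_le (H : Subalgebra K M) (V : Submodule K M)
    (hV : ∀ h ∈ H, ∀ v ∈ V, h * v ∈ V) (h1 : (1 : M) ∈ V) (u : M) (hu : u ∈ V) (huH : u ∉ H) :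
    2 * finrank K (Subalgebra.toSubmodule H) ≤ finrank K V := by
  have hinj : Function.Injective (LinearMap.mulLeft K u : M →ₗ[K] M) := by
    have hu0 : u ≠ 0 := fun h => huH (h ▸ H.zero_mem)
    intro a b hab
    simp only [LinearMap.mulLeft_apply] at hab
    exact mul_left_cancel₀ hu0 hab
  have e1 : finrank K ((Subalgebra.toSubmodule H).map (LinearMap.mulLeft K u)) =
      finrank K (Subalgebra.toSubmodule H) :=
    (Submodule.equivMapOfInjective _ hinj _).finrank_eq.symm
  have hdis : Subalgebra.toSubmodule H ⊓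
      (Subalgebra.toSubmodule H).map (LinearMap.mulLeft K u) = ⊥ := by
    rw [eq_bot_iff]
    rintro x ⟨hx1, hx2⟩
    obtain ⟨h', hh', rfl⟩ := hx2
    have hh'' : h' ∈ H := hh'
    simp only [LinearMap.mulLeft_apply] at hx1 ⊢
    by_contra h0
    have h0' : h' ≠ 0 := fun h => h0 (by rw [h, mul_zero]; exact Submodule.zero_mem _)
    apply huH
    have hinv : h'⁻¹ ∈ H := H.inv_mem_of_algebraic (x := ⟨h', hh''⟩)
      (Algebra.IsAlgebraic.isAlgebraic _)
    have hx1' : u * h' ∈ H := hx1
    have := H.mul_mem hx1' hinv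
    rwa [mul_assoc, mul_inv_cancel₀ h0', mul_one] at this
  have hle : Subalgebra.toSubmodule H ⊔
      (Subalgebra.toSubmodule H).map (LinearMap.mulLeft K u) ≤ V := by
    apply sup_le
    · intro h hh
      have := hV h hh 1 h1
      rwa [mul_one] at this
    · rintro _ ⟨h', hh', rfl⟩
      simp only [LinearMap.mulLeft_apply]
      rw [mul_comm]
      exact hV h' hh' u hu
  have e2 := Submodule.finrank_sup_add_finrank_inf_eq (Subalgebra.toSubmodule H)
    ((Subalgebra.toSubmodule H).map (LinearMap.mulLeft K u))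
  rw [hdis, finrank_bot, add_zero, e1] at e2
  have e3 := Submodule.finrank_mono hle
  omega

end

theorem claim (hK : KneserStm) [Infinite K] [FiniteDimensional K M]
    [Algebra.IsSeparable K M] (U : Submodule K M) (h1 : (1 : M) ∈ U) (k : ℕ)
    (hne : U ^ k ≠ Subalgebra.toSubmodule (Algebra.adjoin K (U : Set M))) :
    k * finrank K U ≤ 2 * finrank K (U ^ k : Submodule K M) := by
  rcases Nat.eq_zero_or_pos k with hk0 | hk
  · subst hk0; simp
  set H : Subalgebra K M := st (U ^ k) with hHdef
  set Hs : Submodule K M := Subalgebra.toSubmodule H with hHs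
  have hUR : U ≤ Subalgebra.toSubmodule (Algebra.adjoin K (U : Set M)) :=
    fun x hx => Algebra.subset_adjoin hx
  let V : ℕ → Submodule K M := fun j => Hs * U ^ j
  have hHH : Hs * Hs = Hs := Subalgebra.isIdempotentElem_toSubmodule H
  have hV1 : ∀ j, (1 : M) ∈ V j := fun j => by
    have := Submodule.mul_mem_mul (show (1 : M) ∈ Hs from H.one_mem) (one_mem_pow h1 j)
    rwa [mul_one] at this
  have hVV : ∀ j, V 1 * V j = V (j + 1) := by
    intro j
    change Hs * U ^ 1 * (Hs * U ^ j) = Hs * U ^ (j + 1)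
    calc Hs * U ^ 1 * (Hs * U ^ j) = (Hs * Hs) * U ^ (j + 1) := by ring
      _ = Hs * U ^ (j + 1) := by rw [hHH]
  have hVk : V k = U ^ k := st_toSubmodule_mul (U ^ k)
  have hstab : ∀ j, j ≤ k → ∀ x : M, x ∈ st (V j) → x ∈ H := by
    intro j hj x hx
    have h2 : V j * U ^ (k - j) = U ^ k := by
      change Hs * U ^ j * U ^ (k - j) = U ^ k
      rw [mul_assoc, ← pow_add, Nat.add_sub_cancel' hj]
      exact st_toSubmodule_mul (U ^ k)
    have h3 := st_mul (B := U ^ (k - j)) hx
    rwa [h2] at h3
  have hkn : ∀ j, j + 1 ≤ k →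
      finrank K (V 1) + finrank K (V j) ≤ finrank K (V (j + 1)) + finrank K Hs := by
    intro j hj
    have hb : ∀ i, V i ≠ ⊥ := fun i h => by
      have := hV1 i
      rw [h, Submodule.mem_bot] at this
      exact one_ne_zero this
    obtain ⟨H', hH'1, hH'2⟩ := hK K M (V 1) (V j) (hb 1) (hb j)
    rw [hVV] at hH'1 hH'2
    have h4 : H'.toSubalgebra ≤ H := fun x hx => hstab (j + 1) hj x (hH'1 x hx)
    have h5 : finrank K H' ≤ finrank K Hs := by
      have : Subalgebra.toSubmodule H'.toSubalgebra ≤ Hs := h4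
      exact Submodule.finrank_mono this
    omega
  have hu : ∃ u ∈ U, u ∉ H := by
    by_contra hcon
    push Not at hcon
    apply hne
    apply le_antisymm (pow_le_sub hUR k)
    have h6 : Algebra.adjoin K (U : Set M) ≤ H := Algebra.adjoin_le hcon
    intro x hx
    have h7 := h6 hx 1 (one_mem_pow h1 k)
    rwa [mul_one] at h7
  obtain ⟨u, huU, huH⟩ := hu
  have hUV : U ≤ V 1 := by
    change U ≤ Hs * U ^ 1
    rw [pow_one]
    exact le_mul_left H.one_mem
  have hdouble : 2 * finrank K Hs ≤ finrank K (V 1) := by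
    refine two_mul_finrank_le H (V 1) ?_ (hV1 1) u (hUV huU) huH
    intro h hh v hv
    have h8 : h * v ∈ Hs * V 1 := Submodule.mul_mem_mul hh hv
    have h9 : Hs * V 1 = V 1 := by
      change Hs * (Hs * U ^ 1) = Hs * U ^ 1
      rw [← mul_assoc, hHH]
    rwa [h9] at h8
  have hind : ∀ j, 1 ≤ j → j ≤ k →
      j * finrank K (V 1) ≤ finrank K (V j) + (j - 1) * finrank K Hs := by
    intro j hj1
    induction j, hj1 using Nat.le_induction with
    | base => intro _; simp
    | succ j hj1 ih =>
      intro hjk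
      have h10 := ih (by omega)
      have h11 := hkn j hjk
      obtain ⟨i, rfl⟩ : ∃ i, j = i + 1 := ⟨j - 1, by omega⟩
      simp only [Nat.add_sub_cancel] at h10 ⊢
      nlinarith
  have h12 := hind k hk le_rfl
  rw [hVk] at h12
  have h13 : finrank K U ≤ finrank K (V 1) := Submodule.finrank_mono hUV
  obtain ⟨i, rfl⟩ : ∃ i, k = i + 1 := ⟨k - 1, by omega⟩
  simp only [Nat.add_sub_cancel] at h12
  nlinarith

end Pool.Agent.NH29.QL.Gr

namespace Pool.Agent.NH29.QL

open Module Pool.Agent.NH29.QL.Gr

/-- QL-2 -/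
theorem growth (hK : KneserStm) : GrowthStm := by
  intro K M _ _ _ _ _ _ U h1 m hm s hs
  set R := Algebra.adjoin K (U : Set M) with hR
  have hUR : U ≤ Subalgebra.toSubmodule R := fun x hx => Algebra.subset_adjoin hx
  have hle : ∀ j : ℕ, finrank K (U ^ j : Submodule K M) ≤ finrank K R := fun j =>
    Submodule.finrank_mono (pow_le_sub hUR j)
  rcases Nat.lt_or_ge s m with hsm | hsm
  · set k := (m - 1) / s with hk
    have hk1 : 1 ≤ k := by
      rw [hk, Nat.one_le_div_iff (by omega)]
      omega
    have hsk : s * k ≤ m - 1 := Nat.mul_div_le (m - 1) s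
    have hms : m ≤ s * (k + 1) := by
      have := Nat.lt_mul_div_succ (m - 1) (show 0 < s by omega)
      rw [← hk] at this
      omega
    have hUs : U ≤ U ^ s := by
      obtain ⟨i, rfl⟩ : ∃ i, s = i + 1 := ⟨s - 1, by omega⟩
      rw [pow_succ']
      exact le_mul_right (one_mem_pow h1 i)
    have hadj : Algebra.adjoin K ((U ^ s : Submodule K M) : Set M) = R := by
      apply le_antisymm
      · apply Algebra.adjoin_le
        exact pow_le_sub hUR s
      · exact Algebra.adjoin_mono hUs
    have h2 := claim hK (U ^ s) (one_mem_pow h1 s) k (by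
      rw [hadj, ← pow_mul]
      exact hm _ (by omega))
    rw [← pow_mul] at h2
    have h3 := hle (s * k)
    have h4 : m ≤ 2 * (s * k) := by nlinarith
    calc finrank K (U ^ s : Submodule K M) * m
        ≤ finrank K (U ^ s : Submodule K M) * (2 * (s * k)) := Nat.mul_le_mul_left _ h4
      _ = 2 * s * (k * finrank K (U ^ s : Submodule K M)) := by ring
      _ ≤ 2 * s * (2 * finrank K (U ^ (s * k) : Submodule K M)) := Nat.mul_le_mul_left _ h2
      _ ≤ 2 * s * (2 * finrank K R) := by gcongr
      _ ≤ 8 * s * finrank K R := by nlinarith [Nat.zero_le (s * finrank K R)]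
  · calc finrank K (U ^ s : Submodule K M) * m ≤ finrank K R * s :=
          Nat.mul_le_mul (hle s) hsm
      _ ≤ 8 * s * finrank K R := by nlinarith [Nat.zero_le (s * finrank K R)]

end Pool.Agent.NH29.QL
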