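import Mathlib
import Pool.Agent.NH29.QL.Stm

/-!
# The linear Kneser theorem (QL-1)

`A`, `B` nonzero `K`-subspaces of a finite separable extension `M` of the infinite field `K`: there is an
intermediate field `H` with `H (A B) = A B` and `dim A + dim B ≤ dim A B + dim H` (Hou, Leung, Xiang).
-/

set_option autoImplicit false

namespace Pool.Agent.NH29.QL

open NumberField Module MvPolynomial

namespace Kn

variable {K M : Type} [Field K] [Field M] [Algebra K M]

/-- multiplication by a nonzero element preserves the dimension -/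
theorem finrank_map_mul {e : M} (he : e ≠ 0) (A : Submodule K M) :
    finrank K (A.map (LinearMap.mulLeft K e)) = finrank K A := by
  have hinj : Function.Injective (LinearMap.mulLeft K e) := by
    intro x y hxy
    exact mul_left_cancel₀ he hxy
  exact (Submodule.equivMapOfInjective _ hinj A).finrank_eq.symm

/-- the stabilizer of a subspace -/
noncomputable def stab [FiniteDimensional K M] (V : Submodule K M) : IntermediateField K M where
  carrier := {h | ∀ v ∈ V, h * v ∈ V}
  mul_mem' := by
    intro a b ha hb v hv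
    rw [mul_assoc]
    exact ha _ (hb v hv)
  one_mem' := by
    intro v hv
    rwa [one_mul]
  add_mem' := by
    intro a b ha hb v hv
    rw [add_mul]
    exact V.add_mem (ha v hv) (hb v hv)
  zero_mem' := by
    intro v hv
    rw [zero_mul]
    exact V.zero_mem
  algebraMap_mem' := by
    intro r v hv
    rw [← Algebra.smul_def]
    exact V.smul_mem r hv
  inv_mem' := by
    intro h hh v hv
    by_cases h0 : h = 0
    · rw [h0, inv_zero, zero_mul]
      exact V.zero_mem
    · have h1 : V.map (LinearMap.mulLeft K h) ≤ V := by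
        rintro _ ⟨w, hw, rfl⟩
        exact hh w hw
      have h2 : V.map (LinearMap.mulLeft K h) = V :=
        Submodule.eq_of_le_of_finrank_eq h1 (finrank_map_mul h0 V)
      rw [← h2] at hv
      obtain ⟨w, hw, hwv⟩ := hv
      have h3 : h * w = v := hwv
      rw [← h3, ← mul_assoc, inv_mul_cancel₀ h0, one_mul]
      exact hw

theorem mem_stab [FiniteDimensional K M] {V : Submodule K M} {h : M} :
    h ∈ stab V ↔ ∀ v ∈ V, h * v ∈ V := Iff.rfl

theorem lem [FiniteDimensional K M] (n : ℕ) : ∀ A B : Submodule K M, finrank K A = n →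
    (1 : M) ∈ A → B ≠ ⊥ → ∃ (V : Submodule K M) (H : IntermediateField K M), B ≤ V ∧ V ≤ A * B ∧
      (∀ h ∈ H, ∀ v ∈ V, h * v ∈ V) ∧ finrank K A + finrank K B ≤ finrank K V + finrank K H := by
  induction n using Nat.strong_induction_on with
  | _ n ih =>
    intro A B hn h1 hB
    by_cases hall : ∀ e ∈ B, e ≠ 0 → A ⊓ B.comap (LinearMap.mulLeft K e) = A
    · -- the last step
      have hAB : ∀ a ∈ A, ∀ b ∈ B, a * b ∈ B := by
        intro a ha b hb
        by_cases hb0 : b = 0
        · rw [hb0, mul_zero]
          exact B.zero_mem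
        · have := hall b hb hb0
          rw [← this] at ha
          have h2 : b * a ∈ B := ha.2
          rwa [mul_comm]
      refine ⟨B, stab B, le_rfl, ?_, fun h hh v hv => hh v hv, ?_⟩
      · intro b hb
        have := Submodule.mul_mem_mul h1 hb
        rwa [one_mul] at this
      · have h3 : A ≤ Subalgebra.toSubmodule (stab B).toSubalgebra := by
          intro a ha
          exact hAB a ha
        have h4 : finrank K A ≤ finrank K (stab B) := Submodule.finrank_mono h3
        omega
    · push Not at hall
      obtain ⟨e, heB, he0, hne⟩ := hall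
      set A' := A ⊓ B.comap (LinearMap.mulLeft K e) with hA'
      set B' := B ⊔ A.map (LinearMap.mulLeft K e) with hB'
      have hlt : A' < A := lt_of_le_of_ne inf_le_left hne
      have h2 : finrank K A' < n := by
        rw [← hn]
        exact Submodule.finrank_lt_finrank_of_lt hlt
      have h3 : (1 : M) ∈ A' := by
        refine ⟨h1, ?_⟩
        show e * 1 ∈ B
        rwa [mul_one]
      have h4 : B' ≠ ⊥ := by
        intro h
        apply hB
        rw [eq_bot_iff, ← h]
        exact le_sup_left
      obtain ⟨V, H, h5, h6, h7, h8⟩ := ih _ h2 A' B' rfl h3 h4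
      refine ⟨V, H, le_sup_left.trans h5, h6.trans ?_, h7, ?_⟩
      · rw [Submodule.mul_le]
        intro a ha b hb
        obtain ⟨b1, hb1, c, ⟨a', ha', rfl⟩, rfl⟩ := Submodule.mem_sup.1 hb
        rw [mul_add]
        refine Submodule.add_mem _ (Submodule.mul_mem_mul ha.1 hb1) ?_
        have h9 : e * a ∈ B := ha.2
        have h10 : a * (LinearMap.mulLeft K e) a' = a' * (e * a) := by
          rw [LinearMap.mulLeft_apply]
          ring
        rw [h10]
        exact Submodule.mul_mem_mul ha' h9
      · have h11 : B ⊓ A.map (LinearMap.mulLeft K e) = A'.map (LinearMap.mulLeft K e) := by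
          ext x
          constructor
          · rintro ⟨hxB, a, ha, rfl⟩
            exact ⟨a, ⟨ha, hxB⟩, rfl⟩
          · rintro ⟨a, ha, rfl⟩
            exact ⟨ha.2, ⟨a, ha.1, rfl⟩⟩
        have h12 := Submodule.finrank_sup_add_finrank_inf_eq B (A.map (LinearMap.mulLeft K e))
        rw [h11, finrank_map_mul he0, finrank_map_mul he0, ← hB'] at h12
        omega

end Kn

open Kn in
theorem kneser : KneserStm := by
  intro K M _ _ _ _ _ _ A B hA hB
  have key : ∀ a : M, a ∈ A → a ≠ 0 → ∃ (V : Submodule K M) (H : IntermediateField K M), B ≤ V ∧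
      (∀ v ∈ V, a * v ∈ A * B) ∧ (∀ h ∈ H, ∀ v ∈ V, h * v ∈ V) ∧
      finrank K A + finrank K B ≤ finrank K V + finrank K H := by
    intro a ha ha0
    have hai : a⁻¹ ≠ 0 := inv_ne_zero ha0
    have h1 : (1 : M) ∈ A.map (LinearMap.mulLeft K a⁻¹) :=
      ⟨a, ha, by rw [LinearMap.mulLeft_apply, inv_mul_cancel₀ ha0]⟩
    obtain ⟨V, H, h2, h3, h4, h5⟩ := lem _ (A.map (LinearMap.mulLeft K a⁻¹)) B rfl h1 hB
    refine ⟨V, H, h2, fun v hv => ?_, h4, ?_⟩
    · have h6 : A.map (LinearMap.mulLeft K a⁻¹) * B ≤ (A * B).comap (LinearMap.mulLeft K a) := by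
        rw [Submodule.mul_le]
        rintro _ ⟨x, hx, rfl⟩ b hb
        show a * (a⁻¹ * x * b) ∈ A * B
        have h7 : a * (a⁻¹ * x * b) = x * b := by
          field_simp
        rw [h7]
        exact Submodule.mul_mem_mul hx hb
      exact h6 (h3 hv)
    · rwa [finrank_map_mul hai] at h5
  choose! V H h1 h2 h3 h4 using key
  have hfin : Finite (IntermediateField K M) :=
    Field.finite_intermediateField_of_exists_primitive_element K M (Field.exists_primitive_element K M)
  obtain ⟨F, hF⟩ := Subspace.exists_eq_top_of_iUnion_eq_univ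
    (p := fun F : IntermediateField K M =>
      Submodule.span K {x : A | (x : M) ≠ 0 ∧ H (x : M) = F}) (by
    rw [Set.eq_univ_iff_forall]
    intro x
    by_cases hx : (x : M) = 0
    · have hx' : x = 0 := Subtype.ext hx
      rw [hx']
      exact Set.mem_iUnion.2 ⟨⊤, Submodule.zero_mem _⟩
    · exact Set.mem_iUnion.2 ⟨H (x : M), Submodule.subset_span ⟨hx, rfl⟩⟩)
  refine ⟨F, fun h hh => ?_, ?_⟩
  · -- the product is stable
    have h5 : ∀ x : A, x ∈ Submodule.span K {x : A | (x : M) ≠ 0 ∧ H (x : M) = F} →
        ∀ b ∈ B, h * ((x : M) * b) ∈ A * B := by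
      intro x hx
      induction hx using Submodule.span_induction with
      | mem x hx =>
        intro b hb
        obtain ⟨hx0, hxF⟩ := hx
        have h6 : h * b ∈ V (x : M) := by
          refine h3 (x : M) x.2 hx0 h ?_ b (h1 (x : M) x.2 hx0 hb)
          rw [hxF]
          exact hh
        have h7 := h2 (x : M) x.2 hx0 _ h6
        have h8 : h * ((x : M) * b) = (x : M) * (h * b) := by ring
        rw [h8]
        exact h7
      | zero =>
        intro b _
        rw [Submodule.coe_zero, zero_mul, mul_zero]
        exact Submodule.zero_mem _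
      | add x y _ _ hx hy =>
        intro b hb
        rw [Submodule.coe_add, add_mul, mul_add]
        exact Submodule.add_mem _ (hx b hb) (hy b hb)
      | smul c x _ hx =>
        intro b hb
        rw [Submodule.coe_smul, smul_mul_assoc, mul_smul_comm]
        exact Submodule.smul_mem _ c (hx b hb)
    have h6 : A * B ≤ (A * B).comap (LinearMap.mulLeft K h) := by
      rw [Submodule.mul_le]
      intro a ha b hb
      have : (⟨a, ha⟩ : A) ∈ Submodule.span K {x : A | (x : M) ≠ 0 ∧ H (x : M) = F} := by
        have hF' : Submodule.span K {x : A | (x : M) ≠ 0 ∧ H (x : M) = F} = ⊤ := hF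
        rw [hF']
        exact Submodule.mem_top
      exact h5 ⟨a, ha⟩ this b hb
    exact fun v hv => h6 hv
  · -- the dimensions
    obtain ⟨x, hx0, hxF⟩ : ∃ x : A, (x : M) ≠ 0 ∧ H (x : M) = F := by
      by_contra hno
      have h5 : {x : A | (x : M) ≠ 0 ∧ H (x : M) = F} = ∅ := by
        rw [Set.eq_empty_iff_forall_notMem]
        intro x hx
        exact hno ⟨x, hx⟩
      have hF' : Submodule.span K {x : A | (x : M) ≠ 0 ∧ H (x : M) = F} = ⊤ := hF
      rw [h5, Submodule.span_empty] at hF'
      apply hA
      rw [eq_bot_iff]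
      intro a ha
      have h6 : (⟨a, ha⟩ : A) ∈ (⊥ : Submodule K A) := by
        rw [hF']
        exact Submodule.mem_top
      have h7 : (⟨a, ha⟩ : A) = 0 := (Submodule.mem_bot K).1 h6
      have h8 : a = 0 := congrArg Subtype.val h7
      rw [h8]
      exact Submodule.zero_mem _
    have h5 := h4 (x : M) x.2 hx0
    rw [hxF] at h5
    have h6 : (V (x : M)).map (LinearMap.mulLeft K (x : M)) ≤ A * B := by
      rintro _ ⟨v, hv, rfl⟩
      exact h2 (x : M) x.2 hx0 v hv
    have h7 := Submodule.finrank_mono h6
    rw [finrank_map_mul hx0] at h7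
    omega

end Pool.Agent.NH29.QL
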