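import Mathlib
import Pool.Agent.NH29.QL.Stm

/-!
The Hilbert function of a Galois orbit of a point of projective space.
-/

set_option autoImplicit false
set_option linter.unusedSectionVars false

namespace Pool.Agent.NH29.QL.OrAux

open NumberField Module MvPolynomial
open Pool.Agent.W238.Leh

section powers

variable {K M : Type} [Field K] [Field M] [Algebra K M]

/-- values of the forms of degree `m` -/
lemma forms_map {N : ℕ} (y : Fin (N + 1) → M) (m : ℕ) :
    (homogeneousSubmodule (Fin (N + 1)) K m).map
      (aeval y : MvPolynomial (Fin (N + 1)) K →ₐ[K] M).toLinearMap =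
      (Submodule.span K (Set.range y)) ^ m := by
  have h1 : (homogeneousSubmodule (Fin (N + 1)) K 1).map
      (aeval y : MvPolynomial (Fin (N + 1)) K →ₐ[K] M).toLinearMap =
      Submodule.span K (Set.range y) := by
    rw [homogeneousSubmodule_one_eq_span_X, Submodule.map_span, ← Set.range_comp]
    congr 2
    funext t
    simp
  rw [← homogeneousSubmodule_one_pow, Submodule.map_pow, h1]

/-- scaling the values of a form -/
lemma aeval_scale {N : ℕ} (y : Fin (N + 1) → M) (c : M) (m : ℕ)
    (φ : MvPolynomial (Fin (N + 1)) K) (hφ : φ.IsHomogeneous m) :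
    aeval (fun t => c * y t) φ = c ^ m * aeval y φ := by
  rw [aeval_def, aeval_def, eval₂_eq', eval₂_eq', Finset.mul_sum]
  refine Finset.sum_congr rfl fun s hs => ?_
  have h4 := hφ (mem_support_iff.mp hs)
  have h5 : s.degree = m := by
    rw [← h4, Finsupp.degree_eq_weight_one]
    rfl
  have h6 : ∏ t, (c * y t) ^ s t = c ^ m * ∏ t, y t ^ s t := by
    simp_rw [mul_pow]
    rw [Finset.prod_mul_distrib, Finset.prod_pow_eq_pow_sum, ← h5, Finsupp.degree_eq_sum]
  rw [h6]
  ring

lemma aeval_gal {N : ℕ} (g : Gal(M/K)) (y : Fin (N + 1) → M) (φ : MvPolynomial (Fin (N + 1)) K) :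
    aeval (fun t => g (y t)) φ = g (aeval y φ) := by
  have h := congrArg (fun f => f φ)
    (MvPolynomial.comp_aeval (R := K) y (g : M →ₐ[K] M))
  simp only [AlgHom.coe_comp, Function.comp_apply] at h
  exact h.symm

/-- the powers of a subspace which contains `1` increase -/
lemma pow_mono {U : Submodule K M} (hU : (1 : M) ∈ U) {i j : ℕ} (h : i ≤ j) : U ^ i ≤ U ^ j := by
  have h1 : (1 : Submodule K M) ≤ U := Submodule.one_le.mpr hU
  exact pow_le_pow_right' h1 h

lemma pow_le_adjoin (U : Submodule K M) (j : ℕ) :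
    U ^ j ≤ Subalgebra.toSubmodule (Algebra.adjoin K (U : Set M)) := by
  induction j with
  | zero =>
    rw [pow_zero, Submodule.one_le]
    exact (Algebra.adjoin K (U : Set M)).one_mem
  | succ j ih =>
    rw [pow_succ, Submodule.mul_le]
    intro a ha b hb
    exact (Algebra.adjoin K (U : Set M)).mul_mem (ih ha) (Algebra.subset_adjoin hb)

lemma eq_adjoin_of_stable {U : Submodule K M} (hU : (1 : M) ∈ U) {j : ℕ}
    (h : U ^ (j + 1) = U ^ j) :
    U ^ j = Subalgebra.toSubmodule (Algebra.adjoin K (U : Set M)) := by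
  have h1 : ∀ n, U ^ (j + n) = U ^ j := by
    intro n
    induction n with
    | zero => rfl
    | succ n ih =>
      rw [← add_assoc, pow_succ, ih, ← pow_succ, h]
  have h2 : ∀ n, U ^ n ≤ U ^ j := fun n => by
    rw [← h1 n]
    exact pow_mono hU (Nat.le_add_left n j)
  have h3 : (1 : M) ∈ U ^ j := by
    have := h2 0
    rw [pow_zero, Submodule.one_le] at this
    exact this
  have h4 : ∀ x y, x ∈ U ^ j → y ∈ U ^ j → x * y ∈ U ^ j := by
    intro x y hx hy
    have := Submodule.mul_mem_mul hx hy
    rw [← pow_add] at this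
    exact h2 _ this
  refine le_antisymm (pow_le_adjoin U j) ?_
  have h5 : Algebra.adjoin K (U : Set M) ≤ (U ^ j).toSubalgebra h3 h4 := by
    rw [Algebra.adjoin_le_iff]
    intro x hx
    have := h2 1
    rw [pow_one] at this
    exact this hx
  intro x hx
  exact h5 hx

variable [FiniteDimensional K M]

/-- strict growth before stabilisation -/
lemma succ_le_finrank {U : Submodule K M} (hU : (1 : M) ∈ U) (m : ℕ)
    (hm : ∀ j < m, U ^ j ≠ Subalgebra.toSubmodule (Algebra.adjoin K (U : Set M))) :
    ∀ j ≤ m, j + 1 ≤ finrank K (U ^ j : Submodule K M) := by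
  intro j
  induction j with
  | zero =>
    intro _
    rw [pow_zero, Nat.zero_add, Nat.one_le_iff_ne_zero]
    intro h0
    rw [Submodule.finrank_eq_zero] at h0
    have : (1 : M) ∈ (1 : Submodule K M) := Submodule.one_le.mp le_rfl
    rw [h0, Submodule.mem_bot] at this
    exact one_ne_zero this
  | succ j ih =>
    intro hj
    have h1 := ih (by omega)
    have h2 : U ^ j < U ^ (j + 1) := by
      refine lt_of_le_of_ne (pow_mono hU (Nat.le_succ j)) fun h => ?_
      exact hm j (by omega) (eq_adjoin_of_stable hU h.symm)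
    have h3 := Submodule.finrank_lt_finrank_of_lt h2
    omega

/-- the least exponent with which the powers of `U` fill the generated algebra -/
lemma exists_least {U : Submodule K M} (hU : (1 : M) ∈ U) :
    ∃ m : ℕ, U ^ m = Subalgebra.toSubmodule (Algebra.adjoin K (U : Set M)) ∧
      (∀ j < m, U ^ j ≠ Subalgebra.toSubmodule (Algebra.adjoin K (U : Set M))) ∧
      m ≤ finrank K (Algebra.adjoin K (U : Set M)) := by
  classical
  have hex : ∃ m : ℕ, U ^ m = Subalgebra.toSubmodule (Algebra.adjoin K (U : Set M)) := by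
    by_contra hno
    push Not at hno
    have h1 := succ_le_finrank hU (finrank K M) (fun j _ => hno j) (finrank K M) le_rfl
    have h2 := Submodule.finrank_le (U ^ finrank K M)
    omega
  refine ⟨Nat.find hex, Nat.find_spec hex, fun j hj => Nat.find_min hex hj, ?_⟩
  have h1 := succ_le_finrank hU (Nat.find hex) (fun j hj => Nat.find_min hex hj) _ le_rfl
  rw [Nat.find_spec hex] at h1
  exact (Nat.le_succ _).trans h1

end powers

section orbit

variable {K M : Type} [Field K] [Field M] [Algebra K M] [FiniteDimensional K M]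

/-- the upper bound for the Hilbert function -/
lemma finrank_EL_le_pow {N : ℕ} (y : Fin (N + 1) → M) (c : M) {ι : Type} [Fintype ι]
    (g : ι → Gal(M/K)) (s : ℕ) :
    finrank M (EL K (fun i t => g i (c * y t)) s) ≤
      finrank K ((Submodule.span K (Set.range y)) ^ s : Submodule K M) := by
  classical
  set W : Submodule K M := (Submodule.span K (Set.range y)) ^ s with hW
  let b := Module.finBasis K W
  let V : Fin (finrank K W) → ι → M := fun j i => (g i c) ^ s * g i (b j : M)
  have h1 : EL K (fun i t => g i (c * y t)) s ≤ Submodule.span M (Set.range V) := by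
    unfold EL
    rw [Submodule.span_le]
    rintro _ ⟨φ, hφ, rfl⟩
    have hw : aeval y φ ∈ W := by
      rw [hW, ← forms_map]
      exact ⟨φ, hφ, rfl⟩
    have hrep := b.sum_repr ⟨aeval y φ, hw⟩
    have hrep2 : aeval y φ = ∑ j, (b.repr ⟨aeval y φ, hw⟩ j) • (b j : M) := by
      have := congrArg (fun w : W => (w : M)) hrep
      simp only [AddSubmonoidClass.coe_finsetSum, SetLike.val_smul] at this
      exact this.symm
    have h2 : (fun i => aeval (fun t => g i (c * y t)) φ) =
        ∑ j, (algebraMap K M (b.repr ⟨aeval y φ, hw⟩ j)) • V j := by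
      funext i
      rw [Finset.sum_apply, aeval_gal, aeval_scale y c s φ hφ, map_mul, map_pow]
      simp only [Pi.smul_apply, smul_eq_mul, V]
      conv_lhs => rw [hrep2]
      rw [map_sum, Finset.mul_sum]
      refine Finset.sum_congr rfl fun j _ => ?_
      rw [map_smul, Algebra.smul_def]
      ring
    rw [SetLike.mem_coe, h2]
    exact Submodule.sum_mem _ fun j _ => Submodule.smul_mem _ _ (Submodule.subset_span ⟨j, rfl⟩)
  refine (Submodule.finrank_mono h1).trans ((finrank_range_le_card V).trans (le_of_eq ?_))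
  rw [Fintype.card_fin]

/-- two elements of the Galois group which agree on `y` and on `c` up to a constant -/
lemma EL_eq_top {N : ℕ} (y : Fin (N + 1) → M) (c : M) (hc : c ≠ 0) {ι : Type} [Fintype ι]
    (g : ι → Gal(M/K)) (R : Subalgebra K M)
    (hinj : ∀ i j : ι, (∀ w ∈ R, g i w = g j w) → i = j) (m : ℕ)
    (hm : (Submodule.span K (Set.range y)) ^ m = Subalgebra.toSubmodule R) :
    EL K (fun i t => g i (c * y t)) m = ⊤ := by
  classical
  by_contra hne
  obtain ⟨f, hf0, hf⟩ := Submodule.exists_le_ker_of_lt_top _ (lt_top_iff_ne_top.mpr hne)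
  have hfs : ∀ v : ι → M, f v = ∑ i, v i • f (fun j => if i = j then 1 else 0) := by
    intro v
    exact LinearMap.pi_apply_eq_sum_univ f v
  let χ : ι → (R →* M) := fun i => ((g i : M →ₐ[K] M) : M →* M).comp (R.val : R →* M)
  have hχ : Function.Injective χ := by
    intro i j hij
    refine hinj i j fun w hw => ?_
    have := congrArg (fun h : R →* M => h ⟨w, hw⟩) hij
    simpa [χ] using this
  have hli := (linearIndependent_monoidHom R M).comp χ hχ
  rw [Fintype.linearIndependent_iff] at hli
  have hz := hli (fun i => (g i c) ^ m * f (fun j => if i = j then 1 else 0)) (by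
    funext w
    rw [Finset.sum_apply]
    simp only [Function.comp_apply, Pi.smul_apply, smul_eq_mul, Pi.zero_apply]
    have hw : (w : M) ∈ (Submodule.span K (Set.range y)) ^ m := by
      rw [hm]
      exact w.2
    rw [← forms_map] at hw
    obtain ⟨φ, hφ, hφw⟩ := hw
    have hmem : (fun i => aeval (fun t => g i (c * y t)) φ) ∈
        EL K (fun i t => g i (c * y t)) m := Submodule.subset_span ⟨φ, hφ, rfl⟩
    have h0 := hf hmem
    rw [LinearMap.mem_ker, hfs] at h0
    refine Eq.trans ?_ h0
    refine Finset.sum_congr rfl fun i _ => ?_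
    have h1 : aeval (fun t => g i (c * y t)) φ = (g i c) ^ m * g i (w : M) := by
      rw [aeval_gal, aeval_scale y c m φ hφ, map_mul, map_pow]
      congr 2
    rw [h1, smul_eq_mul]
    have h2 : χ i w = g i (w : M) := rfl
    rw [h2]
    ring)
  apply hf0
  refine LinearMap.ext fun v => ?_
  rw [hfs v, LinearMap.zero_apply]
  refine Finset.sum_eq_zero fun i _ => ?_
  have h1 := hz i
  have h2 : (g i c) ^ m ≠ 0 := pow_ne_zero _ (by
    rw [Ne, map_eq_zero_iff _ (g i).injective]
    exact hc)
  rcases mul_eq_zero.mp h1 with h | h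
  · exact absurd h h2
  · rw [h, smul_zero]

/-- the degree of the field generated by `U` -/
lemma finrank_adjoin_eq_card [IsGalois K M] (U : Submodule K M) {ι : Type} [Fintype ι]
    (g : ι → Gal(M/K))
    (hinj : ∀ i j : ι, (∀ w ∈ Algebra.adjoin K (U : Set M), g i w = g j w) → i = j)
    (hsurj : ∀ σ : Gal(M/K), ∃ i : ι, ∀ w ∈ Algebra.adjoin K (U : Set M), σ w = g i w) :
    finrank K (Algebra.adjoin K (U : Set M)) = Fintype.card ι := by
  classical
  set F : IntermediateField K M := IntermediateField.adjoin K (U : Set M) with hF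
  have hFA : F.toSubalgebra = Algebra.adjoin K (U : Set M) :=
    IntermediateField.adjoin_toSubalgebra (U : Set M)
  have hmemF : ∀ x : M, x ∈ F ↔ x ∈ Algebra.adjoin K (U : Set M) := by
    intro x
    rw [← hFA]
    rfl
  have h1 : finrank K (Algebra.adjoin K (U : Set M)) = finrank K F := by
    rw [← hFA]
    rfl
  have h2 : Fintype.card (F →ₐ[K] M) = finrank K F := by
    refine AlgHom.card_of_splits K F M fun x => ?_
    have h3 := Normal.splits (inferInstance : Normal K M) (x : M)
    rw [IntermediateField.minpoly_eq]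
    exact h3
  rw [h1, ← h2]
  symm
  refine Fintype.card_of_bijective (f := fun i => (g i : M →ₐ[K] M).comp F.val) ⟨?_, ?_⟩
  · intro i j hij
    refine hinj i j fun w hw => ?_
    have := congrArg (fun h : F →ₐ[K] M => h ⟨w, (hmemF w).mpr hw⟩) hij
    simpa using this
  · intro τ
    let σ' : M →ₐ[K] M := τ.liftNormal M
    let σ : Gal(M/K) := AlgEquiv.ofBijective σ' (AlgHom.normal_bijective K M M _)
    obtain ⟨i, hi⟩ := hsurj σ
    refine ⟨i, ?_⟩
    refine AlgHom.ext fun w => ?_
    have h4 := hi (w : M) ((hmemF _).mp w.2)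
    have h5 : σ (w : M) = τ w := AlgHom.liftNormal_commutes τ M w
    simp only [AlgHom.coe_comp, Function.comp_apply]
    rw [← h5, h4]
    rfl

end orbit

end Pool.Agent.NH29.QL.OrAux

namespace Pool.Agent.NH29.QL

open NumberField Module MvPolynomial
open Pool.Agent.W238.Leh OrAux

/-- the Hilbert function of a Galois orbit -/
theorem orbit (hG : GrowthStm) : OrbitStm := by
  intro K M _ _ _ _ _ _ N z hz ι _ g hdist hcov
  classical
  have : FiniteDimensional K M := Module.Finite.of_restrictScalars_finite ℚ K M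
  have : Infinite K := CharZero.infinite K
  obtain ⟨t₀, ht₀⟩ : ∃ t, z t ≠ 0 := Function.ne_iff.mp hz
  set c : M := z t₀ with hc
  set y : Fin (N + 1) → M := fun t => z t / c with hy
  have hzy : ∀ t, z t = c * y t := fun t => by
    simp only [hy]
    rw [mul_div_cancel₀ _ ht₀]
  have hzfun : (fun i t => g i (z t)) = fun i t => g i (c * y t) := by
    funext i t
    rw [hzy t]
  set U : Submodule K M := Submodule.span K (Set.range y) with hU
  have h1U : (1 : M) ∈ U := by
    refine Submodule.subset_span ⟨t₀, ?_⟩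
    simp only [hy]
    exact div_self ht₀
  have hyU : ∀ t, y t ∈ U := fun t => Submodule.subset_span ⟨t, rfl⟩
  have hagree : ∀ σ τ : Gal(M/K), (∀ t, σ (y t) = τ (y t)) →
      ∀ w ∈ Algebra.adjoin K (U : Set M), σ w = τ w := by
    intro σ τ hst
    have h1 : Algebra.adjoin K (U : Set M) ≤
        AlgHom.equalizer (σ : M →ₐ[K] M) (τ : M →ₐ[K] M) := by
      rw [Algebra.adjoin_le_iff]
      have h2 : U ≤ Subalgebra.toSubmodule
          (AlgHom.equalizer (σ : M →ₐ[K] M) (τ : M →ₐ[K] M)) := by
        rw [hU, Submodule.span_le]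
        rintro _ ⟨t, rfl⟩
        exact hst t
      exact h2
    intro w hw
    exact h1 hw
  have hinj : ∀ i j : ι, (∀ w ∈ Algebra.adjoin K (U : Set M), g i w = g j w) → i = j := by
    intro i j hij
    have hci : g i c ≠ 0 := by
      rw [Ne, map_eq_zero_iff _ (g i).injective]
      exact ht₀
    have hcj : g j c ≠ 0 := by
      rw [Ne, map_eq_zero_iff _ (g j).injective]
      exact ht₀
    refine hdist i j (g i c / g j c) (div_ne_zero hci hcj) ?_
    funext t
    simp only [Pi.smul_apply, smul_eq_mul]
    rw [hzy t, map_mul, map_mul, hij (y t) (Algebra.subset_adjoin (hyU t))]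
    field_simp
  have hsurj : ∀ σ : Gal(M/K), ∃ i : ι, ∀ w ∈ Algebra.adjoin K (U : Set M), σ w = g i w := by
    intro σ
    obtain ⟨i, d, hd, hid⟩ := hcov σ
    refine ⟨i, hagree σ (g i) fun t => ?_⟩
    have h1 : ∀ t, σ (z t) = d * g i (z t) := fun t => by
      have := congrFun hid t
      simpa using this
    simp only [hy]
    rw [map_div₀, map_div₀, h1 t, hc, h1 t₀, mul_div_mul_left _ _ hd]
  have hcard := finrank_adjoin_eq_card U g hinj hsurj
  obtain ⟨m, hm, hlt, hle⟩ := exists_least h1U
  refine ⟨m, hcard ▸ hle, ?_, ?_⟩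
  · rw [hzfun, EL_eq_top y c ht₀ g (Algebra.adjoin K (U : Set M)) hinj m hm, finrank_top,
      Module.finrank_fintype_fun_eq_card]
  · intro s hs
    have h1 := hG K M U h1U m hlt s hs
    rw [hcard] at h1
    rw [hzfun]
    exact (Nat.mul_le_mul_right m (finrank_EL_le_pow y c g s)).trans h1

end Pool.Agent.NH29.QL
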