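import Pool.Agent.NH29.QL.Stm

/-!
Project QL, QL-5 (helper17): choice of the parameters.
-/

set_option autoImplicit false

namespace Pool.Agent.NH29.QL

namespace Pa

theorem natlog_le {n : ℕ} (hn : 1 ≤ n) : (Nat.log 2 n : ℝ) ≤ 2 * Real.log n := by
  have h1 : 2 ^ Nat.log 2 n ≤ n := Nat.pow_log_le_self 2 (by omega)
  have h2 : (2 : ℝ) ^ Nat.log 2 n ≤ n := by exact_mod_cast h1
  have h3 := Real.log_le_log (by positivity) h2
  rw [Real.log_pow] at h3
  have h4 : (1 : ℝ) / 2 ≤ Real.log 2 := by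
    have := Real.log_two_gt_d9
    linarith
  have h5 : (0 : ℝ) ≤ Nat.log 2 n := Nat.cast_nonneg _
  have h6 := mul_le_mul_of_nonneg_left h4 h5
  linarith

end Pa

theorem param : ParamStm := by
  intro lp E hlp hE N q hN hq
  set E' : ℝ := 5 * E + 2 with hE'
  have hE'0 : 0 < E' := by positivity
  have hN' : (1 : ℝ) ≤ N := by exact_mod_cast hN
  have hq' : (2 : ℝ) ≤ q := by exact_mod_cast hq
  have hlq : 0 < Real.log q := Real.log_pos (by linarith)
  set C₁ : ℝ := 1 + 2 * E' * (N + 1) / lp with hC₁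
  have hC₁1 : 1 ≤ C₁ := by
    have : 0 ≤ 2 * E' * (N + 1) / lp := by positivity
    linarith
  have hC₁a : 2 * E' * N ≤ lp * C₁ := by
    have h1 : lp * C₁ = lp + 2 * E' * (N + 1) := by
      rw [hC₁]
      field_simp
    rw [h1]
    have h2 : 2 * E' * (N + 1) = 2 * E' * N + 2 * E' := by ring
    linarith
  have hC₁b : 2 * E' ≤ lp * C₁ := by
    refine le_trans ?_ hC₁a
    exact le_mul_of_one_le_right (by linarith) hN'
  set C₂ : ℝ := 4 * (2 * C₁) ^ N * (3 + 2 * Real.log q) with hC₂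
  have hC₂0 : 0 < C₂ := by positivity
  refine ⟨C₂, hC₂0, ?_⟩
  intro D hD
  have hD' : (1 : ℝ) ≤ D := by exact_mod_cast hD
  have hlD : 0 ≤ Real.log D := Real.log_nonneg hD'
  set Λ : ℝ := 1 + Real.log D with hΛ
  have hΛ1 : 1 ≤ Λ := by linarith
  set α : ℝ := 1 / ((N : ℝ) + 1) with hα
  have hα0 : 0 < α := by positivity
  have hΛα : 1 ≤ Λ ^ α := Real.one_le_rpow hΛ1 hα0.le
  set s : ℕ := ⌈C₁ * Λ ^ α⌉₊ with hs
  have hs1 : C₁ * Λ ^ α ≤ s := Nat.le_ceil _
  have hs2 : (s : ℝ) ≤ 2 * C₁ * Λ ^ α := by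
    have h1 : (s : ℝ) < C₁ * Λ ^ α + 1 := Nat.ceil_lt_add_one (by positivity)
    have h2 : 1 ≤ C₁ * Λ ^ α := one_le_mul_of_one_le_of_one_le hC₁1 hΛα
    linarith
  have hsC : C₁ ≤ s := by
    refine le_trans ?_ hs1
    exact le_mul_of_one_le_right (by linarith) hΛα
  have hs3 : (1 : ℝ) ≤ s := hC₁1.trans hsC
  have hs3' : 1 ≤ s := by exact_mod_cast hs3
  set k : ℕ := 4 * s ^ N with hk
  have hk1 : 1 ≤ k := by
    have : 1 ≤ s ^ N := Nat.one_le_pow _ _ hs3'
    omega
  have hk1' : (1 : ℝ) ≤ k := by exact_mod_cast hk1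
  have hk' : (k : ℝ) = 4 * (s : ℝ) ^ N := by rw [hk]; push_cast; ring
  have hkD : 1 ≤ k * D := Nat.mul_pos hk1 hD
  refine ⟨s, k, hk1, le_rfl, ?_, ?_⟩
  · -- the first inequality
    have hsN1 : lp * Λ * C₁ ≤ lp * (s : ℝ) ^ (N + 1) := by
      have h2 : (C₁ * Λ ^ α) ^ (N + 1) ≤ (s : ℝ) ^ (N + 1) :=
        pow_le_pow_left₀ (by positivity) hs1 _
      have h3 : (C₁ * Λ ^ α) ^ (N + 1) = C₁ ^ (N + 1) * Λ := by
        rw [mul_pow]
        congr 1
        rw [← Real.rpow_natCast, ← Real.rpow_mul (by linarith)]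
        have : α * ((N + 1 : ℕ) : ℝ) = 1 := by
          rw [hα]
          push_cast
          field_simp
        rw [this, Real.rpow_one]
      have h4 : C₁ ≤ C₁ ^ (N + 1) := le_self_pow₀ hC₁1 (by omega)
      rw [h3] at h2
      have h5 : C₁ * Λ ≤ C₁ ^ (N + 1) * Λ := mul_le_mul_of_nonneg_right h4 (by linarith)
      calc lp * Λ * C₁ = lp * (C₁ * Λ) := by ring
        _ ≤ lp * (s : ℝ) ^ (N + 1) := mul_le_mul_of_nonneg_left (h5.trans h2) hlp.le
    have hlogs : Real.log s ≤ s := by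
      have := Real.log_le_sub_one_of_pos (show (0 : ℝ) < s by linarith)
      linarith
    have hlkD : Real.log (k * D : ℕ) ≤ N * s + Λ + 1 := by
      push_cast
      rw [Real.log_mul (by linarith) (by linarith), hk', Real.log_mul (by norm_num) (by positivity),
        Real.log_pow]
      have h2 : Real.log 4 ≤ 2 := by
        have h4 : Real.log 4 = 2 * Real.log 2 := by
          rw [show (4:ℝ) = 2 ^ 2 by norm_num, Real.log_pow]
          norm_num
        have := Real.log_two_lt_d9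
        linarith
      have h3 : (N : ℝ) * Real.log s ≤ N * s := mul_le_mul_of_nonneg_left hlogs (by linarith)
      linarith
    have hlkD2 : Real.log (2 * k * D : ℕ) ≤ N * s + Λ + 2 := by
      have e : ((2 * k * D : ℕ) : ℝ) = 2 * ((k * D : ℕ) : ℝ) := by push_cast; ring
      have hpos : (0:ℝ) < ((k * D : ℕ) : ℝ) := by exact_mod_cast hkD
      rw [e, Real.log_mul (by norm_num) hpos.ne']
      have := Real.log_two_lt_d9
      linarith
    have hnl := Pa.natlog_le (n := 2 * k * D) (by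
      have : 2 * k * D = 2 * (k * D) := by ring
      omega)
    have hNs : 1 ≤ (N : ℝ) * s := one_le_mul_of_one_le_of_one_le hN' hs3
    have hR : E * (1 + Nat.log 2 (2 * k * D) : ℕ) + Real.log (k * D : ℕ) + 1 ≤
        E' * (N * s + Λ) := by
      push_cast at hnl hlkD hlkD2 ⊢
      have h2 : E * (1 + (Nat.log 2 (2 * k * D) : ℝ)) ≤ E * (1 + 2 * (N * s + Λ + 2)) := by
        apply mul_le_mul_of_nonneg_left _ hE
        linarith
      have h0 : 2 ≤ (N : ℝ) * s + Λ := by linarith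
      have h3 : E * 2 ≤ E * (N * s + Λ) := mul_le_mul_of_nonneg_left h0 hE
      have h4 : E' * (N * s + Λ) = 5 * (E * (N * s + Λ)) + 2 * (N * s + Λ) := by
        rw [hE']
        ring
      have h5 : E * (1 + 2 * (N * s + Λ + 2)) = 5 * E + 2 * (E * (N * s + Λ)) := by ring
      linarith
    have hL : E' * (N * s + Λ) ≤ lp * (1 + (k : ℝ)) * s / 4 := by
      have h2 : lp * (s : ℝ) ^ (N + 1) ≤ lp * (1 + (k : ℝ)) * s / 4 := by
        have h3 : 0 ≤ lp * s := by positivity
        have h4 : lp * (1 + (k : ℝ)) * s / 4 = lp * s / 4 + lp * (s : ℝ) ^ (N + 1) := by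
          rw [hk']
          ring
        linarith
      refine le_trans ?_ h2
      have h3 : 2 * (E' * (N * s)) ≤ lp * (s : ℝ) ^ (N + 1) := by
        have h4 : (s : ℝ) ≤ (s : ℝ) ^ N := le_self_pow₀ hs3 (by omega)
        have h5 : lp * C₁ ≤ lp * (s : ℝ) ^ N :=
          mul_le_mul_of_nonneg_left (hsC.trans h4) hlp.le
        rw [pow_succ]
        calc 2 * (E' * (N * s)) = (2 * E' * N) * s := by ring
          _ ≤ (lp * (s : ℝ) ^ N) * s := by
            apply mul_le_mul_of_nonneg_right _ (by linarith)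
            linarith
          _ = _ := by ring
      have h4 : 2 * (E' * Λ) ≤ lp * (s : ℝ) ^ (N + 1) := by
        refine le_trans ?_ hsN1
        calc 2 * (E' * Λ) = (2 * E') * Λ := by ring
          _ ≤ (lp * C₁) * Λ := mul_le_mul_of_nonneg_right hC₁b (by linarith)
          _ = _ := by ring
      linarith
    exact hR.trans hL
  · -- the second inequality
    have hsN : (s : ℝ) ^ N ≤ (2 * C₁) ^ N * Λ ^ ((N : ℝ) / (N + 1)) := by
      have h2 : (s : ℝ) ^ N ≤ (2 * C₁ * Λ ^ α) ^ N := pow_le_pow_left₀ (by linarith) hs2 N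
      refine h2.trans (le_of_eq ?_)
      rw [mul_pow]
      congr 1
      rw [← Real.rpow_natCast, ← Real.rpow_mul (by linarith)]
      congr 1
      rw [hα]
      ring
    have hΛk : Λ ≤ (k : ℝ) ^ 2 := by
      have h2 : (Λ ^ α) ^ (N + 1) ≤ (s : ℝ) ^ (N + 1) := by
        refine pow_le_pow_left₀ (by positivity) ?_ _
        refine le_trans ?_ hs1
        exact le_mul_of_one_le_left (by positivity) hC₁1
      have h3 : (Λ ^ α) ^ (N + 1) = Λ := by
        rw [← Real.rpow_natCast, ← Real.rpow_mul (by linarith)]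
        have : α * ((N + 1 : ℕ) : ℝ) = 1 := by
          rw [hα]
          push_cast
          field_simp
        rw [this, Real.rpow_one]
      rw [h3] at h2
      have h4 : (s : ℝ) ^ (N + 1) ≤ (s : ℝ) ^ (2 * N) := pow_le_pow_right₀ hs3 (by omega)
      have h5 : (s : ℝ) ^ (2 * N) = ((s : ℝ) ^ N) ^ 2 := by rw [← pow_mul, mul_comm]
      have h6 : (s : ℝ) ^ N ≤ k := by
        rw [hk']
        have : (0:ℝ) ≤ (s : ℝ) ^ N := by positivity
        linarith
      have h7 : ((s : ℝ) ^ N) ^ 2 ≤ (k : ℝ) ^ 2 := pow_le_pow_left₀ (by positivity) h6 2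
      linarith
    have hkexp : (1 + Real.log D) * k * (q : ℝ) ^ (2 * k) ≤
        Real.exp (k * (3 + 2 * Real.log q)) := by
      have h3 : (k : ℝ) ≤ Real.exp k := by
        have := Real.add_one_le_exp (k : ℝ)
        linarith
      have h4 : (q : ℝ) ^ (2 * k) = Real.exp (2 * (k * Real.log q)) := by
        have h5 : (q : ℝ) ^ (2 * k) = Real.exp (((2 * k : ℕ) : ℝ) * Real.log q) := by
          rw [Real.exp_nat_mul, Real.exp_log (by linarith)]
        rw [h5]
        congr 1
        push_cast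
        ring
      have h5 : (1 + Real.log D) * k ≤ Real.exp k ^ 3 := by
        calc Λ * k ≤ (k : ℝ) ^ 2 * k := mul_le_mul_of_nonneg_right hΛk (by linarith)
          _ = (k : ℝ) ^ 3 := by ring
          _ ≤ Real.exp k ^ 3 := pow_le_pow_left₀ (by linarith) h3 3
      rw [h4]
      calc (1 + Real.log D) * k * Real.exp (2 * (k * Real.log q)) ≤
          Real.exp k ^ 3 * Real.exp (2 * (k * Real.log q)) :=
            mul_le_mul_of_nonneg_right h5 (Real.exp_pos _).le
        _ = _ := by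
          rw [← Real.exp_nat_mul, ← Real.exp_add]
          congr 1
          push_cast
          ring
    have hkC : (k : ℝ) * (3 + 2 * Real.log q) ≤ C₂ * Λ ^ ((N : ℝ) / (N + 1)) := by
      calc (k : ℝ) * (3 + 2 * Real.log q) = (s : ℝ) ^ N * (4 * (3 + 2 * Real.log q)) := by
            rw [hk']; ring
        _ ≤ ((2 * C₁) ^ N * Λ ^ ((N : ℝ) / (N + 1))) * (4 * (3 + 2 * Real.log q)) := by
            gcongr
        _ = C₂ * Λ ^ ((N : ℝ) / (N + 1)) := by rw [hC₂]; ring
    exact hkexp.trans (Real.exp_le_exp.mpr hkC)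

end Pool.Agent.NH29.QL
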