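import Pool.Agent.NH29.QL.Stm

/-!
# QL-4: unions of point sets (helper80)
-/

set_option autoImplicit false
set_option linter.unusedSectionVars false

namespace Pool.Agent.NH29.QL

open NumberField Module MvPolynomial
open Pool.Agent.W238.Leh

namespace Un

variable {K : Type} [Field K] {M : Type} [Field M] [Algebra K M] {N : ℕ} {ι : Type} [Fintype ι]

theorem mul_EL {p : ι → Fin (N + 1) → M} {a b : ℕ} {x y : ι → M} (hx : x ∈ EL K p a)
    (hy : y ∈ EL K p b) : (fun i => x i * y i) ∈ EL K p (a + b) := by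
  refine Submodule.span_induction (p := fun x _ => (fun i => x i * y i) ∈ EL K p (a + b))
    ?_ ?_ ?_ ?_ hx
  · rintro _ ⟨φ, hφ, rfl⟩
    refine Submodule.span_induction
      (p := fun y _ => (fun i => aeval (p i) φ * y i) ∈ EL K p (a + b)) ?_ ?_ ?_ ?_ hy
    · rintro _ ⟨ψ, hψ, rfl⟩
      refine Submodule.subset_span ⟨φ * ψ, hφ.mul hψ, ?_⟩
      funext i
      rw [map_mul]
    · have : (fun i => aeval (p i) φ * (0 : ι → M) i) = 0 := by
        funext i
        simp
      rw [this]
      exact Submodule.zero_mem _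
    · intro u v _ _ hu hv
      have : (fun i => aeval (p i) φ * (u + v) i) =
          (fun i => aeval (p i) φ * u i) + fun i => aeval (p i) φ * v i := by
        funext i
        simp [mul_add]
      rw [this]
      exact Submodule.add_mem _ hu hv
    · intro c u _ hu
      have : (fun i => aeval (p i) φ * (c • u) i) = c • fun i => aeval (p i) φ * u i := by
        funext i
        simp [mul_left_comm]
      rw [this]
      exact Submodule.smul_mem _ _ hu
  · have : (fun i => (0 : ι → M) i * y i) = 0 := by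
      funext i
      simp
    rw [this]
    exact Submodule.zero_mem _
  · intro u v _ _ hu hv
    have : (fun i => (u + v) i * y i) = (fun i => u i * y i) + fun i => v i * y i := by
      funext i
      simp [add_mul]
    rw [this]
    exact Submodule.add_mem _ hu hv
  · intro c u _ hu
    have : (fun i => (c • u) i * y i) = c • fun i => u i * y i := by
      funext i
      simp [mul_assoc]
    rw [this]
    exact Submodule.smul_mem _ _ hu

theorem pow_EL (p : ι → Fin (N + 1) → M) (s : Fin (N + 1)) (m : ℕ) :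
    (fun i => p i s ^ m) ∈ EL K p m := by
  refine Submodule.subset_span ⟨X s ^ m, ?_, ?_⟩
  · have := (isHomogeneous_X K s).pow m
    rwa [one_mul] at this
  · funext i
    rw [map_pow, aeval_X]

theorem wedge_ne {y y' : Fin (N + 1) → M} (hy' : y' ≠ 0)
    (h : ∀ b : M, y ≠ b • y') : ∃ s t, y s * y' t - y t * y' s ≠ 0 := by
  by_contra hcon
  push Not at hcon
  obtain ⟨j, hj⟩ : ∃ j, y' j ≠ 0 := Function.ne_iff.mp hy'
  apply h (y j / y' j)
  funext i
  have h2 := hcon i j
  simp only [Pi.smul_apply, smul_eq_mul]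
  field_simp
  linear_combination h2

theorem card_le {p : ι → Fin (N + 1) → M} {m : ℕ}
    (h1 : ∀ i : ι, ∃ x ∈ EL K p m, x i ≠ 0 ∧ ∀ j, j ≠ i → x j = 0) :
    Fintype.card ι ≤ finrank M (EL K p m) := by
  classical
  choose x hx hx0 hxU using h1
  have hli : LinearIndependent M x := by
    rw [Fintype.linearIndependent_iff]
    intro g hg i
    have h2 := congrFun hg i
    rw [Finset.sum_apply, Finset.sum_eq_single i] at h2
    · simp only [Pi.smul_apply, smul_eq_mul, Pi.zero_apply] at h2
      exact (mul_eq_zero.mp h2).resolve_right (hx0 i)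
    · intro j _ hji
      simp only [Pi.smul_apply, smul_eq_mul]
      rw [hxU j i hji.symm, mul_zero]
    · intro h
      exact absurd (Finset.mem_univ i) h
  have h3 := finrank_span_eq_card hli
  have h4 : Submodule.span M (Set.range x) ≤ EL K p m := by
    rw [Submodule.span_le]
    rintro _ ⟨i, rfl⟩
    exact hx i
  have h5 := Submodule.finrank_mono h4
  rwa [h3] at h5

/-- forms with prescribed values on a level -/
theorem surj {κ : Type} [Fintype κ] (p : ι → Fin (N + 1) → M) (e : κ → ι) (m : ℕ)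
    (h : Fintype.card κ ≤ finrank M (EL K (fun y => p (e y)) m)) (w : κ → M) :
    ∃ x ∈ EL K p m, ∀ y, x (e y) = w y := by
  obtain ⟨R, hR⟩ : ∃ R : (ι → M) →ₗ[M] (κ → M), R = LinearMap.funLeft M M e := ⟨_, rfl⟩
  have h1 : EL K (fun k => p (e k)) m ≤ (EL K p m).map R := by
    unfold EL
    rw [Submodule.span_le]
    rintro _ ⟨φ, hφ, rfl⟩
    exact ⟨fun i => aeval (p i) φ, Submodule.subset_span ⟨φ, hφ, rfl⟩, by rw [hR]; rfl⟩
  have h2 : EL K (fun k => p (e k)) m = ⊤ := by
    apply Submodule.eq_top_of_finrank_eq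
    refine le_antisymm (Submodule.finrank_le _) ?_
    rw [Module.finrank_fintype_fun_eq_card]
    exact h
  have h3 : w ∈ (EL K p m).map R := h1 (by rw [h2]; trivial)
  obtain ⟨x, hx, hxw⟩ := h3
  refine ⟨x, hx, fun y => ?_⟩
  rw [← hxw, hR]
  rfl

/-- forms vanishing on a level and not at another point -/
theorem other {κ : Type} [Fintype κ] {p : ι → Fin (N + 1) → M} (hp : ∀ i, p i ≠ 0)
    (hne : ∀ i j, i ≠ j → ∀ b : M, p i ≠ b • p j) (e : κ → ι) (m : ℕ)
    (h : Fintype.card κ ≤ finrank M (EL K (fun y => p (e y)) m)) (i₀ : ι)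
    (hi : ∀ y, i₀ ≠ e y) :
    ∃ x ∈ EL K p (m + 1), x i₀ ≠ 0 ∧ ∀ y, x (e y) = 0 := by
  classical
  have h1 : ∀ y' : κ, ∃ x ∈ EL K p m, ∀ y, x (e y) = if y = y' then 1 else 0 := fun y' =>
    surj p e m h _
  choose E hE hE2 using h1
  by_cases hex : ∃ y', E y' i₀ ≠ 0
  · obtain ⟨y', hy'⟩ := hex
    obtain ⟨s, t, hst⟩ := wedge_ne (hp (e y')) (hne i₀ (e y') (hi y'))
    refine ⟨p (e y') t • (fun j => p j s * E y' j) - p (e y') s • (fun j => p j t * E y' j),
      Submodule.sub_mem _ (Submodule.smul_mem _ _ (mul_mem_EL (hE y') s))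
        (Submodule.smul_mem _ _ (mul_mem_EL (hE y') t)), ?_, ?_⟩
    · simp only [Pi.sub_apply, Pi.smul_apply, smul_eq_mul]
      have h1 : p (e y') t * (p i₀ s * E y' i₀) - p (e y') s * (p i₀ t * E y' i₀) =
          (p i₀ s * p (e y') t - p i₀ t * p (e y') s) * E y' i₀ := by ring
      rw [h1]
      exact mul_ne_zero hst hy'
    · intro y
      simp only [Pi.sub_apply, Pi.smul_apply, smul_eq_mul]
      rw [hE2 y' y]
      by_cases hy : y = y'
      · rw [hy]
        ring
      · rw [if_neg hy]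
        ring
  · push Not at hex
    obtain ⟨s, hs⟩ : ∃ s, p i₀ s ≠ 0 := Function.ne_iff.mp (hp i₀)
    obtain ⟨x, hx⟩ : ∃ x : ι → M, x = (fun i => p i s ^ m) - ∑ y', (p (e y') s ^ m) • E y' :=
      ⟨_, rfl⟩
    have hx1 : x ∈ EL K p m := by
      rw [hx]
      exact Submodule.sub_mem _ (pow_EL p s m)
        (Submodule.sum_mem _ fun y' _ => Submodule.smul_mem _ _ (hE y'))
    refine ⟨_, mul_mem_EL hx1 s, ?_, fun y => ?_⟩
    · have : x i₀ = p i₀ s ^ m := by
        rw [hx, Pi.sub_apply, Finset.sum_apply, Finset.sum_eq_zero, sub_zero]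
        intro y' _
        rw [Pi.smul_apply, hex y', smul_zero]
      change p i₀ s * x i₀ ≠ 0
      rw [this]
      exact mul_ne_zero hs (pow_ne_zero _ hs)
    · change p (e y) s * x (e y) = 0
      have : x (e y) = 0 := by
        rw [hx, Pi.sub_apply, Finset.sum_apply, Finset.sum_eq_single y, Pi.smul_apply, hE2 y y,
          if_pos rfl, smul_eq_mul, mul_one, sub_self]
        · intro y' _ hy'
          rw [Pi.smul_apply, hE2 y' y, if_neg (Ne.symm hy'), smul_zero]
        · intro h
          exact absurd (Finset.mem_univ y) h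
      rw [this, mul_zero]

end Un

open Un

theorem union : UnionStm := by
  classical
  intro K M _ _ _ _ _ N k κ _ p hp hne m hm
  refine card_le fun P => ?_
  obtain ⟨j, y⟩ := P
  -- the level of the point
  obtain ⟨x, hx, hx2⟩ := surj (K := K) p (fun y' : κ j => (⟨j, y'⟩ : Σ j, κ j)) (m j) (hm j)
    (fun y' => if y' = y then 1 else 0)
  -- the other levels
  have hother : ∀ U : Finset (Fin k), j ∉ U → ∃ z ∈ EL K p (∑ j' ∈ U, (m j' + 1)),
      z ⟨j, y⟩ ≠ 0 ∧ ∀ j' ∈ U, ∀ y', z ⟨j', y'⟩ = 0 := by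
    intro U
    induction U using Finset.induction_on with
    | empty =>
      intro _
      exact ⟨fun _ => 1, one_mem_EL p, one_ne_zero, by simp⟩
    | insert a U ha ih =>
      intro hj
      rw [Finset.mem_insert, not_or] at hj
      obtain ⟨z, hz, hz0, hzU⟩ := ih hj.2
      obtain ⟨u, hu, hu0, huU⟩ := other (K := K) hp hne (fun y' : κ a => (⟨a, y'⟩ : Σ j, κ j))
        (m a) (hm a) ⟨j, y⟩ (fun y' h => hj.1 (congrArg Sigma.fst h))
      refine ⟨fun i => u i * z i, ?_, mul_ne_zero hu0 hz0, ?_⟩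
      · rw [Finset.sum_insert ha]
        exact mul_EL hu hz
      · intro j' hj' y'
        rcases Finset.mem_insert.1 hj' with rfl | h
        · have := huU y'
          beta_reduce at this ⊢
          rw [this, zero_mul]
        · have := hzU j' h y'
          beta_reduce
          rw [this, mul_zero]
  obtain ⟨z, hz, hz0, hzU⟩ := hother (Finset.univ.erase j) (Finset.notMem_erase _ _)
  obtain ⟨s, hs⟩ : ∃ s, p ⟨j, y⟩ s ≠ 0 := Function.ne_iff.mp (hp _)
  have hmem := mul_mem_EL (mul_EL hx hz) s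
  have hdeg : m j + ∑ j' ∈ Finset.univ.erase j, (m j' + 1) + 1 = ∑ j, (m j + 1) := by
    rw [← Finset.add_sum_erase _ _ (Finset.mem_univ j)]
    omega
  rw [hdeg] at hmem
  refine ⟨_, hmem, ?_, ?_⟩
  · have h1 := hx2 y
    rw [if_pos rfl] at h1
    beta_reduce at h1 ⊢
    rw [h1, one_mul]
    exact mul_ne_zero hs hz0
  · rintro ⟨j', y'⟩ hne'
    beta_reduce
    by_cases hj : j' = j
    · subst hj
      have h1 := hx2 y'
      rw [if_neg (fun h => hne' (by rw [h]))] at h1
      beta_reduce at h1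
      rw [h1, zero_mul, mul_zero]
    · rw [hzU j' (Finset.mem_erase.2 ⟨hj, Finset.mem_univ _⟩) y', mul_zero, mul_zero]

end Pool.Agent.NH29.QL
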