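import Mathlib
import Pool.Agent.NH29.QL.Cb
import Pool.Agent.NH29.QL.Kn
import Pool.Agent.NH29.QL.Gr
import Pool.Agent.NH29.QL.Or
import Pool.Agent.NH29.QL.Un
import Pool.Agent.NH29.QL.Pa

/-!
The lower bounds in the good model.
-/

set_option autoImplicit false
set_option linter.unusedSectionVars false

namespace Pool.Agent.NH29.QL

open NumberField Module MvPolynomial
open Pool.Agent.W238.Leh
open Pool.Agent.H627.LP
open Pool.Agent.H420R3 (mi nv TP ew lP lP_pos sum_ew gq TP_nonempty mem_TP)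
open scoped Pointwise

noncomputable section

variable {K : Type} [Field K] [NumberField K] {N : ℕ}
variable {F : Fin (N + 1) → MvPolynomial (Fin (N + 1)) K} {q : ℕ}

lemma Wnd_smul {M : Type} [Field M] [NumberField M] [Algebra K M]
    (hF : ∀ i, (F i).IsHomogeneous q) {x : Fin (N + 1) → M} {b : M} (hb : b ≠ 0)
    (hw : Wnd F x) : Wnd F (b • x) := by
  rintro ⟨m, n, hmn, c, hc, h⟩
  rw [act_iter_smul hF, act_iter_smul hF, smul_smul] at h
  refine hw ⟨m, n, hmn, (b ^ q ^ n)⁻¹ * (c * b ^ q ^ m), ?_, ?_⟩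
  · exact mul_ne_zero (inv_ne_zero (pow_ne_zero _ hb)) (mul_ne_zero hc (pow_ne_zero _ hb))
  · rw [mul_smul, ← h, smul_smul, inv_mul_cancel₀ (pow_ne_zero _ hb), one_smul]

variable {M : Type} [Field M] [NumberField M] [Algebra K M] [IsGalois K M]

/-- regularity indices of the levels -/
lemma exists_reg {z : Fin (N + 1) → M}
    (n : ℕ) (hz : (act F)^[n] z ≠ 0) :
    ∃ m : ℕ, m ≤ Fintype.card (QQ F z n) ∧
      Fintype.card (QQ F z n) ≤ finrank M (EL K (fun y : QQ F z n => pt F z n y.out) m) ∧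
      ∀ s : ℕ, 1 ≤ s → finrank M (EL K (fun y : QQ F z n => pt F z n y.out) s) * m ≤
        8 * s * Fintype.card (QQ F z n) := by
  have h1 := orbit (growth kneser) K M N ((act F)^[n] z) hz (QQ F z n) (fun y => y.out)
  have e : ∀ σ : Gal(M/K), (fun t => σ ((act F)^[n] z t)) = pt F z n σ := fun σ =>
    (act_gal_iter (F := F) σ z n).symm
  have e2 : (fun (y : QQ F z n) (t : Fin (N + 1)) => y.out ((act F)^[n] z t)) =
      fun y => pt F z n y.out := funext fun y => e y.out
  rw [e2] at h1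
  simp only [e] at h1
  refine h1 ?_ ?_
  · intro i j c hc hij
    rw [← cls_out z n i, ← cls_out z n j]
    exact cls_eq.mpr ⟨c, hc, hij⟩
  · intro σ
    refine ⟨cls F z n σ, ?_⟩
    exact cls_eq.mp (cls_out z n (cls F z n σ)).symm

/-- inequality B with regularity indices of the levels -/
theorem caseB' {P : Ideal (𝓞 K)} [hP : P.IsMaximal] (h : GoodN P F q) (hP0 : P ≠ ⊥) {A : ℝ}
    {a c : ℕ} (hB : Bds F q A a)
    (hc : ∀ m, c + q ≤ m → ∀ p : MvPolynomial (Fin (N + 1)) K, p.IsHomogeneous m →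
      p ∈ Ideal.span (Set.range F))
    {z : Fin (N + 1) → M} {i₀ : Fin (N + 1)} (hz : z i₀ = 1) (hw : Wnd F z) {k s E D W : ℕ}
    (hE1 : 1 ≤ E) (hk : 1 ≤ k) (hks : 4 * s ^ N ≤ k) (hs : 1 ≤ s)
    (hE : ∀ v ∈ TP M P, Fintype.card (QQ F z 0) ≤
      2 * (Finset.univ.filter fun y : QQ F z 0 => (oI (inr K v) y).card ≤ E).card)
    (m : ℕ → ℕ) (hm : ∀ n, Fintype.card (QQ F z n) ≤
      finrank M (EL K (fun y : QQ F z n => pt F z n y.out) (m n)))
    (hmD : ∀ n, m n ≤ D) (hD : ∀ n, Fintype.card (QQ F z n) ≤ D) (hD1 : 1 ≤ D)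
    (hW : ∑ j : Fin k, (m (Nat.clog q E + k + j) + 1) ≤ W) :
    lP P * (1 + (k : ℝ)) * s / 4 ≤
      W * ((q : ℝ) ^ (Nat.clog q E + k + k) * canH F q z) +
        (hC A a * (c + q : ℕ) * (1 + Nat.log 2 (2 * k * D) : ℕ) + Real.log (k * D : ℕ)) := by
  obtain ⟨v₀, hv₀⟩ := TP_nonempty (M := M) (P := P) hP0
  have hq : 2 ≤ q := (h.red_at hP0 hv₀).two_le
  have hz0 : z ≠ 0 := by
    intro h0
    rw [h0] at hz
    exact zero_ne_one hz
  have hcan0 : 0 ≤ canH F q z := hB.canH_nonneg hq hz0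
  set n₀ := Nat.clog q E + k with hn₀
  have hne : ∀ i i' : IX F z n₀ k, i ≠ i' → ∀ b : M, pp F z n₀ k i ≠ b • pp F z n₀ k i' := by
    rintro ⟨j, y⟩ ⟨j', y'⟩ hii b hb
    have hb0 : b ≠ 0 := by
      rintro rfl
      rw [zero_smul] at hb
      exact pt_ne_zero hB hz _ _ hb
    rcases lt_trichotomy j j' with hj | hj | hj
    · have h1 : pp F z n₀ k ⟨j', y'⟩ = b⁻¹ • pp F z n₀ k ⟨j, y⟩ := by
        rw [hb, smul_smul, inv_mul_cancel₀ hb0, one_smul]
      exact pt_ne h.hom hw (Nat.add_lt_add_left (Fin.lt_def.mp hj) n₀) _ _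
        (inv_ne_zero hb0) h1
    · subst hj
      apply hii
      have h1 : y = y' := by
        rw [← Quotient.out_equiv_out]
        exact ⟨b, hb0, hb⟩
      rw [h1]
    · exact pt_ne h.hom hw (Nat.add_lt_add_left (Fin.lt_def.mp hj) n₀) _ _ hb0 hb
  set mS := ∑ j : Fin k, (m (n₀ + j) + 1) with hmS
  have hreg : Fintype.card (IX F z n₀ k) ≤ finrank M (EL K (pp F z n₀ k) mS) :=
    union K M N k (fun j => QQ F z (n₀ + j)) (pp F z n₀ k)
      (fun i => pt_ne_zero hB hz _ _) hne (fun j => m (n₀ + j)) fun j => hm _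
  have hmain := caseB h hP0 hB hc hz hE1 hk hks hs hE hreg
  refine hmain.trans ?_
  rw [← hn₀]
  have hmS2 : mS ≤ 2 * k * D := by
    calc mS ≤ ∑ _j : Fin k, 2 * D := by
          refine Finset.sum_le_sum fun j _ => ?_
          have := hmD (n₀ + j)
          omega
      _ = 2 * k * D := by
          rw [Finset.sum_const, Finset.card_univ, Fintype.card_fin, smul_eq_mul]
          ring
  have hr : Fintype.card (IX F z n₀ k) ≤ k * D := by
    have h2 : Fintype.card (IX F z n₀ k) = ∑ j : Fin k, Fintype.card (QQ F z (n₀ + j)) :=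
      Fintype.card_sigma
    rw [h2]
    calc ∑ j : Fin k, Fintype.card (QQ F z (n₀ + j)) ≤ ∑ _j : Fin k, D :=
          Finset.sum_le_sum fun j _ => hD _
      _ = k * D := by simp
  have hr1 : 1 ≤ Fintype.card (IX F z n₀ k) := by
    have h1 := card_top_le h z n₀ hk
    have h2 : 1 ≤ Fintype.card (QQ F z (n₀ + (k - 1))) := Fintype.card_pos
    exact le_trans (Nat.mul_pos hk h2) h1
  have hWr : (mS : ℝ) ≤ W := by exact_mod_cast hW
  have h0 : 0 ≤ (q : ℝ) ^ (n₀ + k) * canH F q z := by positivity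
  have h1 := mul_le_mul_of_nonneg_right hWr h0
  have h2 : ((1 + Nat.log 2 mS : ℕ) : ℝ) ≤ (1 + Nat.log 2 (2 * k * D) : ℕ) := by
    exact_mod_cast Nat.add_le_add_left (Nat.log_mono_right hmS2) 1
  have h3 : hC A a * ((c + q : ℕ) * (1 + Nat.log 2 mS : ℕ)) ≤
      hC A a * (c + q : ℕ) * (1 + Nat.log 2 (2 * k * D) : ℕ) := by
    rw [← mul_assoc]
    exact mul_le_mul_of_nonneg_left h2 (mul_nonneg hB.hC_nonneg (Nat.cast_nonneg _))
  have h4 : Real.log (Fintype.card (IX F z n₀ k)) ≤ Real.log (k * D : ℕ) :=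
    Real.log_le_log (by exact_mod_cast hr1) (by exact_mod_cast hr)
  linarith

lemma natlog_two_le {n : ℕ} (hn : 1 ≤ n) : (Nat.log 2 n : ℝ) ≤ 2 * Real.log n := by
  have h1 : 2 ^ Nat.log 2 n ≤ n := Nat.pow_log_le_self 2 (by omega)
  have h2 : (2 : ℝ) ^ Nat.log 2 n ≤ n := by exact_mod_cast h1
  have h3 := Real.log_le_log (by positivity) h2
  rw [Real.log_pow] at h3
  have h4 : (1 : ℝ) / 2 ≤ Real.log 2 := by
    have := Real.log_two_gt_d9
    linarith
  have h5 : (0 : ℝ) ≤ Nat.log 2 n := Nat.cast_nonneg _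
  have h6 := mul_le_mul_of_nonneg_left h4 h5
  linarith

/-- **the lower bounds in the good model** -/
theorem core {P : Ideal (𝓞 K)} [hP : P.IsMaximal] (h : GoodN P F q) (hP0 : P ≠ ⊥) (hN : 1 ≤ N)
    {A : ℝ} {a c : ℕ} (hB : Bds F q A a)
    (hc : ∀ m, c + q ≤ m → ∀ p : MvPolynomial (Fin (N + 1)) K, p.IsHomogeneous m →
      p ∈ Ideal.span (Set.range F)) :
    ∃ C : ℝ, 0 < C ∧ ∀ (M : Type) [Field M] [NumberField M] [Algebra K M] [IsGalois K M]
      (z : Fin (N + 1) → M) (i₀ : Fin (N + 1)), z i₀ = 1 → Wnd F z → ∀ D : ℕ, 1 ≤ D →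
      (∀ n, Fintype.card (QQ F z n) ≤ D) →
      Real.exp (-(C * (1 + Real.log D) ^ ((N : ℝ) / (N + 1)))) / (C * D) ≤ canH F q z ∧
      ∀ e m R : ℕ, 1 ≤ e → 1 ≤ m → 1 ≤ R →
        (∀ v ∈ TP M P, ∀ y : QQ F z 0, (oI (inr K v) y).card ≤ e) →
        (∀ n, R ≤ finrank M (EL K (fun y : QQ F z n => pt F z n y.out) m)) →
        Real.exp (-(C * (1 + Real.log D) ^ ((N : ℝ) / (N + 1)))) / (C * (m * e * (D / R))) ≤
          canH F q z := by
  classical
  have hq : 2 ≤ q := by
    obtain ⟨w, hw⟩ := TP_nonempty (M := K) (P := P) hP0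
    exact (h.red_at hP0 hw).two_le
  have hq' : (2 : ℝ) ≤ q := by exact_mod_cast hq
  have hlp := lP_pos (P := P) hP0
  set lp := lP P with hlpdef
  set E₀ : ℝ := hC A a * (c + q : ℕ) with hE₀
  have hE₀0 : 0 ≤ E₀ := mul_nonneg hB.hC_nonneg (Nat.cast_nonneg _)
  obtain ⟨C₁, hC₁, hpar⟩ := param lp E₀ hlp hE₀0 N q hN hq
  set B₁ : ℝ := 16 + 256 * (2 * E₀ + 1) / lp with hB₁
  have hB₁16 : 16 ≤ B₁ := by
    have : 0 ≤ 256 * (2 * E₀ + 1) / lp := by positivity
    linarith
  have hB₁lp : 256 * (2 * E₀ + 1) ≤ lp * B₁ := by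
    have h1 : lp * B₁ = 16 * lp + 256 * (2 * E₀ + 1) := by
      rw [hB₁]
      field_simp
    rw [h1]
    linarith
  set C : ℝ := C₁ + (B₁ + 1) * q + 256 * q / lp + 9 * q with hCdef
  have hq0 : (0 : ℝ) < q := by linarith
  have hC1 : C₁ ≤ C := by
    have h1 : 0 ≤ (B₁ + 1) * q := by positivity
    have h2 : 0 ≤ 256 * q / lp := by positivity
    linarith
  have hC2 : (B₁ + 1) * q ≤ C := by
    have h2 : 0 ≤ 256 * q / lp := by positivity
    linarith
  have hC3 : 256 * q / lp ≤ C := by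
    have h1 : 0 ≤ (B₁ + 1) * q := by positivity
    linarith
  have hC4 : 9 * q ≤ C := by
    have h1 : 0 ≤ (B₁ + 1) * q := by positivity
    have h2 : 0 ≤ 256 * q / lp := by positivity
    linarith
  have hC0 : 0 < C := lt_of_lt_of_le hC₁ hC1
  refine ⟨C, hC0, ?_⟩
  intro M _ _ _ _ z i₀ hz hw D hD1 hD
  have hz0 : z ≠ 0 := by
    intro h0
    rw [h0] at hz
    exact zero_ne_one hz
  set H := canH F q z with hH
  have hH0 : 0 ≤ H := hB.canH_nonneg hq hz0
  have hD1' : (1 : ℝ) ≤ D := by exact_mod_cast hD1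
  have hlD : 0 ≤ Real.log D := Real.log_nonneg hD1'
  set Λ : ℝ := 1 + Real.log D with hΛ
  have hΛ1 : 1 ≤ Λ := by linarith
  obtain ⟨s, k, hk, hks, hloss, hexp⟩ := hpar D hD1
  have hk' : (1 : ℝ) ≤ k := by exact_mod_cast hk
  set X : ℝ := Real.exp (C₁ * Λ ^ ((N : ℝ) / (N + 1))) with hX
  have hX0 : 0 < X := Real.exp_pos _
  set Y : ℝ := Real.exp (C * Λ ^ ((N : ℝ) / (N + 1))) with hY
  have hXY : X ≤ Y := by
    rw [hX, hY, Real.exp_le_exp]
    exact mul_le_mul_of_nonneg_right hC1 (by positivity)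
  have hY0 : 0 < Y := Real.exp_pos _
  -- the form of the bounds
  have hfin : ∀ T : ℝ, 0 < T → 1 ≤ Y * (C * T) * H →
      Real.exp (-(C * Λ ^ ((N : ℝ) / (N + 1)))) / (C * T) ≤ H := by
    intro T hT h1
    rw [Real.exp_neg, div_le_iff₀ (by positivity), inv_le_iff_one_le_mul₀ hY0]
    calc (1 : ℝ) ≤ _ := h1
      _ = _ := by ring
  have hs : 1 ≤ s := by
    rcases Nat.eq_zero_or_pos s with h0 | h0
    · rw [h0] at hloss
      simp only [Nat.cast_zero, mul_zero, zero_div] at hloss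
      have h1 : 0 ≤ E₀ * (1 + Nat.log 2 (2 * k * D) : ℕ) := by positivity
      have h2 : 0 ≤ Real.log (k * D : ℕ) := by
        apply Real.log_nonneg
        exact_mod_cast Nat.mul_pos hk hD1
      linarith
    · exact h0
  -- regularity indices
  have hreg : ∀ n, _ := fun n => exists_reg (F := F) (z := z) n (hB.iter_ne_zero hz0 n)
  choose m₀ hm₀1 hm₀2 hm₀3 using hreg
  have hm₀D : ∀ n, m₀ n ≤ D := fun n => (hm₀1 n).trans (hD n)
  have hqk : (1 : ℝ) ≤ (q : ℝ) ^ (2 * k) := one_le_pow₀ (by linarith)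
  have hclog : ∀ e : ℕ, 1 ≤ e → (q : ℝ) ^ (Nat.clog q e + k + k) ≤ q * e * (q : ℝ) ^ (2 * k) := by
    intro e he
    have h1 : (q : ℝ) ^ Nat.clog q e ≤ q * e := by exact_mod_cast pow_clog_le hq he
    have h2 : (q : ℝ) ^ (Nat.clog q e + k + k) = (q : ℝ) ^ Nat.clog q e * (q : ℝ) ^ (2 * k) := by
      rw [← pow_add]
      congr 1
      ring
    rw [h2]
    exact mul_le_mul_of_nonneg_right h1 (by positivity)
  constructor
  · -- the first bound
    obtain ⟨v₀, hv₀⟩ := TP_nonempty (M := M) (P := P) hP0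
    obtain ⟨E, ⟨y₁, hy₁⟩, hmed1, hmed2⟩ := exists_median
      (fun y : QQ F z 0 => (oI (inr K v₀) y).card)
    have hE1 : 1 ≤ E := by
      rw [← hy₁]
      exact oI_pos _ _
    have hEle : ∀ v ∈ TP M P, Fintype.card (QQ F z 0) ≤
        2 * (Finset.univ.filter fun y : QQ F z 0 => (oI (inr K v) y).card ≤ E).card := by
      intro v hv
      have h1 := card_filter_place (X := QQ F z 0) hP0 hv₀ hv (fun a => a ≤ E)
      refine hmed1.trans (le_of_eq ?_)
      congr 1
      convert! h1.symm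
    have hEge : ∀ v ∈ TP M P, Fintype.card (QQ F z 0) ≤
        2 * (Finset.univ.filter fun y : QQ F z 0 => E ≤ (oI (inr K v) y).card).card := by
      intro v hv
      have h1 := card_filter_place (X := QQ F z 0) hP0 hv₀ hv (fun a => E ≤ a)
      refine hmed2.trans (le_of_eq ?_)
      congr 1
      convert! h1.symm
    set D₀ := Fintype.card (QQ F z 0) with hD₀
    have hED₀ : E ≤ D₀ := by
      rw [← hy₁]
      exact Finset.card_le_univ _
    have hD₀D : D₀ ≤ D := hD 0
    have hE1' : (1 : ℝ) ≤ E := by exact_mod_cast hE1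
    have hED₀' : (E : ℝ) ≤ D₀ := by exact_mod_cast hED₀
    have hD₀D' : (D₀ : ℝ) ≤ D := by exact_mod_cast hD₀D
    have hD₀1' : (1 : ℝ) ≤ D₀ := hE1'.trans hED₀'
    set n₁ := Nat.clog q E + k + k with hn₁
    by_cases hcase : ∃ n, n ≤ n₁ ∧ B₁ * D₀ * Λ ≤ (min (q ^ n) E * m₀ n : ℕ)
    · obtain ⟨n, hn, hbig⟩ := hcase
      set μ := min (q ^ n) E with hμ
      have h16 : 16 * D₀ ≤ μ * m₀ n := by
        have h1 : (16 : ℝ) * D₀ ≤ (μ * m₀ n : ℕ) := by
          refine le_trans ?_ hbig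
          calc (16 : ℝ) * D₀ ≤ B₁ * D₀ := by gcongr
            _ = B₁ * D₀ * 1 := by ring
            _ ≤ B₁ * D₀ * Λ := by gcongr
        exact_mod_cast h1
      have hA := caseA h hP0 hB hc hz n hEge (hm₀2 n) (hm₀3 n) (hm₀1 n) h16
      have hm1 : 1 ≤ m₀ n := by
        rcases Nat.eq_zero_or_pos (m₀ n) with h0 | h0
        · rw [h0, mul_zero] at h16
          omega
        · exact h0
      have hm1' : (1 : ℝ) ≤ m₀ n := by exact_mod_cast hm1
      -- the loss
      have hloss' : hC A a * ((c + q : ℕ) * (1 + Nat.log 2 (m₀ n) : ℕ)) +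
          Real.log (Fintype.card (QQ F z n)) ≤ (2 * E₀ + 1) * Λ := by
        have h1 : (Nat.log 2 (m₀ n) : ℝ) ≤ 2 * Real.log D := by
          have h2 : (Nat.log 2 (m₀ n) : ℝ) ≤ Nat.log 2 D := by
            exact_mod_cast Nat.log_mono_right (hm₀D n)
          exact h2.trans (natlog_two_le hD1)
        have h2 : Real.log (Fintype.card (QQ F z n)) ≤ Real.log D := by
          apply Real.log_le_log
          · have : 0 < Fintype.card (QQ F z n) := Fintype.card_pos
            exact_mod_cast this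
          · exact_mod_cast hD n
        have h3 : hC A a * ((c + q : ℕ) * (1 + Nat.log 2 (m₀ n) : ℕ)) =
            E₀ * (1 + (Nat.log 2 (m₀ n) : ℝ)) := by
          rw [hE₀]
          push_cast
          ring
        rw [h3]
        have h4 : E₀ * (1 + (Nat.log 2 (m₀ n) : ℝ)) ≤ E₀ * (1 + 2 * Real.log D) := by
          gcongr
        have h5 : (2 * E₀ + 1) * Λ = E₀ * (1 + 2 * Real.log D) + E₀ + 1 + Real.log D := by
          rw [hΛ]
          ring
        linarith
      have hhalf : (2 * E₀ + 1) * Λ ≤ lp * (μ * m₀ n : ℕ) / (256 * D₀) := by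
        rw [le_div_iff₀ (by positivity)]
        calc (2 * E₀ + 1) * Λ * (256 * D₀) = (256 * (2 * E₀ + 1)) * (D₀ * Λ) := by ring
          _ ≤ (lp * B₁) * (D₀ * Λ) := by gcongr
          _ = lp * (B₁ * D₀ * Λ) := by ring
          _ ≤ lp * (μ * m₀ n : ℕ) := by gcongr
      have h1 : lp * (μ * m₀ n : ℕ) / (256 * D₀) ≤ m₀ n * ((q : ℝ) ^ n * H) := by
        have h2 : lp * (μ * m₀ n : ℕ) / (128 * D₀) =
            lp * (μ * m₀ n : ℕ) / (256 * D₀) + lp * (μ * m₀ n : ℕ) / (256 * D₀) := by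
          field_simp
          ring
        rw [h2] at hA
        linarith
      have h2 : lp * μ / (256 * D₀) ≤ (q : ℝ) ^ n * H := by
        refine le_of_mul_le_mul_left ?_ (lt_of_lt_of_le one_pos hm1')
        refine le_trans (le_of_eq ?_) h1
        push_cast
        ring
      -- `μ` against `q ^ n`
      have h3 : (q : ℝ) ^ n ≤ q * (q : ℝ) ^ (2 * k) * μ := by
        rcases le_total (q ^ n) E with h4 | h4
        · have h5 : μ = q ^ n := min_eq_left h4
          rw [h5]
          push_cast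
          have h6 : (1 : ℝ) ≤ q * (q : ℝ) ^ (2 * k) := one_le_mul_of_one_le_of_one_le
            (by linarith) hqk
          exact le_mul_of_one_le_left (by positivity) h6
        · have h5 : μ = E := min_eq_right h4
          rw [h5]
          calc (q : ℝ) ^ n ≤ (q : ℝ) ^ n₁ := pow_le_pow_right₀ (by linarith) hn
            _ ≤ q * E * (q : ℝ) ^ (2 * k) := hclog E hE1
            _ = _ := by ring
      have hμ0 : 0 < (μ : ℝ) := by
        have h4 : 0 < (q : ℝ) ^ n := by positivity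
        have h5 : 0 < q * (q : ℝ) ^ (2 * k) := by positivity
        by_contra hcon
        push Not at hcon
        have := mul_nonpos_of_nonneg_of_nonpos h5.le hcon
        linarith
      have h4 : lp / (256 * D₀) ≤ q * (q : ℝ) ^ (2 * k) * H := by
        refine le_of_mul_le_mul_right ?_ hμ0
        calc lp / (256 * D₀) * μ = lp * μ / (256 * D₀) := by ring
          _ ≤ (q : ℝ) ^ n * H := h2
          _ ≤ (q * (q : ℝ) ^ (2 * k) * μ) * H := by gcongr
          _ = _ := by ring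
      have h5 : 1 ≤ (256 * q / lp) * D₀ * ((q : ℝ) ^ (2 * k) * H) := by
        have h6 : (0 : ℝ) < 256 * D₀ := by positivity
        rw [div_le_iff₀ h6] at h4
        have h7 : 256 * q / lp * D₀ * ((q : ℝ) ^ (2 * k) * H) =
            (q * (q : ℝ) ^ (2 * k) * H * (256 * D₀)) / lp := by
          field_simp
        rw [h7, le_div_iff₀ hlp, one_mul]
        exact h4
      apply hfin D (by linarith)
      refine h5.trans ?_
      have h8 : (q : ℝ) ^ (2 * k) ≤ Y := by
        refine le_trans ?_ hXY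
        refine le_trans ?_ hexp
        have h9 : 1 ≤ Λ * k := one_le_mul_of_one_le_of_one_le hΛ1 hk'
        exact le_mul_of_one_le_left (by positivity) h9
      calc (256 * q / lp) * D₀ * ((q : ℝ) ^ (2 * k) * H) ≤ C * D * (Y * H) := by
            gcongr
        _ = _ := by ring
    · push Not at hcase
      -- the regularity indices are small
      have hsmall : ∀ j : Fin k, ((m₀ (Nat.clog q E + k + j) + 1 : ℕ) : ℝ) ≤
          (B₁ + 1) * (D₀ / E) * Λ := by
        intro j
        have hj := j.2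
        have h1 := hcase (Nat.clog q E + k + j) (by omega)
        have h2 : E ≤ q ^ (Nat.clog q E + k + j) := by
          calc E ≤ q ^ Nat.clog q E := Nat.le_pow_clog (by omega) E
            _ ≤ _ := Nat.pow_le_pow_right (by omega) (by omega)
        rw [min_eq_right h2] at h1
        push_cast at h1 ⊢
        have h3 : (m₀ (Nat.clog q E + k + j) : ℝ) ≤ B₁ * (D₀ / E) * Λ := by
          have h4 : B₁ * (D₀ / E) * Λ = B₁ * D₀ * Λ / E := by ring
          rw [h4, le_div_iff₀ (by linarith)]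
          linarith
        have h5 : 1 ≤ (D₀ / E : ℝ) * Λ := by
          apply one_le_mul_of_one_le_of_one_le _ hΛ1
          rw [le_div_iff₀ (by linarith)]
          linarith
        calc (m₀ (Nat.clog q E + k + j) : ℝ) + 1 ≤ B₁ * (D₀ / E) * Λ + (D₀ / E : ℝ) * Λ :=
              add_le_add h3 h5
          _ = _ := by ring
      have hB' := caseB' h hP0 hB hc hz hw hE1 hk hks hs hEle m₀ hm₀2 hm₀D hD hD1 le_rfl
      rw [← hE₀] at hB'
      set W : ℕ := ∑ j : Fin k, (m₀ (Nat.clog q E + k + j) + 1) with hWdef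
      have hW : (W : ℝ) ≤ k * ((B₁ + 1) * (D₀ / E) * Λ) := by
        rw [hWdef]
        rw [Nat.cast_sum]
        calc ∑ j : Fin k, ((m₀ (Nat.clog q E + k + j) + 1 : ℕ) : ℝ) ≤
            ∑ _j : Fin k, (B₁ + 1) * (D₀ / E) * Λ := Finset.sum_le_sum fun j _ => hsmall j
          _ = _ := by simp
      have h1 : 1 ≤ (W : ℝ) * ((q : ℝ) ^ n₁ * H) := by linarith
      apply hfin D (by linarith)
      refine h1.trans ?_
      have h2 := hclog E hE1
      have hE0 : (0 : ℝ) < E := by linarith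
      calc (W : ℝ) * ((q : ℝ) ^ n₁ * H) ≤
          (k * ((B₁ + 1) * (D₀ / E) * Λ)) * ((q * E * (q : ℝ) ^ (2 * k)) * H) := by
            gcongr
        _ = (B₁ + 1) * q * D₀ * (Λ * k * (q : ℝ) ^ (2 * k)) * H := by
            field_simp
        _ ≤ C * D * Y * H := by
            have h3 : Λ * k * (q : ℝ) ^ (2 * k) ≤ Y := hexp.trans hXY
            gcongr
        _ = _ := by ring
  · -- the second bound
    intro e m R he hm hR1 hram hR
    have he' : (1 : ℝ) ≤ e := by exact_mod_cast he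
    have hm' : (1 : ℝ) ≤ m := by exact_mod_cast hm
    have hR1' : (1 : ℝ) ≤ R := by exact_mod_cast hR1
    have hEle : ∀ v ∈ TP M P, Fintype.card (QQ F z 0) ≤
        2 * (Finset.univ.filter fun y : QQ F z 0 => (oI (inr K v) y).card ≤ e).card := by
      intro v hv
      have h1 : (Finset.univ.filter fun y : QQ F z 0 => (oI (inr K v) y).card ≤ e) =
          Finset.univ := by
        ext y
        simp [hram v hv y]
      rw [h1, Finset.card_univ]
      omega
    have hRD : R ≤ D := by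
      refine (hR 0).trans (le_trans ?_ (hD 0))
      refine (Submodule.finrank_le _).trans ?_
      rw [Module.finrank_fintype_fun_eq_card]
    have hRD' : (R : ℝ) ≤ D := by exact_mod_cast hRD
    have hm₀R : ∀ n, (m₀ n : ℝ) ≤ 8 * m * (D / R) := by
      intro n
      have h1 : R * m₀ n ≤ 8 * m * D :=
        (Nat.mul_le_mul_right _ (hR n)).trans ((hm₀3 n m hm).trans
          (Nat.mul_le_mul_left _ (hD n)))
      have h2 : (R : ℝ) * m₀ n ≤ 8 * m * D := by exact_mod_cast h1
      have h3 : 8 * (m : ℝ) * (D / R) = 8 * m * D / R := by ring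
      rw [h3, le_div_iff₀ (by linarith)]
      linarith
    have hDR : (1 : ℝ) ≤ m * (D / R) := by
      apply one_le_mul_of_one_le_of_one_le hm'
      rw [le_div_iff₀ (by linarith)]
      linarith
    have hB' := caseB' h hP0 hB hc hz hw he hk hks hs hEle m₀ hm₀2 hm₀D hD hD1 le_rfl
    rw [← hE₀] at hB'
    set W : ℕ := ∑ j : Fin k, (m₀ (Nat.clog q e + k + j) + 1) with hWdef
    have hW : (W : ℝ) ≤ k * (9 * (m * (D / R))) := by
      rw [hWdef]
      rw [Nat.cast_sum]
      calc ∑ j : Fin k, ((m₀ (Nat.clog q e + k + j) + 1 : ℕ) : ℝ) ≤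
          ∑ _j : Fin k, 9 * (m * (D / R) : ℝ) := by
            refine Finset.sum_le_sum fun j _ => ?_
            push_cast
            have := hm₀R (Nat.clog q e + k + j)
            linarith
        _ = _ := by simp
    have h1 : 1 ≤ (W : ℝ) * ((q : ℝ) ^ (Nat.clog q e + k + k) * H) := by linarith
    have hT : 0 < (m : ℝ) * e * (D / R) := by positivity
    apply hfin _ hT
    refine h1.trans ?_
    have h2 := hclog e he
    calc (W : ℝ) * ((q : ℝ) ^ (Nat.clog q e + k + k) * H) ≤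
        (k * (9 * (m * (D / R)))) * ((q * e * (q : ℝ) ^ (2 * k)) * H) := by
          gcongr
      _ = (9 * q) * (m * e * (D / R)) * (1 * k * (q : ℝ) ^ (2 * k)) * H := by ring
      _ ≤ C * (m * e * (D / R)) * Y * H := by
          have h3 : 1 * k * (q : ℝ) ^ (2 * k) ≤ Y := by
            refine le_trans ?_ (hexp.trans hXY)
            gcongr
          gcongr
      _ = _ := by ring

end

end Pool.Agent.NH29.QL
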