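import Mathlib
import Pool.Agent.NH29.QL.Fi
import Pool.Agent.H627.LP.Poly

/-!
Transfer to arbitrary coordinates and extensions of the base field.
-/

set_option autoImplicit false
set_option linter.unusedSectionVars false

namespace Pool.Agent.NH29.QL

open NumberField Module MvPolynomial Filter Topology
open Pool.Agent.W238.Leh
open Pool.Agent.H627.LP
open Pool.Agent.H420R3 (mi nv TP ew lP lP_pos sum_ew gq TP_nonempty mem_TP CP NC finrank_CP_le)
open scoped Pointwise

noncomputable section

/-- the values at the coordinate vector `x` of the forms of degree `s` over `K` -/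
def values (K : Type) {L : Type} [Field K] [Field L] [Algebra K L] {N : ℕ}
    (x : Fin (N + 1) → L) (s : ℕ) : Submodule K L :=
  (homogeneousSubmodule (Fin (N + 1)) K s).map
    (aeval x : MvPolynomial (Fin (N + 1)) K →ₐ[K] L).toLinearMap

section Val

variable {K M : Type} [Field K] [Field M] [Algebra K M] [FiniteDimensional K M] [IsGalois K M]

/-- conjugates of independent elements -/
lemma li_conj {h : ℕ} {v : Fin h → M} (hv : LinearIndependent K v) (a : Fin h → M)
    (ha : ∀ σ : Gal(M/K), ∑ j, a j * σ (v j) = 0) : a = 0 := by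
  classical
  have h1 : ∀ b : M, ∀ j, Algebra.trace K M (b * a j) = 0 := by
    intro b
    have h2 : ∀ σ : Gal(M/K), ∑ j, σ (b * a j) * v j = 0 := by
      intro σ
      have h3 := congrArg (fun t => σ (b * t)) (ha σ⁻¹)
      simp only [mul_zero, map_zero, Finset.mul_sum, map_sum] at h3
      rw [← h3]
      refine Finset.sum_congr rfl fun j _ => ?_
      have h4 : σ (σ⁻¹ (v j)) = v j := by
        rw [← AlgEquiv.mul_apply, mul_inv_cancel, AlgEquiv.one_apply]
      rw [← mul_assoc, map_mul σ (b * a j), h4]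
    have h5 : ∑ j, Algebra.trace K M (b * a j) • v j = 0 := by
      have h6 : ∑ σ : Gal(M/K), ∑ j, σ (b * a j) * v j = 0 :=
        Finset.sum_eq_zero fun σ _ => h2 σ
      rw [Finset.sum_comm] at h6
      rw [← h6]
      refine Finset.sum_congr rfl fun j _ => ?_
      rw [Algebra.smul_def, trace_eq_sum_automorphisms, Finset.sum_mul]
    exact Fintype.linearIndependent_iff.mp hv _ h5
  funext j
  have h2 := traceForm_nondegenerate K M
  have h3 : ∀ b, Algebra.traceForm K M (a j) b = 0 := by
    intro b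
    rw [Algebra.traceForm_apply, mul_comm]
    exact h1 b j
  exact h2.1 (a j) h3

end Val

section Transfer

variable {k K L M : Type} [Field k] [NumberField k] [Field K] [NumberField K] [Field L]
  [NumberField L] [Field M] [NumberField M] [Algebra k K] [Algebra k L]
  [Algebra K M] {N : ℕ}

/-- the dimension of the space of values is at most the Hilbert function -/
lemma finrank_values_le [IsGalois K M] {F : Fin (N + 1) → MvPolynomial (Fin (N + 1)) K}
    {z : Fin (N + 1) → M} {n s : ℕ} :
    finrank K (values K ((act F)^[n] z) s) ≤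
      finrank M (EL K (fun y : QQ F z n => pt F z n y.out) s) := by
  classical
  have hfin : FiniteDimensional K M := Module.Finite.of_restrictScalars_finite ℚ K M
  set Z := (act F)^[n] z with hZ
  have hb := (Module.finBasis K (values K Z s)).linearIndependent
  have hb' : LinearIndependent K fun j => ((Module.finBasis K (values K Z s) j : _) : M) := by
    have := hb.map' (values K Z s).subtype (Submodule.ker_subtype _)
    exact this
  have hmem : ∀ j, ∃ φ : MvPolynomial (Fin (N + 1)) K, φ.IsHomogeneous s ∧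
      aeval Z φ = ((Module.finBasis K (values K Z s) j : _) : M) := by
    intro j
    obtain ⟨φ, hφ, hφ'⟩ := Submodule.mem_map.mp (Module.finBasis K (values K Z s) j).2
    exact ⟨φ, (mem_homogeneousSubmodule s φ).mp hφ, hφ'⟩
  choose φ hφ hφv using hmem
  simp only [← hφv] at hb'
  have hli : LinearIndependent M fun j => (fun y : QQ F z n => aeval (pt F z n y.out) (φ j)) := by
    rw [Fintype.linearIndependent_iff]
    intro a ha
    have h1 := li_conj hb' a (fun σ => by
      obtain ⟨c, hc, hcy⟩ := cls_eq.mp (cls_out z n (cls F z n σ)).symm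
      have h2 := congrFun ha (cls F z n σ)
      rw [Finset.sum_apply] at h2
      simp only [Pi.smul_apply, smul_eq_mul, Pi.zero_apply] at h2
      have h3 : ∀ j, σ (aeval Z (φ j)) = c ^ s *
          aeval (pt F z n (cls F z n σ).out) (φ j) := by
        intro j
        rw [← OrAux.aeval_gal, ← OrAux.aeval_scale _ _ _ _ (hφ j)]
        congr 2
        have h4 : pt F z n σ = fun t => σ (Z t) := by
          unfold pt
          rw [act_gal_iter]
        rw [← h4, hcy]
        rfl
      calc ∑ j, a j * σ (aeval Z (φ j)) =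
          c ^ s * ∑ j, a j * aeval (pt F z n (cls F z n σ).out) (φ j) := by
            rw [Finset.mul_sum]
            refine Finset.sum_congr rfl fun j _ => ?_
            rw [h3 j]
            ring
        _ = 0 := by
            rw [h2, mul_zero])
    intro j
    rw [h1]
    rfl
  have h1 := finrank_span_eq_card hli
  rw [Fintype.card_fin] at h1
  rw [← h1]
  apply Submodule.finrank_mono
  rw [Submodule.span_le]
  rintro _ ⟨j, rfl⟩
  exact Submodule.subset_span ⟨φ j, hφ j, rfl⟩

/-- values and linear changes of coordinates -/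
lemma finrank_values_lin {A : Matrix (Fin (N + 1)) (Fin (N + 1)) K} (hA : A.det ≠ 0) {c₀ : M}
    (hc₀ : c₀ ≠ 0) (Z : Fin (N + 1) → M) (s : ℕ) :
    finrank K (values K Z s) ≤
      finrank K (values K (c₀ • lin (A.map (algebraMap K M)) Z) s) := by
  classical
  have hfin : FiniteDimensional K M := Module.Finite.of_restrictScalars_finite ℚ K M
  have hc : (c₀ ^ s) ≠ 0 := pow_ne_zero _ hc₀
  set f : M →ₗ[K] M := LinearMap.mulLeft K (c₀ ^ s) with hf
  have hinj : Function.Injective f := by
    intro a b hab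
    simp only [hf, LinearMap.mulLeft_apply] at hab
    exact mul_left_cancel₀ hc hab
  have h1 : (values K Z s).map f ≤ values K (c₀ • lin (A.map (algebraMap K M)) Z) s := by
    rintro _ ⟨_, ⟨φ, hφ, rfl⟩, rfl⟩
    have hφ1 : φ.IsHomogeneous s := (mem_homogeneousSubmodule s φ).mp hφ
    refine ⟨aeval (fun i => ∑ l, C (A⁻¹ i l) * X l) φ, ?_, ?_⟩
    · have h1 := hφ1.aeval (fun i => ∑ l, C (A⁻¹ i l) * X l) (n := 1) (fun i => by
        refine IsHomogeneous.sum _ _ _ fun l _ => ?_
        have h2 := (isHomogeneous_C (Fin (N + 1)) (A⁻¹ i l)).mul (isHomogeneous_X K l)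
        rwa [zero_add] at h2)
      rw [one_mul] at h1
      exact h1
    · have hA' : (A.map (algebraMap K M)).det ≠ 0 := by
        have h1 : (A.map (algebraMap K M)).det = (algebraMap K M) A.det := by
          rw [RingHom.map_det]
          rfl
        rw [h1]
        exact (map_ne_zero _).mpr hA
      have hinv : (A.map (algebraMap K M))⁻¹ = A⁻¹.map (algebraMap K M) := by
        apply Matrix.inv_eq_left_inv
        rw [← Matrix.map_mul, Matrix.nonsing_inv_mul _ (isUnit_iff_ne_zero.mpr hA)]
        exact Matrix.map_one _ (map_zero _) (map_one _)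
      have h3 : ∀ w : Fin (N + 1) → M,
          aeval w (aeval (fun i => ∑ l, C (A⁻¹ i l) * X l) φ) =
            aeval (lin (A.map (algebraMap K M))⁻¹ w) φ := by
        intro w
        have h4 := congrArg (fun g => g φ) (MvPolynomial.comp_aeval (R := K)
          (fun i => ∑ l, C (A⁻¹ i l) * X l) (aeval w : MvPolynomial (Fin (N + 1)) K →ₐ[K] M))
        simp only [AlgHom.coe_comp, Function.comp_apply] at h4
        rw [h4]
        congr 2
        funext i
        rw [hinv]
        simp only [map_sum, map_mul, aeval_C, aeval_X, lin, Matrix.map_apply]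
      simp only [AlgHom.toLinearMap_apply, hf, LinearMap.mulLeft_apply]
      rw [h3, lin_smul, lin_inv hA']
      exact OrAux.aeval_scale _ _ _ _ hφ1
  calc finrank K (values K Z s) = finrank K ((values K Z s).map f) :=
        (LinearEquiv.finrank_eq (Submodule.equivMapOfInjective f hinj _))
    _ ≤ _ := Submodule.finrank_mono h1

/-- values and extensions of the base field -/
lemma finrank_values_base (ρ : L →+* M)
    (hρ : ∀ a : k, ρ (algebraMap k L a) = algebraMap K M (algebraMap k K a))
    (Z : Fin (N + 1) → L) (s : ℕ) :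
    finrank k (values k Z s) ≤ finrank k K * finrank K (values K (fun i => ρ (Z i)) s) := by
  classical
  letI : Algebra k M := ((algebraMap K M).comp (algebraMap k K)).toAlgebra
  haveI : IsScalarTower k K M := IsScalarTower.of_algebraMap_eq fun _ => rfl
  have hfinK : FiniteDimensional k K := Module.Finite.of_restrictScalars_finite ℚ k K
  have hfin : FiniteDimensional K M := Module.Finite.of_restrictScalars_finite ℚ K M
  have hfink : FiniteDimensional k M := Module.Finite.trans K M
  set V := values K (fun i => ρ (Z i)) s with hV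
  rw [Module.finrank_mul_finrank k K V]
  let g : L →ₐ[k] M := { ρ with commutes' := hρ }
  have h1 : ∀ w : values k Z s, g (w : L) ∈ V := by
    rintro ⟨_, φ, hφ, rfl⟩
    have hφ1 : φ.IsHomogeneous s := (mem_homogeneousSubmodule s φ).mp hφ
    refine ⟨MvPolynomial.map (algebraMap k K) φ, hφ1.map _, ?_⟩
    simp only [AlgHom.toLinearMap_apply]
    rw [aeval_map_algebraMap]
    have h4 := congrArg (fun g => g φ) (MvPolynomial.comp_aeval (R := k) Z g)
    simp only [AlgHom.coe_comp, Function.comp_apply] at h4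
    rw [h4]
    rfl
  let G : values k Z s →ₗ[k] V :=
    { toFun := fun w => ⟨g (w : L), h1 w⟩
      map_add' := fun a b => by
        apply Subtype.ext
        simp
      map_smul' := fun a b => by
        apply Subtype.ext
        change g (a • (b : L)) = a • g (b : L)
        exact g.toLinearMap.map_smul a _ }
  have : FiniteDimensional K V := inferInstance
  have : FiniteDimensional k V := Module.Finite.trans K V
  apply LinearMap.finrank_le_finrank_of_injective (f := G)
  intro a b hab
  have h2 := congrArg Subtype.val hab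
  simp only [G, LinearMap.coe_mk, AddHom.coe_mk] at h2
  exact Subtype.ext (g.toRingHom.injective h2)

end Transfer

section Top

variable {k K : Type} [Field k] [NumberField k] [Field K] [NumberField K] [Algebra k K] {N : ℕ}

/-- orbits of the inertia groups and ramification indices -/
lemma oI_le {F : Fin (N + 1) → MvPolynomial (Fin (N + 1)) K} {L M : Type} [Field L]
    [NumberField L] [Field M] [NumberField M] [Algebra K L] [Algebra K M] [Algebra L M]
    [IsScalarTower K L M] [IsGalois K M] {P : Ideal (𝓞 K)} [hP : P.IsMaximal] (hP0 : P ≠ ⊥)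
    {v : FinitePlace M} (hv : v ∈ TP M P) {e : ℕ}
    (he : ∀ 𝔓 : Ideal (𝓞 L), 𝔓.IsPrime → 𝔓.under (𝓞 K) = P → 𝔓.ramificationIdx (𝓞 K) ≤ e)
    (u : Fin (N + 1) → L) (y : QQ F (fun i => algebraMap L M (u i)) 0) :
    (oI (inr K v) y).card ≤ e := by
  obtain ⟨σ, rfl⟩ := exists_cls _ 0 y
  obtain ⟨H, hH1, hH2, hH3⟩ := exists_H (L := L) hP0 hv σ he
  have h1 : H ≤ sI (inr K v) (cls F (fun i => algebraMap L M (u i)) 0 σ) := by
    intro g hg
    refine ⟨hH1 hg, ?_⟩
    refine MulAction.mem_stabilizer_iff.mpr ?_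
    rw [smul_cls, cls_eq]
    refine ⟨1, one_ne_zero, ?_⟩
    rw [one_smul]
    unfold pt
    congr 1
    funext i
    exact hH2 g hg (u i)
  have h2 := card_oI (inr K v) (cls F (fun i => algebraMap L M (u i)) 0 σ)
  have h3 : Nat.card H ≤ Nat.card (sI (inr K v) (cls F (fun i => algebraMap L M (u i)) 0 σ)) :=
    Subgroup.card_le_of_le h1
  have h4 : 0 < Nat.card (sI (inr K v) (cls F (fun i => algebraMap L M (u i)) 0 σ)) :=
    Nat.card_pos
  have h5 : (oI (inr K v) (cls F (fun i => algebraMap L M (u i)) 0 σ)).card *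
      Nat.card (sI (inr K v) (cls F (fun i => algebraMap L M (u i)) 0 σ)) ≤
      e * Nat.card (sI (inr K v) (cls F (fun i => algebraMap L M (u i)) 0 σ)) := by
    rw [← h2]
    exact hH3.trans (Nat.mul_le_mul_left _ h3)
  exact Nat.le_of_mul_le_mul_right h5 h4

/-- **the theorem** -/
theorem top {p r : ℕ} (hp : p.Prime) (hr : 1 ≤ r)
    (F : Fin (N + 1) → MvPolynomial (Fin (N + 1)) k)
    (A : Matrix (Fin (N + 1)) (Fin (N + 1)) K) (hA : A.det ≠ 0)
    (G : Fin (N + 1) → MvPolynomial (Fin (N + 1)) K) (hG : ∀ i, (G i).IsHomogeneous (p ^ r))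
    (hconj : Conj A F G) (v : FinitePlace K) (hv : v (p : K) < 1) (hred : InsepN v (p ^ r) G) :
    ∃ C : ℝ, 0 < C ∧ ∀ (L : Type) [Field L] [NumberField L] [Algebra k L]
      (x : Fin (N + 1) → L), x ≠ 0 → Wnd F x →
      ∃ h : ℝ, Tendsto (fun n : ℕ => Height.logHeight ((act F)^[n] x) /
          ((finrank ℚ L : ℝ) * ((p ^ r : ℕ) : ℝ) ^ n)) atTop (𝓝 h) ∧
        Real.exp (-(C * (1 + Real.log (finrank k L)) ^ ((N : ℝ) / (N + 1)))) /
          (C * finrank k L) ≤ h ∧
        ∀ e s R : ℕ, (∀ 𝔓 : Ideal (𝓞 L), 𝔓.IsPrime →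
          𝔓.under (𝓞 k) = (mi v).under (𝓞 k) → 𝔓.ramificationIdx (𝓞 k) ≤ e) → 1 ≤ s →
          (∀ n, R ≤ finrank k (values k ((act F)^[n] x) s)) →
          Real.exp (-(C * (1 + Real.log (finrank k L)) ^ ((N : ℝ) / (N + 1)))) * R /
            (C * s * e * finrank k L) ≤ h := by
  obtain ⟨b, s, hb, hs, hint, hgood⟩ := hred.exists_model hp hr hv hG
  have hP0 := H420R3.mi_ne_bot v
  have hq : 2 ≤ p ^ r := by
    calc 2 ≤ p := hp.two_le
      _ ≤ p ^ r := Nat.le_self_pow (by omega) _
  set Gb : Fin (N + 1) → MvPolynomial (Fin (N + 1)) K := fun i => C (b : K) * G i with hGb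
  have hGbhom : ∀ i, (Gb i).IsHomogeneous (p ^ r) := by
    intro i
    have h7 := (isHomogeneous_C (Fin (N + 1)) (b : K)).mul (hG i)
    rwa [zero_add] at h7
  have hHmor := fun z => hgood.mor hP0 z
  have hGbmor : ∀ z : Fin (N + 1) → AlgebraicClosure K, (∀ i, aeval z (Gb i) = 0) → z = 0 := by
    intro z hz
    apply hHmor
    intro i
    have h1 : act (Fit Gb s) z = 0 := by
      rw [act_Fit]
      obtain ⟨s', rfl⟩ : ∃ s', s = s' + 1 := ⟨s - 1, by omega⟩
      have h0 : act Gb z = 0 := funext hz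
      rw [Function.iterate_succ_apply, h0]
      have h2 : act Gb (0 : Fin (N + 1) → AlgebraicClosure K) = 0 := by
        have := act_smul hGbhom (0 : AlgebraicClosure K) (0 : Fin (N + 1) → AlgebraicClosure K)
        rwa [zero_smul, zero_pow (by omega), zero_smul] at this
      clear hHmor hs hgood
      induction s' with
      | zero => rfl
      | succ s' ih => rw [Function.iterate_succ_apply', ih, h2]
    exact congrFun h1 i
  obtain ⟨A₁, a₁, hB₁⟩ := bds_of_mor (by omega) hGbhom hint hGbmor
  obtain ⟨A₂, a₂, hB₂⟩ := bds_of_mor hgood.one_le hgood.hom hgood.int hHmor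
  obtain ⟨c, hc0⟩ := exists_mem_span hHmor
  set Q := (p ^ r) ^ s with hQ
  have hQ2 : 2 ≤ Q := hq.trans (Nat.le_self_pow (by omega) _)
  obtain ⟨C₁, hC₁, hcore⟩ : ∃ C : ℝ, 0 < C ∧ (1 ≤ N → ∀ (M : Type) [Field M] [NumberField M]
      [Algebra K M] [IsGalois K M] (z : Fin (N + 1) → M) (i₀ : Fin (N + 1)), z i₀ = 1 →
      Wnd (Fit Gb s) z → ∀ D : ℕ, 1 ≤ D → (∀ n, Fintype.card (QQ (Fit Gb s) z n) ≤ D) →
      Real.exp (-(C * (1 + Real.log D) ^ ((N : ℝ) / (N + 1)))) / (C * D) ≤
        canH (Fit Gb s) Q z ∧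
      ∀ e m R : ℕ, 1 ≤ e → 1 ≤ m → 1 ≤ R →
        (∀ v' ∈ TP M (mi v), ∀ y : QQ (Fit Gb s) z 0, (oI (inr K v') y).card ≤ e) →
        (∀ n, R ≤
          finrank M (EL K (fun y : QQ (Fit Gb s) z n => pt (Fit Gb s) z n y.out) m)) →
        Real.exp (-(C * (1 + Real.log D) ^ ((N : ℝ) / (N + 1)))) / (C * (m * e * (D / R))) ≤
          canH (Fit Gb s) Q z) := by
    rcases Nat.eq_zero_or_pos N with hN | hN
    · exact ⟨1, one_pos, fun h => absurd h (by omega)⟩
    · obtain ⟨C₁, hC₁, h⟩ := core hgood hP0 hN hB₂ (c := c) (fun m hm p hp => hc0 m (by omega) p hp)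
      exact ⟨C₁, hC₁, fun _ => h⟩
  have hkK : 1 ≤ finrank k K := finrank_pos
  have hkK' : (1 : ℝ) ≤ finrank k K := by exact_mod_cast hkK
  have hkK2 : (finrank k K : ℝ) ≤ (finrank k K : ℝ) ^ 2 := le_self_pow₀ hkK' (by norm_num)
  have hkK3 : (1 : ℝ) ≤ (finrank k K : ℝ) ^ 2 := hkK'.trans hkK2
  refine ⟨C₁ * (finrank k K : ℝ) ^ 2, by positivity, ?_⟩
  intro L _ _ _ x hx hw
  obtain ⟨hu0, hwnd, hlim⟩ := transfer (M := CP k K L) (F := F) hA hconj hq hG hb hs hB₁ hx
  set u := lin (A.map (algebraMap K (CP k K L))) (fun i => algebraMap L (CP k K L) (x i)) with hu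
  refine ⟨_, hlim, ?_⟩
  set h := canH (Fit Gb s) Q u with hh
  have hh0 : 0 ≤ h := hB₂.canH_nonneg hQ2 hu0
  have hw' := hwnd hw
  rcases Nat.eq_zero_or_pos N with hN | hN
  · subst hN
    exact absurd hw' (not_wnd_zero hB₂ hu0)
  -- normalisation
  obtain ⟨i₀, hi₀⟩ : ∃ i, u i ≠ 0 := Function.ne_iff.mp hu0
  set u' : Fin (N + 1) → CP k K L := (u i₀)⁻¹ • u with hu'
  have hu'1 : u' i₀ = 1 := by
    simp only [hu', Pi.smul_apply, smul_eq_mul]
    exact inv_mul_cancel₀ hi₀
  have hu'0 : u' ≠ 0 := by
    intro h0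
    rw [h0] at hu'1
    exact zero_ne_one hu'1
  have hwu' : Wnd (Fit Gb s) u' := Wnd_smul hgood.hom (inv_ne_zero hi₀) hw'
  set z : Fin (N + 1) → NC K (CP k K L) := fun i =>
    algebraMap (CP k K L) (NC K (CP k K L)) (u' i) with hz
  have hz1 : z i₀ = 1 := by
    simp only [hz, hu'1, map_one]
  have hwz : Wnd (Fit Gb s) z := hwu'.base hB₂ hu'0
  have hcan : canH (Fit Gb s) Q z = h := by
    rw [hz, canH_base, hu', canH_smul hgood.hom (inv_ne_zero hi₀)]
  have hcard : ∀ n, Fintype.card (QQ (Fit Gb s) z n) ≤ finrank k L := by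
    intro n
    exact (QQ_le (F := Fit Gb s) u' n).trans (finrank_CP_le k K L)
  have hD1 : 1 ≤ finrank k L := finrank_pos
  obtain ⟨h1, h2⟩ := hcore hN (NC K (CP k K L)) z i₀ hz1 hwz (finrank k L) hD1 hcard
  rw [hcan] at h1 h2
  set D : ℝ := (finrank k L : ℝ) with hD
  have hD1' : (1 : ℝ) ≤ D := by
    rw [hD]
    exact_mod_cast hD1
  have hlog0 : 0 ≤ Real.log D := Real.log_nonneg hD1'
  set Λ : ℝ := (1 + Real.log D) ^ ((N : ℝ) / (N + 1)) with hΛ
  have hΛ0 : 0 ≤ Λ := by positivity
  have hexp : Real.exp (-(C₁ * (finrank k K : ℝ) ^ 2 * Λ)) ≤ Real.exp (-(C₁ * Λ)) := by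
    rw [Real.exp_le_exp, neg_le_neg_iff]
    apply mul_le_mul_of_nonneg_right _ hΛ0
    exact le_mul_of_one_le_right hC₁.le hkK3
  refine ⟨?_, ?_⟩
  · refine le_trans ?_ h1
    have h3 : C₁ * D ≤ C₁ * (finrank k K : ℝ) ^ 2 * D := by
      apply mul_le_mul_of_nonneg_right _ (by linarith)
      exact le_mul_of_one_le_right hC₁.le hkK3
    have h4 : 0 < C₁ * D := by positivity
    gcongr
  · intro e m R he hm0 hR
    rcases Nat.eq_zero_or_pos e with rfl | he0
    · simpa using hh0
    rcases Nat.eq_zero_or_pos R with rfl | hR0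
    · simpa using hh0
    have hram : ∀ 𝔔 : Ideal (𝓞 (CP k K L)), 𝔔.IsPrime → 𝔔.under (𝓞 K) = mi v →
        𝔔.ramificationIdx (𝓞 K) ≤ e * finrank k K := by
      intro 𝔔 h𝔔 h𝔔P
      refine (ram_tower (k := k) (L := L) (mi v) he 𝔔 h𝔔P).trans ?_
      exact Nat.mul_le_mul_left _ (finrank_CP_le' k K L)
    -- dimensions
    have hdim : ∀ n, R ≤ finrank k K * finrank (NC K (CP k K L)) (EL K
        (fun y : QQ (Fit Gb s) z n => pt (Fit Gb s) z n y.out) m) := by
      intro n
      have hcomp : ∃ c₀ : NC K (CP k K L), c₀ ≠ 0 ∧ (act (Fit Gb s))^[n] z =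
          c₀ • lin (A.map (algebraMap K (NC K (CP k K L))))
            (fun i => algebraMap (CP k K L) (NC K (CP k K L))
              (algebraMap L (CP k K L) ((act F)^[s * n] x i))) := by
        obtain ⟨c', hc', hc''⟩ := act_C_mul_iter hb hG u (s * n)
        rw [hconj.act_iter, act_iter_base] at hc''
        have e1 : (act (Fit Gb s))^[n] u' = (((u i₀)⁻¹) ^ Q ^ n * c') •
            lin (A.map (algebraMap K (CP k K L)))
              (fun i => algebraMap L (CP k K L) ((act F)^[s * n] x i)) := by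
          rw [hu', act_iter_smul hgood.hom, act_Fit_iter, mul_smul, ← hc'']
        refine ⟨algebraMap _ _ (((u i₀)⁻¹) ^ Q ^ n * c'), ?_, ?_⟩
        · rw [Ne, FaithfulSMul.algebraMap_eq_zero_iff]
          exact mul_ne_zero (pow_ne_zero _ (inv_ne_zero hi₀)) hc'
        · rw [hz, act_iter_base, e1]
          funext i
          simp only [Pi.smul_apply, smul_eq_mul, lin, map_mul, map_sum, Matrix.map_apply,
            ← IsScalarTower.algebraMap_apply K (CP k K L) (NC K (CP k K L))]
      obtain ⟨c₀, hc₀, hc₁⟩ := hcomp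
      have e2 := finrank_values_base (k := k) (K := K)
        ((algebraMap (CP k K L) (NC K (CP k K L))).comp (algebraMap L (CP k K L)))
        (fun a => by
          rw [RingHom.comp_apply, ← IsScalarTower.algebraMap_apply k L (CP k K L),
            IsScalarTower.algebraMap_apply k K (CP k K L),
            ← IsScalarTower.algebraMap_apply K (CP k K L) (NC K (CP k K L))])
        ((act F)^[s * n] x) m
      have e3 := finrank_values_lin hA hc₀ (fun i =>
        ((algebraMap (CP k K L) (NC K (CP k K L))).comp (algebraMap L (CP k K L)))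
          ((act F)^[s * n] x i)) m
      have e4 := finrank_values_le (F := Fit Gb s) (z := z) (n := n) (s := m)
      rw [hc₁] at e4
      exact ((hR (s * n)).trans e2).trans (Nat.mul_le_mul_left _ (e3.trans e4))
    set κ := finrank k K with hκ
    set R' : ℕ := (R + κ - 1) / κ with hR'
    have hR'1 : 1 ≤ R' := by
      rw [hR', Nat.le_div_iff_mul_le (by omega)]
      omega
    have hR'2 : R ≤ κ * R' := by
      have h3 := Nat.div_add_mod (R + κ - 1) κ
      have h4 := Nat.mod_lt (R + κ - 1) (show 0 < κ by omega)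
      rw [← hR'] at h3
      omega
    have hR'3 : ∀ x : ℕ, R ≤ κ * x → R' ≤ x := by
      intro x hx
      rw [hR']
      apply Nat.le_of_lt_succ
      rw [Nat.div_lt_iff_lt_mul (by omega)]
      have h3 : x.succ * κ = κ * x + κ := by
        rw [Nat.succ_eq_add_one]
        ring
      rw [h3]
      have h4 : 1 ≤ κ := hkK
      omega
    have h3 := h2 (e * κ) m R' (Nat.mul_pos he0 hkK) hm0 hR'1
      (fun v' hv' y => oI_le hP0 hv' hram u' y) (fun n => hR'3 _ (hdim n))
    refine le_trans ?_ h3
    have hR'4 : (R : ℝ) ≤ κ * R' := by exact_mod_cast hR'2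
    have hR'5 : (0 : ℝ) < R' := by exact_mod_cast hR'1
    have hR5 : (0 : ℝ) < R := by exact_mod_cast hR0
    have he5 : (0 : ℝ) < e := by exact_mod_cast he0
    have hm5 : (0 : ℝ) < m := by exact_mod_cast hm0
    have hκ5 : (0 : ℝ) < κ := by linarith
    calc Real.exp (-(C₁ * (κ : ℝ) ^ 2 * Λ)) * R / (C₁ * (κ : ℝ) ^ 2 * m * e * D) ≤
        Real.exp (-(C₁ * Λ)) * (κ * R') / (C₁ * (κ : ℝ) ^ 2 * m * e * D) := by
          gcongr
      _ = Real.exp (-(C₁ * Λ)) / (C₁ * (m * ((e * κ : ℕ) : ℝ) * (D / R'))) := by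
          push_cast
          field_simp

end Top

end

end Pool.Agent.NH29.QL
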